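import Mathlib

/-!
# The rank one components of a valuation ring: rational rank and residue degree
-/

namespace Pool.Agent.LU2G

/-- The value group `V'ˣ / Vˣ` of the component of `V` between the valuation rings `V ⊆ V'` of a
field, that is of the image of `V` in the residue field of `V'`. -/
abbrev CompGroup {K : Type} [Field K] (V V' : ValuationSubring K) : Type :=
  Additive (V'.unitGroup ⧸ V.unitGroup.subgroupOf V'.unitGroup)

/-- The rational rank of the component of `V` between `V` and `V'`. -/
noncomputable def compRank {K : Type} [Field K] (V V' : ValuationSubring K) : Cardinal :=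
  letI : AddCommGroup (CompGroup V V') := inferInstance
  Module.rank ℤ (CompGroup V V')

/-- The transcendence degree over `k` of the residue field of the valuation ring `V` of a field `K`,
for an embedding of `k` in `K` whose image lies in `V`. -/
noncomputable def resDegree {k K : Type} [Field k] [Field K] (ι : k →+* K)
    (V : ValuationSubring K) (hV : ∀ a, ι a ∈ V) : Cardinal :=
  @Algebra.trdeg k (IsLocalRing.ResidueField V) _ _
    ((IsLocalRing.residue V).comp (ι.codRestrict V hV)).toAlgebra

/-- All rank one components of the valuation ring `V` of `K` have Abhyankar defect at most one over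
`k`: if `V ⊆ V₁ ⊂ V₂` are valuation rings with nothing between `V₁` and `V₂`, the transcendence
degree over `k` of the residue field of `V₂` is at most the sum of that of the residue field of
`V₁`, of the rational rank of the value group `V₂ˣ / V₁ˣ`, and of one. -/
def ComponentDefectsLEOne {k K : Type} [Field k] [Field K] (ι : k →+* K)
    (V : ValuationSubring K) : Prop :=
  ∀ V₁ V₂ : ValuationSubring K, V ≤ V₁ → V₁ ⋖ V₂ →
    ∃ (h₁ : ∀ a, ι a ∈ V₁) (h₂ : ∀ a, ι a ∈ V₂),
      resDegree ι V₂ h₂ ≤ resDegree ι V₁ h₁ + compRank V₁ V₂ + 1

end Pool.Agent.LU2G
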