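import Pool.Agent.Lib.LU2G.Comp
import Pool.Agent.Lib.LU2G.CompDefs

/-!
# LU2G: the defects of the components in terms of ranks and transcendence degrees
-/

set_option autoImplicit false

namespace Pool.Agent.LU2G

open Pool.Agent.LU2

theorem exists_nat_split {T R D : Cardinal} {δ : ℕ} (hT : T < Cardinal.aleph0)
    (h : T ≤ R + D + δ) :
    ∃ r d : ℕ, (r : Cardinal) ≤ R ∧ (d : Cardinal) ≤ D ∧ T ≤ ((r + d + δ : ℕ) : Cardinal) := by
  obtain ⟨t, rfl⟩ := Cardinal.lt_aleph0.1 hT
  rcases le_or_gt Cardinal.aleph0 R with hR | hR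
  · exact ⟨t, 0, (Cardinal.natCast_le_aleph0).trans hR, by simp, by norm_cast; omega⟩
  rcases le_or_gt Cardinal.aleph0 D with hD | hD
  · exact ⟨0, t, by simp, (Cardinal.natCast_le_aleph0).trans hD, by norm_cast; omega⟩
  obtain ⟨r, rfl⟩ := Cardinal.lt_aleph0.1 hR
  obtain ⟨d, rfl⟩ := Cardinal.lt_aleph0.1 hD
  exact ⟨r, d, le_rfl, le_rfl, by exact_mod_cast h⟩

/-- Linearly independent elements of the value group of the component are the values of units of
`V₁` with independent values in `V`. -/
theorem exists_units {K : Type} [Field K] (V V₁ : ValuationSubring K) {r : ℕ}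
    (hr : (r : Cardinal) ≤ compRank V V₁) :
    ∃ x : Fin r → K, (∀ i, V₁.valuation (x i) = 1) ∧ IndVal V x := by
  letI : AddCommGroup (CompGroup V V₁) := inferInstance
  obtain ⟨f, hf⟩ := _root_.exists_linearIndependent_of_le_rank
    (show (r : Cardinal) ≤ Module.rank ℤ (CompGroup V V₁) from hr)
  let N : Subgroup V₁.unitGroup := V.unitGroup.subgroupOf V₁.unitGroup
  let mkA : Additive V₁.unitGroup →+ CompGroup V V₁ := (QuotientGroup.mk' N).toAdditive
  have hsurj : ∀ i, ∃ x : V₁.unitGroup, mkA (Additive.ofMul x) = f i := fun i =>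
    QuotientGroup.mk_surjective (Additive.toMul (f i))
  choose x hx using hsurj
  refine ⟨fun i => ((x i : Kˣ) : K), fun i => (x i).2, fun i => (x i : Kˣ).ne_zero,
    fun e he => ?_⟩
  refine linearIndependent_iff.1 hf e ?_
  have h1 : Finsupp.linearCombination ℤ f e =
      mkA (∑ i ∈ e.support, e i • Additive.ofMul (x i)) := by
    rw [Finsupp.linearCombination_apply, Finsupp.sum, map_sum]
    refine Finset.sum_congr rfl fun i _ => ?_
    rw [map_zsmul, hx i]
  rw [h1]
  have h3 : Additive.toMul (∑ i ∈ e.support, e i • Additive.ofMul (x i)) ∈ N := by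
    rw [Subgroup.mem_subgroupOf]
    change V.valuation (((Additive.toMul (∑ i ∈ e.support, e i • Additive.ofMul (x i)) :
      V₁.unitGroup) : Kˣ) : K) = 1
    rw [← he]
    congr 1
    rw [Finsupp.prod, toMul_sum]
    push_cast
    refine Finset.prod_congr rfl fun i _ => ?_
    rw [toMul_zsmul, toMul_ofMul]
    push_cast
    rfl
  exact (QuotientGroup.eq_one_iff _).2 h3

/-- Algebraically independent elements of the residue field are the residues of elements with
independent residues. -/
theorem exists_indRes' {k K : Type} [Field k] [Field K] [Algebra k K]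
    (V : ValuationSubring K) (hV : ∀ a, algebraMap k K a ∈ V) {d : ℕ}
    (hd : (d : Cardinal) ≤ resDegree (algebraMap k K) V hV) :
    ∃ z : Fin d → K, IndRes k V z := by
  let _ : Algebra k (IsLocalRing.ResidueField V) :=
    ((IsLocalRing.residue V).comp ((algebraMap k K).codRestrict V hV)).toAlgebra
  have hinj : Function.Injective (algebraMap k (IsLocalRing.ResidueField V)) :=
    (algebraMap k (IsLocalRing.ResidueField V)).injective
  have : FaithfulSMul k (IsLocalRing.ResidueField V) :=
    (faithfulSMul_iff_algebraMap_injective k _).2 hinj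
  obtain ⟨ι, y, hy⟩ := exists_isTranscendenceBasis' k (IsLocalRing.ResidueField V)
  have hcard : (d : Cardinal) ≤ Cardinal.mk ι := by
    refine le_trans hd ?_
    rw [hy.cardinalMk_eq_trdeg]
    exact le_refl _
  have hcard' : Cardinal.mk (Fin d) ≤ Cardinal.mk ι := by
    rw [Cardinal.mk_fin]
    exact hcard
  obtain ⟨j⟩ := hcard'
  have hres : ∀ i, ∃ a : V, IsLocalRing.residue V a = y (j i) := fun i =>
    IsLocalRing.residue_surjective _
  choose z hz using hres
  have hind : AlgebraicIndependent k (fun i => y (j i)) := hy.1.comp _ j.injective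
  refine ⟨fun i => (z i : K), fun i => (z i).2, fun P hP => ?_⟩
  set φ : k →+* V := (algebraMap k K).codRestrict V hV with hφ
  have h1 : MvPolynomial.aeval (fun i => (z i : K)) P =
      ((MvPolynomial.eval₂ φ z P : V) : K) := by
    have h := MvPolynomial.map_eval₂Hom φ z V.subtype P
    rw [MvPolynomial.aeval_def]
    refine Eq.trans ?_ h.symm
    have hc : (V.subtype.comp φ) = algebraMap k K := by
      ext c
      rfl
    rw [MvPolynomial.coe_eval₂Hom, hc]
    rfl
  have h2 : IsLocalRing.residue V (MvPolynomial.eval₂ φ z P) = 0 := by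
    rw [IsLocalRing.residue_eq_zero_iff, V.valuation_lt_one_iff, ← h1]
    exact hP
  have h3 : MvPolynomial.aeval (fun i => y (j i)) P = 0 := by
    rw [← h2]
    have h := MvPolynomial.map_eval₂Hom φ z (IsLocalRing.residue V) P
    rw [MvPolynomial.aeval_def]
    refine Eq.trans ?_ h.symm
    rw [MvPolynomial.coe_eval₂Hom]
    have : (fun i => y (j i)) = fun i => IsLocalRing.residue V (z i) := funext fun i => (hz i).symm
    rw [this]
    rfl
  exact (injective_iff_map_eq_zero _).1 hind P h3

/-- The residue map of a coarser valuation ring. -/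
theorem isRes_residue {k K : Type} [Field k] [Field K] [Algebra k K] {V V₁ : ValuationSubring K}
    (hle : V ≤ V₁) (hk : ∀ c : k, algebraMap k K c ∈ V) (hk₁ : ∀ c : k, algebraMap k K c ∈ V₁) :
    letI : Algebra k (IsLocalRing.ResidueField V₁) :=
      ((IsLocalRing.residue V₁).comp ((algebraMap k K).codRestrict V₁ hk₁)).toAlgebra
    IsRes (k := k) V V₁ (IsLocalRing.residue V₁) (imgV hle) := by
  letI : Algebra k (IsLocalRing.ResidueField V₁) :=
    ((IsLocalRing.residue V₁).comp ((algebraMap k K).codRestrict V₁ hk₁)).toAlgebra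
  refine ⟨hle, hk, IsLocalRing.residue_surjective, fun c h => rfl, fun x => ?_⟩
  constructor
  · rintro ⟨y, hy⟩
    rw [RingHom.comp_apply] at hy
    have h1 : IsLocalRing.residue V₁ (x - V.inclusion V₁ hle y) = 0 := by
      rw [map_sub, hy, sub_self]
    rw [IsLocalRing.residue_eq_zero_iff, V₁.valuation_lt_one_iff] at h1
    have h2 : V.valuation ((x - V.inclusion V₁ hle y : V₁) : K) < 1 :=
      val_lt_one_of_le hle h1
    have h3 : ((x - V.inclusion V₁ hle y : V₁) : K) ∈ V := (V.valuation_le_one_iff _).1 h2.le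
    have h4 : (x : K) = ((x - V.inclusion V₁ hle y : V₁) : K) + (y : K) := by
      have : ((V.inclusion V₁ hle y : V₁) : K) = (y : K) := rfl
      push_cast
      rw [this]
      ring
    rw [h4]
    exact V.add_mem _ _ h3 y.2
  · intro hx
    exact ⟨⟨x, hx⟩, rfl⟩

/-- The defect of a component in terms of ranks and transcendence degrees. -/
theorem compLE_of {k K : Type} [Field k] [Field K] [Algebra k K]
    (hfin : Algebra.trdeg k K < Cardinal.aleph0) {V V₁ : ValuationSubring K} (hle : V ≤ V₁)
    (hk : ∀ c : k, algebraMap k K c ∈ V) (hk₁ : ∀ c : k, algebraMap k K c ∈ V₁)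
    (h : resDegree (algebraMap k K) V₁ hk₁ ≤
      resDegree (algebraMap k K) V hk + compRank V V₁ + 1) : CompLE k V V₁ 1 := by
  letI alg : Algebra k (IsLocalRing.ResidueField V₁) :=
    ((IsLocalRing.residue V₁).comp ((algebraMap k K).codRestrict V₁ hk₁)).toAlgebra
  have hres : IsRes (k := k) V V₁ (IsLocalRing.residue V₁) (imgV hle) :=
    isRes_residue hle hk hk₁
  obtain ⟨n, hn⟩ := Cardinal.lt_aleph0.1 hfin
  obtain ⟨n₁, hn₁, -⟩ := hres.trdeg_le hn (x := (Fin.elim0 : Fin 0 → K))
    ⟨fun i => i.elim0, fun e _ => Subsingleton.elim _ _⟩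
  have hfin₁ : Algebra.trdeg k (IsLocalRing.ResidueField V₁) < Cardinal.aleph0 := by
    rw [hn₁]
    exact Cardinal.natCast_lt_aleph0
  have h' : Algebra.trdeg k (IsLocalRing.ResidueField V₁) ≤
      compRank V V₁ + resDegree (algebraMap k K) V hk + ((1 : ℕ) : Cardinal) := by
    rw [add_comm (compRank V V₁), Nat.cast_one]
    exact h
  obtain ⟨r, d, hr, hd, hT⟩ := exists_nat_split hfin₁ h'
  obtain ⟨x, hx1, hx⟩ := exists_units V V₁ hr
  obtain ⟨z, hz⟩ := exists_indRes' V hk hd
  refine ⟨IsLocalRing.ResidueField V₁, inferInstance, alg, IsLocalRing.residue V₁, imgV hle, hres,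
    r, d, hT, ?_, ?_⟩
  · have hxm : ∀ i, x i ∈ V₁ := fun i => (V₁.valuation_le_one_iff _).1 (hx1 i).le
    exact ⟨_, hres.indVal₂ (y := fun i => ⟨x i, hxm i⟩) hx1 hx⟩
  · exact ⟨_, hres.indRes₂ (fun i => ⟨z i, hle (hz.1 i)⟩) hz⟩

/-- The hypothesis of the final theorems. -/
theorem allComp_of {k K : Type} [Field k] [Field K] [Algebra k K]
    (hfin : Algebra.trdeg k K < Cardinal.aleph0) {V : ValuationSubring K}
    (h : ComponentDefectsLEOne (algebraMap k K) V) : AllComp k V 1 := by
  intro V₁ V₂ h₁ hc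
  obtain ⟨hk₁, hk₂, hd⟩ := h V₁ V₂ h₁ hc.covBy
  exact compLE_of hfin hc.1.le hk₁ hk₂ hd

end Pool.Agent.LU2G
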