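import Pool.Agent.Lib.LU2G.LogAll
import Pool.Agent.Lib.LU2G.CompOf
import Pool.Agent.Lib.LU2G.StatementE

/-!
# LU2G: the final theorem on log uniformization
-/

set_option autoImplicit false

namespace Pool.Agent.LU2G

open Pool.Agent.LU2

/-- Log uniformization of the valuation rings all of whose rank one components have defect at most
one. -/
theorem logUniformizable (k : Type) [Field k] (hreal : RealCase k) (A : Type) [CommRing A]
    [IsDomain A] [Algebra k A] [Algebra.EssFiniteType k A] (V : ValuationSubring (FractionRing A))
    (hV : ∀ a : A, algebraMap A (FractionRing A) a ∈ V)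
    (hdef : ComponentDefectsLEOne (algebraMap k (FractionRing A)) V) : LogUniformizable V := by
  have h1 : Algebra.EssFiniteType A (FractionRing A) :=
    Algebra.EssFiniteType.of_isLocalization _ (nonZeroDivisors A)
  have h2 : Algebra.EssFiniteType k (FractionRing A) :=
    Algebra.EssFiniteType.comp k A (FractionRing A)
  have hfin : Algebra.trdeg k (FractionRing A) < Cardinal.aleph0 :=
    trdeg_lt_aleph0 k (FractionRing A)
  refine logUniformizable_of_LU_ess k A V hV
    (lu_comp hreal (FractionRing A) hfin V (fun c => ?_) (allComp_of hfin hdef))
  rw [IsScalarTower.algebraMap_apply k A (FractionRing A)]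
  exact hV _

end Pool.Agent.LU2G
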