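import Pool.Agent.Lib.LU2_h15.RankOne

/-!
# LU2G: the real case with control of the blown up ideal (interface)
-/

set_option autoImplicit false

namespace Pool.Agent.LU2G

open Pool.Agent.LU2

universe u

section Defs

variable {k K : Type u} [Field k] [Field K] [Algebra k K]

/-- `t` is a Laurent monomial in the parameters `z i`, `i ∈ J`, times a unit; all the exponents
have the sign of the value of `t`. -/
def SMono (V : ValuationSubring K) (R : Subalgebra k K) {n : ℕ} (z : Fin n → K)
    (J : Finset (Fin n)) (t : K) : Prop :=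
  ∃ e : Fin n → ℤ, ∃ w ∈ R, V.valuation w = 1 ∧ t = (∏ i, z i ^ e i) * w ∧
    (∀ i, i ∉ J → e i = 0) ∧ (V.valuation t < 1 → ∀ i ∈ J, 0 < e i) ∧
    (1 < V.valuation t → ∀ i ∈ J, e i < 0) ∧ (V.valuation t = 1 → ∀ i, e i = 0)

/-- Log uniformization of a real valuation, with control of the supports. -/
def LUrAt (V : ValuationSubring K) (A : Subalgebra k K) (T : Finset K) : Prop :=
  ∃ (A' : Subalgebra k K) (g : K), IsChart V A A' g ∧ ∃ (n : ℕ) (z : Fin n → K)
    (J : Finset (Fin n)), IsPar V (locV V A') z ∧ SMono V (locV V A') z J g ∧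
    ∀ t ∈ T, SMono V (locV V A') z J t

variable (k) in
/-- `V` is log uniformizable, with control of the supports. -/
def LUr (V : ValuationSubring K) : Prop :=
  ∀ A : Subalgebra k K, A.FG → (∀ a ∈ A, a ∈ V) → IsFrac A →
    ∀ T : Finset K, (∀ t ∈ T, t ≠ 0) → LUrAt V A T

end Defs

/-- The real case, for all function fields over `k`. -/
def RealCaseR (k : Type u) [Field k] : Prop :=
  ∀ (K : Type u) [Field K] [Algebra k K], (⊤ : IntermediateField k K).FG →
    ∀ V : ValuationSubring K, (∀ c : k, algebraMap k K c ∈ V) → IsR1 V → DefLE k V 1 → LUr k V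

end Pool.Agent.LU2G
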