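import Pool.Agent.Lib.LU2G.LogAll
import Pool.Agent.Lib.LU2G.Real

/-!
# LU2G: log uniformization with control of the supports implies log uniformization
-/

set_option autoImplicit false

namespace Pool.Agent.LU2G

open Pool.Agent.LU2

universe u

theorem SMono.mono {k K : Type u} [Field k] [Field K] [Algebra k K] {V : ValuationSubring K}
    {R : Subalgebra k K} {n : ℕ} {z : Fin n → K} {J : Finset (Fin n)} {t : K}
    (h : SMono V R z J t) : Mono V R z t := by
  obtain ⟨e, w, hw, hw1, ht, hoff, hpos, hneg, hone⟩ := h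
  refine ⟨e, w, hw, hw1, ht, fun h1 i => ?_, fun h1 i => ?_⟩
  · rcases h1.eq_or_lt with h2 | h2
    · exact (hone h2 i).ge
    · by_cases hi : i ∈ J
      · exact (hpos h2 i hi).le
      · exact (hoff i hi).ge
  · rcases h1.eq_or_lt with h2 | h2
    · exact (hone h2.symm i).le
    · by_cases hi : i ∈ J
      · exact (hneg h2 i hi).le
      · exact (hoff i hi).le

theorem LUr.lu {k K : Type u} [Field k] [Field K] [Algebra k K] {V : ValuationSubring K}
    (h : LUr k V) : LU k V := by
  intro A hfg hA hfrac T hT
  obtain ⟨A', g, hch, n, z, J, hz, hg, ht⟩ := h A hfg hA hfrac T hT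
  exact ⟨A', g, hch, n, z, hz, hg.mono, fun t h => (ht t h).mono⟩

theorem RealCaseR.realCase {k : Type u} [Field k] (h : RealCaseR k) : RealCase k :=
  fun K _ _ hK V hk hV hd => (h K hK V hk hV hd).lu

end Pool.Agent.LU2G
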