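import Pool.Agent.Lib.LU2G.SmoothA2
import Pool.Agent.Lib.LU2_h15.Stage3B

/-!
# LU2G, G3: over a perfect field, a regular point has a smooth neighbourhood
-/

set_option autoImplicit false

namespace Pool.Agent.LU2G

open Pool.Agent.LU2

universe u

variable {k K : Type u} [Field k] [Field K] [Algebra k K]

/-- Finitely many elements of `locV V S` have a common denominator. -/
theorem exists_commonV (V : ValuationSubring K) (S : Subalgebra k K) {ι : Type} [Fintype ι]
    (c : ι → K) (hc : ∀ i, c i ∈ locV V S) :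
    ∃ t ∈ S, V.valuation t = 1 ∧ ∀ i, t * c i ∈ S := by
  classical
  choose a ha b hb hvb hab using hc
  have hb0 : ∀ i, b i ≠ 0 := fun i h => by
    have := hvb i
    rw [h, map_zero] at this
    exact zero_ne_one this
  refine ⟨∏ i, b i, S.prod_mem fun i _ => hb i, ?_, ?_⟩
  · rw [map_prod]
    exact Finset.prod_eq_one fun i _ => hvb i
  · intro i
    rw [← Finset.mul_prod_erase Finset.univ b (Finset.mem_univ i), hab i]
    have h1 : b i * (∏ x ∈ Finset.univ.erase i, b x) * (a i / b i) =
        (∏ x ∈ Finset.univ.erase i, b x) * a i := by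
      field_simp [hb0 i]
    rw [h1]
    exact S.mul_mem (S.prod_mem fun i _ => hb i) (ha i)

/-- Elements of `S[1/b]` are quotients. -/
theorem mem_adjoin_inv (S : Subalgebra k K) {b : K} (hb : b ∈ S) (hb0 : b ≠ 0) :
    ∀ z ∈ Algebra.adjoin k ((S : Set K) ∪ {b⁻¹}), ∃ n : ℕ, z * b ^ n ∈ S := by
  intro z hz
  induction hz using Algebra.adjoin_induction with
  | mem x hx =>
    rcases hx with hx | hx
    · exact ⟨0, by rw [pow_zero, mul_one]; exact hx⟩
    · refine ⟨1, ?_⟩
      rw [Set.mem_singleton_iff.1 hx, pow_one, inv_mul_cancel₀ hb0]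
      exact S.one_mem
  | algebraMap c => exact ⟨0, by rw [pow_zero, mul_one]; exact S.algebraMap_mem c⟩
  | add x y _ _ hx hy =>
    obtain ⟨n, hs⟩ := hx
    obtain ⟨m, ht⟩ := hy
    refine ⟨n + m, ?_⟩
    have : (x + y) * b ^ (n + m) = x * b ^ n * b ^ m + y * b ^ m * b ^ n := by ring
    rw [this]
    exact S.add_mem (S.mul_mem hs (S.pow_mem hb m)) (S.mul_mem ht (S.pow_mem hb n))
  | mul x y _ _ hx hy =>
    obtain ⟨n, hs⟩ := hx
    obtain ⟨m, ht⟩ := hy
    refine ⟨n + m, ?_⟩
    have : x * y * b ^ (n + m) = x * b ^ n * (y * b ^ m) := by ring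
    rw [this]
    exact S.mul_mem hs ht

/-- Inverting one element of a subalgebra of a field. -/
theorem smooth_adjoin_invV (S : Subalgebra k K) (h : S) (h0 : (h : K) ≠ 0)
    (hs : Algebra.Smooth k (Localization.Away h)) :
    Algebra.Smooth k (Algebra.adjoin k ((S : Set K) ∪ {(h : K)⁻¹})) := by
  obtain ⟨B, hB⟩ : ∃ B : Subalgebra k K, B = Algebra.adjoin k ((S : Set K) ∪ {(h : K)⁻¹}) :=
    ⟨_, rfl⟩
  rw [← hB]
  have hle : S ≤ B := fun x hx => hB ▸ Algebra.subset_adjoin (Or.inl hx)
  have hinv : (h : K)⁻¹ ∈ B := hB ▸ Algebra.subset_adjoin (Or.inr rfl)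
  let _ : Algebra S B := (Subalgebra.inclusion hle).toRingHom.toAlgebra
  have hcoe : ∀ s : S, ((algebraMap S B s : B) : K) = s := fun s => rfl
  have hsc : IsScalarTower k S B := IsScalarTower.of_algebraMap_eq fun c => rfl
  have hloc : IsLocalization.Away h B := by
    refine ⟨⟨?_, ?_, ?_⟩⟩
    · rintro ⟨y, n, rfl⟩
      have h1 : IsUnit (algebraMap S B h) := by
        refine IsUnit.of_mul_eq_one ⟨(h : K)⁻¹, hinv⟩ ?_
        apply Subtype.ext
        change (h : K) * (h : K)⁻¹ = 1
        exact mul_inv_cancel₀ h0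
      change IsUnit (algebraMap S B (h ^ n))
      rw [map_pow]
      exact h1.pow n
    · rintro ⟨z, hz⟩
      obtain ⟨n, hn⟩ := mem_adjoin_inv S h.2 h0 z (hB ▸ hz)
      refine ⟨(⟨_, hn⟩, ⟨h ^ n, n, rfl⟩), ?_⟩
      apply Subtype.ext
      change z * ((h ^ n : S) : K) = z * (h : K) ^ n
      push_cast
      rfl
    · intro x y hxy
      refine ⟨1, ?_⟩
      have : (x : K) = y := congrArg (fun b : B => (b : K)) hxy
      rw [Subtype.ext this]
  have e : Localization.Away h ≃ₐ[k] B :=
    (IsLocalization.algEquiv (Submonoid.powers h) (Localization.Away h) B).restrictScalars k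
  exact Algebra.Smooth.of_equiv e

/-- The maximal ideal of the local ring. -/
theorem mem_maximal_iff {V : ValuationSubring K} {S : Subalgebra k K} (hS : ∀ f ∈ S, f ∈ V)
    [IsLocalRing (locV V S)] (f : locV V S) :
    f ∈ IsLocalRing.maximalIdeal (locV V S) ↔ V.valuation (f : K) < 1 := by
  rw [IsLocalRing.mem_maximalIdeal, mem_nonunits_iff]
  constructor
  · intro hf
    by_contra h
    apply hf
    have h1 : V.valuation (f : K) = 1 :=
      le_antisymm ((V.valuation_le_one_iff _).2 (locV_mem hS f f.2)) (not_lt.1 h)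
    have hf0 : (f : K) ≠ 0 := by
      intro h
      rw [h, map_zero] at h1
      exact zero_ne_one h1
    exact IsUnit.of_mul_eq_one ⟨_, locV_inv f.2 h1⟩ (Subtype.ext (mul_inv_cancel₀ hf0))
  · intro h hu
    obtain ⟨y, hy⟩ := hu.exists_right_inv
    have h1 : (f : K) * (y : K) = 1 := congrArg (fun t : locV V S => (t : K)) hy
    have h2 : V.valuation ((f : K) * (y : K)) < 1 := by
      rw [map_mul]
      exact mul_lt_of_lt_of_le_one h ((V.valuation_le_one_iff _).2 (locV_mem hS y y.2))
    rw [h1, map_one] at h2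
    exact lt_irrefl _ h2

/-- Lifts of a separating transcendence basis of the residue field. -/
theorem exists_sep_lift [PerfectField k] (V : ValuationSubring K) (S : Subalgebra k K)
    (hfg : S.FG) (hS : ∀ f ∈ S, f ∈ V) :
    ∃ (d : ℕ) (τ : Fin d → locV V S),
      (∀ G : MvPolynomial (Fin d) k,
        V.valuation ((MvPolynomial.aeval τ G : locV V S) : K) < 1 → G = 0) ∧
      ∀ f : locV V S, ∃ F : Polynomial (MvPolynomial (Fin d) k),
        V.valuation ((F.eval₂ (MvPolynomial.aeval τ : MvPolynomial (Fin d) k →ₐ[k]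
          locV V S).toRingHom f : locV V S) : K) < 1 ∧
        ¬ V.valuation (((Polynomial.derivative F).eval₂ (MvPolynomial.aeval τ :
          MvPolynomial (Fin d) k →ₐ[k] locV V S).toRingHom f : locV V S) : K) < 1 := by
  have hloc := locV_local V S hS
  have hp := PI_prime V S hS
  have hfin : Algebra.FiniteType k S := (Subalgebra.fg_iff_finiteType S).1 hfg
  have hess : Algebra.EssFiniteType k (locV V S) := by
    let _ : Algebra S (locV V S) := (Subalgebra.inclusion (le_locV (V := V) S)).toRingHom.toAlgebra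
    have hl : IsLocalization.AtPrime (locV V S) (PI V S hS) :=
      isLocalization_locV V S _ hS (le_locV S) rfl
    have h1 : Algebra.EssFiniteType S (locV V S) := .of_isLocalization _ (PI V S hS).primeCompl
    have h2 : IsScalarTower k S (locV V S) := IsScalarTower.of_algebraMap_eq fun c => rfl
    exact .comp k S _
  have hess' : Algebra.EssFiniteType k (IsLocalRing.ResidueField (locV V S)) := by
    have : Algebra.EssFiniteType (locV V S) (IsLocalRing.ResidueField (locV V S)) := by
      have : Algebra.FiniteType (locV V S) (IsLocalRing.ResidueField (locV V S)) :=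
        Algebra.FiniteType.of_surjective (Algebra.ofId _ _) IsLocalRing.residue_surjective
      infer_instance
    exact .comp k (locV V S) _
  obtain ⟨s, hs, hsep⟩ := exists_isTranscendenceBasis_and_isSeparable_of_perfectField k
    (IsLocalRing.ResidueField (locV V S))
  obtain ⟨t, ht⟩ : ∃ t : Fin s.card → IsLocalRing.ResidueField (locV V S),
    t = fun j => (s.equivFin.symm j : IsLocalRing.ResidueField (locV V S)) := ⟨_, rfl⟩
  have hrange : Set.range t = (s : Set (IsLocalRing.ResidueField (locV V S))) := by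
    rw [ht]
    ext x
    constructor
    · rintro ⟨j, rfl⟩
      exact (s.equivFin.symm j).2
    · intro hx
      exact ⟨s.equivFin ⟨x, hx⟩, by simp⟩
  have hind : AlgebraicIndependent k t := by
    rw [ht]
    exact hs.1.comp _ s.equivFin.symm.injective
  rw [← hrange] at hsep
  choose τ hτ using fun j => IsLocalRing.residue_surjective (t j)
  have hres : (IsLocalRing.residue (locV V S)).comp
      (MvPolynomial.aeval τ : MvPolynomial (Fin s.card) k →ₐ[k] locV V S).toRingHom =
      (MvPolynomial.aeval t : MvPolynomial (Fin s.card) k →ₐ[k]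
        IsLocalRing.ResidueField (locV V S)).toRingHom := by
    apply MvPolynomial.ringHom_ext
    · intro c
      change IsLocalRing.residue (locV V S) (MvPolynomial.aeval τ (MvPolynomial.C c)) =
        MvPolynomial.aeval t (MvPolynomial.C c)
      rw [MvPolynomial.aeval_C, MvPolynomial.aeval_C]
      rfl
    · intro j
      change IsLocalRing.residue (locV V S) (MvPolynomial.aeval τ (MvPolynomial.X j)) =
        MvPolynomial.aeval t (MvPolynomial.X j)
      rw [MvPolynomial.aeval_X, MvPolynomial.aeval_X, hτ]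
  refine ⟨s.card, τ, ?_, ?_⟩
  · intro G hG
    rw [← mem_maximal_iff hS, ← IsLocalRing.residue_eq_zero_iff] at hG
    exact (injective_iff_map_eq_zero _).1 hind G ((RingHom.congr_fun hres G).symm.trans hG)
  · intro f
    obtain ⟨F, h1, h2⟩ := exists_sep t hsep (IsLocalRing.residue (locV V S) f)
    refine ⟨F, ?_, ?_⟩
    · rw [← mem_maximal_iff hS, ← IsLocalRing.residue_eq_zero_iff, Polynomial.hom_eval₂, hres]
      exact h1
    · rw [← mem_maximal_iff hS, ← IsLocalRing.residue_eq_zero_iff, Polynomial.hom_eval₂, hres]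
      exact h2

/-- The case where the parameters and the lifts are in the ring. -/
theorem smooth_of_isPar_aux (V : ValuationSubring K) (S : Subalgebra k K)
    (hfg : S.FG) (hS : ∀ f ∈ S, f ∈ V) {n : ℕ} {z : Fin n → K} (hz : IsPar V (locV V S) z)
    (hzS : ∀ i, z i ∈ S) {d : ℕ} (t : Fin d → S)
    (hind : ∀ G : MvPolynomial (Fin d) k,
        V.valuation ((MvPolynomial.aeval t G : S) : K) < 1 → G = 0)
    (hsep : ∀ f : S, ∃ F : Polynomial (MvPolynomial (Fin d) k),
        V.valuation ((F.eval₂ (MvPolynomial.aeval t : MvPolynomial (Fin d) k →ₐ[k]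
          S).toRingHom f : S) : K) < 1 ∧
        ¬ V.valuation (((Polynomial.derivative F).eval₂ (MvPolynomial.aeval t :
          MvPolynomial (Fin d) k →ₐ[k] S).toRingHom f : S) : K) < 1) :
    ∃ h ∈ S, V.valuation h = 1 ∧ Algebra.Smooth k (Algebra.adjoin k ((S : Set K) ∪ {h⁻¹})) := by
  have hp := PI_prime V S hS
  have hfin : Algebra.FiniteType k S := (Subalgebra.fg_iff_finiteType S).1 hfg
  let z' : Fin n → S := fun i => ⟨z i, hzS i⟩
  have hzq : ∀ i, z' i ∈ PI V S hS := fun i => hz.pos i
  have hgen : ∀ s ∈ PI V S hS, ∃ u, u ∉ PI V S hS ∧ u * s ∈ Ideal.span (Set.range z') := by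
    intro s hs
    obtain ⟨a, ha, hsum⟩ := hz.gen s (le_locV S s.2) hs
    obtain ⟨u, huS, hu1, hua⟩ := exists_commonV V S a ha
    refine ⟨⟨u, huS⟩, ?_, ?_⟩
    · intro h
      have h' : V.valuation u < 1 := h
      rw [hu1] at h'
      exact lt_irrefl _ h'
    · have h1 : (⟨u, huS⟩ : S) * s = ∑ i, (⟨u * a i, hua i⟩ : S) * z' i := by
        apply Subtype.ext
        rw [AddSubmonoidClass.coe_finsetSum]
        change u * (s : K) = ∑ i, u * a i * z i
        rw [hsum, Finset.mul_sum]
        exact Finset.sum_congr rfl fun i _ => by ring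
      rw [h1]
      exact Ideal.sum_mem _ fun i _ => Ideal.mul_mem_left _ _ (Ideal.subset_span ⟨i, rfl⟩)
  have hheight : (n : ℕ∞) ≤ (PI V S hS).height := by
    let _ : Algebra S (locV V S) := (Subalgebra.inclusion (le_locV (V := V) S)).toAlgebra
    have hl : IsLocalization.AtPrime (locV V S) (PI V S hS) :=
      isLocalization_locV V S _ hS (le_locV S) rfl
    have h1 := IsLocalization.AtPrime.ringKrullDim_eq_height (PI V S hS) (locV V S)
    rw [hz.dim] at h1
    exact_mod_cast h1.le
  have hindq : AlgebraicIndependent k fun j => Ideal.Quotient.mk (PI V S hS) (t j) := by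
    rw [algebraicIndependent_iff_injective_aeval]
    rw [injective_iff_map_eq_zero]
    intro G hG
    apply hind G
    have h6 : (Ideal.Quotient.mkₐ k (PI V S hS)) (MvPolynomial.aeval t G) =
        MvPolynomial.aeval (fun i => Ideal.Quotient.mk (PI V S hS) (t i)) G := by
      rw [← AlgHom.comp_apply, MvPolynomial.comp_aeval]
      rfl
    have h7 : Ideal.Quotient.mk (PI V S hS) (MvPolynomial.aeval t G) = 0 := h6.trans hG
    exact Ideal.Quotient.eq_zero_iff_mem.1 h7
  have htr := le_trdeg (PI V S hS) hheight t hindq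
  have hsep' : ∀ s : S, ∃ F : Polynomial (MvPolynomial (Fin d) k),
      F.eval₂ (MvPolynomial.aeval t : MvPolynomial (Fin d) k →ₐ[k] S).toRingHom s ∈ PI V S hS ∧
      (Polynomial.derivative F).eval₂
        (MvPolynomial.aeval t : MvPolynomial (Fin d) k →ₐ[k] S).toRingHom s ∉ PI V S hS :=
    fun s => hsep s
  have hai := algebraicIndependent_of_trdeg' (PI V S hS) z' t hzq hgen hsep' htr
  obtain ⟨h, hq, hsm⟩ := exists_smooth_away' (PI V S hS) z' t hzq hgen hsep' hai
  have h1 : V.valuation (h : K) = 1 := (mem_primeCompl h).1 hq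
  have h0 : (h : K) ≠ 0 := by
    intro h'
    rw [h', map_zero] at h1
    exact zero_ne_one h1
  exact ⟨h, h.2, h1, smooth_adjoin_invV S h h0 hsm⟩

/-- G3: over a perfect field, a regular point (closed or not) has a smooth neighbourhood. -/
theorem smooth_of_isPar [PerfectField k] (V : ValuationSubring K) (S : Subalgebra k K)
    (hfg : S.FG) (hS : ∀ f ∈ S, f ∈ V) {n : ℕ} {z : Fin n → K} (hz : IsPar V (locV V S) z) :
    ∃ t ∈ S, V.valuation t = 1 ∧ Algebra.Smooth k (Algebra.adjoin k ((S : Set K) ∪ {t⁻¹})) := by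
  obtain ⟨d, τ, hind, hsep⟩ := exists_sep_lift V S hfg hS
  obtain ⟨b, hbS, hb1, hbc⟩ := exists_commonV V S (Sum.elim z fun j => (τ j : K)) (by
    rintro (i | j)
    · exact hz.mem i
    · exact (τ j).2)
  have hb0 : b ≠ 0 := by
    intro h'
    rw [h', map_zero] at hb1
    exact zero_ne_one hb1
  obtain ⟨S', hS'⟩ : ∃ S' : Subalgebra k K, S' = Algebra.adjoin k ((S : Set K) ∪ {b⁻¹}) :=
    ⟨_, rfl⟩
  have hle : S ≤ S' := fun x hx => hS' ▸ Algebra.subset_adjoin (Or.inl hx)
  have hinv : b⁻¹ ∈ S' := hS' ▸ Algebra.subset_adjoin (Or.inr rfl)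
  have hle' : S' ≤ locV V S := by
    rw [hS', Algebra.adjoin_le_iff]
    rintro x (hx | hx)
    · exact le_locV S hx
    · rw [Set.mem_singleton_iff.1 hx]
      exact locV_inv (le_locV S hbS) hb1
  have hloc : locV V S' = locV V S := by
    refine le_antisymm ?_ (locV_mono hle)
    have := locV_mono (V := V) hle'
    rwa [locV_locV] at this
  have hfg' : S'.FG := by
    obtain ⟨F, hF⟩ := hfg
    classical
    refine ⟨F ∪ {b⁻¹}, ?_⟩
    rw [hS']
    apply le_antisymm
    · rw [Algebra.adjoin_le_iff]
      intro x hx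
      rw [Finset.coe_union, Finset.coe_singleton] at hx
      rcases hx with hx | hx
      · exact Algebra.subset_adjoin (Or.inl (hF ▸ Algebra.subset_adjoin hx))
      · exact Algebra.subset_adjoin (Or.inr hx)
    · rw [Algebra.adjoin_le_iff]
      rintro x (hx | hx)
      · have h1 : S ≤ Algebra.adjoin k ((F ∪ {b⁻¹} : Finset K) : Set K) := by
          rw [← hF]
          refine Algebra.adjoin_mono ?_
          rw [Finset.coe_union]
          exact Set.subset_union_left
        exact h1 hx
      · refine Algebra.subset_adjoin ?_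
        rw [Finset.coe_union, Finset.coe_singleton]
        exact Or.inr hx
  have hSV' : ∀ f ∈ S', f ∈ V := fun f hf => locV_mem hS f (hle' hf)
  have hmem : ∀ c : K, b * c ∈ S → c ∈ S' := by
    intro c hc
    have : c = b⁻¹ * (b * c) := by rw [inv_mul_cancel_left₀ hb0]
    rw [this]
    exact S'.mul_mem hinv (hle hc)
  have hz' : IsPar V (locV V S') z := by rw [hloc]; exact hz
  have hτ : ∀ j, (τ j : K) ∈ S' := fun j => hmem _ (hbc (Sum.inr j))
  have hcomp : (Subalgebra.inclusion hle').toRingHom.comp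
      (MvPolynomial.aeval (fun j => (⟨τ j, hτ j⟩ : S')) :
        MvPolynomial (Fin d) k →ₐ[k] S').toRingHom =
      (MvPolynomial.aeval τ : MvPolynomial (Fin d) k →ₐ[k] locV V S).toRingHom := by
    apply MvPolynomial.ringHom_ext
    · intro c
      change Subalgebra.inclusion hle' (MvPolynomial.aeval _ (MvPolynomial.C c)) =
        MvPolynomial.aeval τ (MvPolynomial.C c)
      rw [MvPolynomial.aeval_C, MvPolynomial.aeval_C]
      rfl
    · intro j
      change Subalgebra.inclusion hle' (MvPolynomial.aeval _ (MvPolynomial.X j)) =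
        MvPolynomial.aeval τ (MvPolynomial.X j)
      rw [MvPolynomial.aeval_X, MvPolynomial.aeval_X]
      rfl
  obtain ⟨h, hhS, hh1, hsm⟩ := smooth_of_isPar_aux V S' hfg' hSV' hz'
    (fun i => hmem _ (hbc (Sum.inl i))) (fun j => (⟨τ j, hτ j⟩ : S')) (by
      intro G hG
      apply hind G
      have h1 := congrArg (fun x : locV V S => (x : K)) (RingHom.congr_fun hcomp G)
      change ((MvPolynomial.aeval (fun j => (⟨τ j, hτ j⟩ : S')) G : S') : K) =
        ((MvPolynomial.aeval τ G : locV V S) : K) at h1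
      rw [← h1]
      exact hG) (by
      intro f
      obtain ⟨F, hF1, hF2⟩ := hsep (Subalgebra.inclusion hle' f)
      have key : ∀ G : Polynomial (MvPolynomial (Fin d) k),
          ((G.eval₂ (MvPolynomial.aeval (fun j => (⟨τ j, hτ j⟩ : S')) :
            MvPolynomial (Fin d) k →ₐ[k] S').toRingHom f : S') : K) =
          ((G.eval₂ (MvPolynomial.aeval τ : MvPolynomial (Fin d) k →ₐ[k]
            locV V S).toRingHom (Subalgebra.inclusion hle' f) : locV V S) : K) := by
        intro G
        rw [← hcomp]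
        have h1 := Polynomial.hom_eval₂ G (MvPolynomial.aeval (fun j => (⟨τ j, hτ j⟩ : S')) :
            MvPolynomial (Fin d) k →ₐ[k] S').toRingHom (Subalgebra.inclusion hle').toRingHom f
        exact congrArg (fun x : locV V S => (x : K)) h1
      refine ⟨F, ?_, ?_⟩
      · rw [key]
        exact hF1
      · rw [key]
        exact hF2)
  have hh0 : h ≠ 0 := by
    intro h'
    rw [h', map_zero] at hh1
    exact zero_ne_one hh1
  obtain ⟨N, hN⟩ := mem_adjoin_inv S hbS hb0 h (hS' ▸ hhS)
  refine ⟨b * (h * b ^ N), S.mul_mem hbS hN, ?_, ?_⟩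
  · rw [map_mul, map_mul, map_pow, hb1, hh1, one_pow, one_mul, one_mul]
  · have heq : Algebra.adjoin k ((S : Set K) ∪ {(b * (h * b ^ N))⁻¹}) =
        Algebra.adjoin k ((S' : Set K) ∪ {h⁻¹}) := by
      apply le_antisymm
      · rw [Algebra.adjoin_le_iff]
        rintro x (hx | hx)
        · exact Algebra.subset_adjoin (Or.inl (hle hx))
        · rw [Set.mem_singleton_iff.1 hx]
          have h1 : (b * (h * b ^ N))⁻¹ = b⁻¹ ^ (N + 1) * h⁻¹ := by
            rw [inv_pow, ← mul_inv]
            congr 1
            ring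
          have h2 : b⁻¹ ∈ Algebra.adjoin k ((S' : Set K) ∪ {h⁻¹}) :=
            Algebra.subset_adjoin (Or.inl hinv)
          have h3 : h⁻¹ ∈ Algebra.adjoin k ((S' : Set K) ∪ {h⁻¹}) :=
            Algebra.subset_adjoin (Or.inr rfl)
          rw [h1]
          exact Subalgebra.mul_mem _ (Subalgebra.pow_mem _ h2 _) h3
      · have hSle : S ≤ Algebra.adjoin k ((S : Set K) ∪ {(b * (h * b ^ N))⁻¹}) :=
          fun x hx => Algebra.subset_adjoin (Or.inl hx)
        have hti : (b * (h * b ^ N))⁻¹ ∈ Algebra.adjoin k ((S : Set K) ∪ {(b * (h * b ^ N))⁻¹}) :=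
          Algebra.subset_adjoin (Or.inr rfl)
        have hbi : b⁻¹ ∈ Algebra.adjoin k ((S : Set K) ∪ {(b * (h * b ^ N))⁻¹}) := by
          have h1 : b⁻¹ = (h * b ^ N) * (b * (h * b ^ N))⁻¹ := by
            field_simp
          rw [h1]
          exact Subalgebra.mul_mem _ (hSle hN) hti
        rw [Algebra.adjoin_le_iff]
        rintro x (hx | hx)
        · have : S' ≤ Algebra.adjoin k ((S : Set K) ∪ {(b * (h * b ^ N))⁻¹}) := by
            rw [hS', Algebra.adjoin_le_iff]
            rintro x (hx | hx)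
            · exact hSle hx
            · rw [Set.mem_singleton_iff.1 hx]
              exact hbi
          exact this hx
        · rw [Set.mem_singleton_iff.1 hx]
          have h1 : h⁻¹ = b ^ (N + 1) * (b * (h * b ^ N))⁻¹ := by
            field_simp
            ring
          rw [h1]
          exact Subalgebra.mul_mem _ (Subalgebra.pow_mem _ (hSle hbS) _) hti
    rw [heq]
    exact hsm

end Pool.Agent.LU2G
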