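import Pool.Agent.Lib.LU2_h15.Stage3B

/-!
# LU2G, G4: smooth points are regular
-/

set_option autoImplicit false

namespace Pool.Agent.LU2G

open IsLocalRing

theorem regular_of_etale (R B : Type*) [CommRing R] [CommRing B] [Algebra R B] [IsRegularRing R]
    [Algebra.Etale R B] (Q : Ideal B) [Q.IsPrime] :
    IsRegularLocalRing (Localization.AtPrime Q) := by
  have hB : IsNoetherianRing B := Algebra.FiniteType.isNoetherianRing R B
  let q : Ideal R := Q.under R
  have : Q.LiesOver q := ⟨rfl⟩
  have hq : IsRegularLocalRing (Localization.AtPrime q) :=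
    IsRegularRing.isRegularLocalRing_localization q
  have hun : Algebra.IsUnramifiedAt R Q := inferInstance
  letI := Localization.AtPrime.algebraOfLiesOver q Q
  have hmap := (Algebra.isUnramifiedAt_iff_map_eq R q Q).1 hun |>.2
  apply IsRegularLocalRing.of_spanFinrank_maximalIdeal_le
  have h1 : (maximalIdeal (Localization.AtPrime Q)).spanFinrank ≤
      (maximalIdeal (Localization.AtPrime q)).spanFinrank := by
    have h2 : (maximalIdeal (Localization.AtPrime q)).map
        (algebraMap (Localization.AtPrime q) (Localization.AtPrime Q)) =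
        maximalIdeal (Localization.AtPrime Q) := by
      rw [← hmap, ← Localization.AtPrime.map_eq_maximalIdeal, Ideal.map_map,
        ← IsScalarTower.algebraMap_eq]
    rw [← h2]
    exact Ideal.spanFinrank_map_le_of_fg _ (IsNoetherian.noetherian _)
  have h3 : ringKrullDim (Localization.AtPrime q) ≤ ringKrullDim (Localization.AtPrime Q) := by
    rw [IsLocalization.AtPrime.ringKrullDim_eq_height q, IsLocalization.AtPrime.ringKrullDim_eq_height Q]
    rw [Ideal.height_eq_height_add_of_liesOver_of_hasGoingDown q Q]
    exact_mod_cast le_self_add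
  refine le_trans ?_ h3
  rw [← hq.spanFinrank_maximalIdeal]
  exact_mod_cast h1

theorem regular_of_smooth (k T : Type*) [Field k] [CommRing T] [Algebra k T] [Algebra.Smooth k T]
    (P : Ideal T) [P.IsPrime] : IsRegularLocalRing (Localization.AtPrime P) := by
  obtain ⟨f, hf, hsm⟩ := Algebra.IsSmoothAt.exists_notMem_isStandardSmooth k P
  have hdisj : Disjoint (Submonoid.powers f : Set T) (P : Set T) := by
    rwa [Ideal.disjoint_powers_iff_notMem_of_isPrime]
  have hprime : (P.map (algebraMap T (Localization.Away f))).IsPrime :=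
    IsLocalization.isPrime_of_isPrime_disjoint (.powers f) _ _ ‹_› hdisj
  have hcomap : (P.map (algebraMap T (Localization.Away f))).comap
      (algebraMap T (Localization.Away f)) = P :=
    IsLocalization.comap_map_of_isPrime_disjoint (.powers f) _ ‹_› hdisj
  have hstd : (algebraMap k (Localization.Away f)).IsStandardSmooth := by
    rwa [RingHom.isStandardSmooth_algebraMap]
  obtain ⟨n, g, hg1, hg2⟩ := RingHom.IsStandardSmooth.exists_etale_mvPolynomial hstd
  letI := g.toAlgebra
  have : Algebra.Etale (MvPolynomial (Fin n) k) (Localization.Away f) := hg2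
  have hreg := regular_of_etale (MvPolynomial (Fin n) k) (Localization.Away f)
    (P.map (algebraMap T (Localization.Away f)))
  have hreg' := IsRegularLocalRing.of_ringEquiv
    (IsLocalization.localizationLocalizationAtPrimeIsoLocalization (.powers f)
      (P.map (algebraMap T (Localization.Away f)))).symm.toRingEquiv
  have key : ∀ (P' : Ideal T) [P'.IsPrime], P' = P → IsRegularLocalRing (Localization.AtPrime P') →
      IsRegularLocalRing (Localization.AtPrime P) := by
    intro P' _ h h'
    subst h
    exact h'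
  exact key _ hcomap hreg'

universe u

variable {k K : Type u} [Field k] [Field K] [Algebra k K]

open Pool.Agent.LU2

theorem isUnit_iff_val {V : ValuationSubring K} {R : Subalgebra k K} (hR : ∀ f ∈ R, f ∈ V)
    (hinv : ∀ f ∈ R, V.valuation f = 1 → f⁻¹ ∈ R) (x : R) :
    IsUnit x ↔ V.valuation (x : K) = 1 := by
  have h1 := (V.valuation_le_one_iff (x : K)).2 (hR x x.2)
  constructor
  · intro h
    obtain ⟨y, hy⟩ := h.exists_right_inv
    have hy' : (x : K) * y = 1 := congrArg (fun t : R => (t : K)) hy
    have h2 := (V.valuation_le_one_iff (y : K)).2 (hR y y.2)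
    refine le_antisymm h1 ?_
    by_contra h3
    push Not at h3
    have h4 := mul_lt_of_lt_of_le_one h3 h2
    rw [← map_mul, hy', map_one] at h4
    exact lt_irrefl _ h4
  · intro h
    have h0 : (x : K) ≠ 0 := by
      intro h0
      rw [h0, map_zero] at h
      exact zero_ne_one h
    exact IsUnit.of_mul_eq_one ⟨(x : K)⁻¹, hinv x x.2 h⟩ (Subtype.ext (mul_inv_cancel₀ h0))

/-- A regular local ring has regular parameters. -/
theorem exists_isPar {V : ValuationSubring K} {R : Subalgebra k K} (hR : ∀ f ∈ R, f ∈ V)
    (hinv : ∀ f ∈ R, V.valuation f = 1 → f⁻¹ ∈ R) (hreg : IsRegularLocalRing R) :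
    ∃ (n : ℕ) (z : Fin n → K), IsPar V R z := by
  classical
  have hmem : ∀ x : R, x ∈ maximalIdeal R ↔ V.valuation (x : K) < 1 := by
    intro x
    rw [IsLocalRing.mem_maximalIdeal, mem_nonunits_iff, isUnit_iff_val hR hinv]
    have h1 := (V.valuation_le_one_iff (x : K)).2 (hR x x.2)
    exact ⟨fun h => lt_of_le_of_ne h1 h, fun h => h.ne⟩
  obtain ⟨s, hs, hspan⟩ := (IsNoetherian.noetherian (maximalIdeal R)).exists_span_finset_card_eq_spanFinrank
  have h0 : (0 : R) ∉ s := by
    intro h0
    have h1 : Submodule.span R ((s.erase 0 : Finset R) : Set R) = maximalIdeal R := by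
      rw [← hspan, Finset.coe_erase, Submodule.span_sdiff_singleton_zero]
    have h2 := Submodule.spanFinrank_span_le_ncard_of_finite (R := R) (s.erase 0).finite_toSet
    rw [h1, Set.ncard_coe_finset, ← hs] at h2
    have h3 := Finset.card_erase_lt_of_mem h0
    omega
  refine ⟨s.card, fun i => ((s.equivFin.symm i : R) : K), ?_, ?_, ?_, ?_, ?_⟩
  · intro i
    exact (s.equivFin.symm i : R).2
  · intro i h
    apply h0
    have : (s.equivFin.symm i : R) = 0 := Subtype.ext h
    rw [← this]
    exact (s.equivFin.symm i).2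
  · intro i
    rw [← hmem, ← hspan]
    exact Submodule.subset_span (s.equivFin.symm i).2
  · intro f hf hf1
    have h1 : (⟨f, hf⟩ : R) ∈ Ideal.span (Set.range fun i => (s.equivFin.symm i : R)) := by
      have h2 : (Set.range fun i => (s.equivFin.symm i : R)) = (s : Set R) := by
        ext x
        constructor
        · rintro ⟨i, rfl⟩
          exact (s.equivFin.symm i).2
        · intro hx
          exact ⟨s.equivFin ⟨x, hx⟩, by simp⟩
      rw [h2]
      change _ ∈ Submodule.span R (s : Set R)
      rw [hspan, hmem]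
      exact hf1
    rw [Ideal.mem_span_range_iff_exists_fun] at h1
    obtain ⟨c, hc⟩ := h1
    refine ⟨fun i => (c i : K), fun i => (c i).2, ?_⟩
    have h2 := congrArg (fun t : R => (t : K)) hc
    simp only [AddSubmonoidClass.coe_finset_sum, MulMemClass.coe_mul] at h2
    exact h2.symm
  · rw [← hreg.spanFinrank_maximalIdeal, hs]

/-- G4: smooth points are regular. -/
theorem isPar_of_smooth (V : ValuationSubring K) (S : Subalgebra k K)
    (hfg : S.FG) (hS : ∀ f ∈ S, f ∈ V) {t : K} (ht : t ∈ S) (ht1 : V.valuation t = 1)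
    (hsm : Algebra.Smooth k (Algebra.adjoin k ((S : Set K) ∪ {t⁻¹}))) :
    ∃ (n : ℕ) (z : Fin n → K), IsPar V (locV V S) z := by
  have hle : S ≤ Algebra.adjoin k ((S : Set K) ∪ {t⁻¹}) := fun x hx =>
    Algebra.subset_adjoin (Or.inl hx)
  have hle2 : Algebra.adjoin k ((S : Set K) ∪ {t⁻¹}) ≤ locV V S := by
    refine Algebra.adjoin_le ?_
    rintro x (hx | hx)
    · exact le_locV _ hx
    · rw [Set.mem_singleton_iff.1 hx]
      exact locV_inv (le_locV _ ht) ht1
  have hT : ∀ f ∈ Algebra.adjoin k ((S : Set K) ∪ {t⁻¹}), f ∈ V := fun f hf =>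
    locV_mem hS f (hle2 hf)
  have heq : locV V (Algebra.adjoin k ((S : Set K) ∪ {t⁻¹})) = locV V S :=
    le_antisymm (locV_le hle2 fun _ hf h1 => locV_inv hf h1) (locV_mono hle)
  have hprime := PI_prime V _ hT
  have hloc := isLocalization_locV V _ (locV V S) hT hle2 heq
  letI := (Subalgebra.inclusion hle2).toAlgebra
  have hreg := regular_of_smooth k (Algebra.adjoin k ((S : Set K) ∪ {t⁻¹})) (PI V _ hT)
  have hreg' : IsRegularLocalRing (locV V S) := IsRegularLocalRing.of_ringEquiv
    (IsLocalization.algEquiv (PI V _ hT).primeCompl (Localization.AtPrime (PI V _ hT))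
      (locV V S)).toRingEquiv
  exact exists_isPar (locV_mem hS) (fun _ hf h1 => locV_inv hf h1) hreg'

end Pool.Agent.LU2G
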