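import Pool.Agent.Lib.LU2G.CompDefs

/-!
# Definitions used in the final statement
-/

open AlgebraicGeometry CategoryTheory

namespace Pool.Agent.LU2G

/-- The inclusion of `k` in the function field of an integral scheme `X` over `k`. -/
noncomputable def consts {k : Type} [Field k] {X : Scheme.{0}} [IsIntegral X]
    (f : X ⟶ Spec (CommRingCat.of k)) : k →+* X.functionField :=
  (Spec.preimage (X.fromSpecStalk (genericPoint X) ≫ f)).hom

/-- The morphism from the spectrum of a coarser valuation ring. -/
noncomputable def coarser {K : Type} [Field K] {V V' : ValuationSubring K} (h : V ≤ V') :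
    Spec (CommRingCat.of V') ⟶ Spec (CommRingCat.of V) :=
  Spec.map (CommRingCat.ofHom (ValuationSubring.inclusion V V' h))

/-- The morphism `h` is smooth at the point `y`. -/
def IsSmoothAt {Y S : Scheme.{0}} (h : Y ⟶ S) (y : Y) : Prop :=
  ∃ U : Y.Opens, y ∈ U ∧ Smooth (U.ι ≫ h)

end Pool.Agent.LU2G
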