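import Pool.Agent.Lib.LU1G.Main

/-!
# LU2G, G7a, G7b: uniqueness of lifts
-/

set_option autoImplicit false

open AlgebraicGeometry CategoryTheory

namespace Pool.Agent.LU2G

open Pool.Agent.LU1G (IsGen cpt incV SmoothAt)

/-- G7b: the uniqueness part of the valuative criterion. -/
theorem lift_unique {K : Type} [Field K] {X Y : Scheme.{0}} (π : Y ⟶ X) [IsSeparated π]
    (V : ValuationSubring K) (c c' : Spec (CommRingCat.of V) ⟶ Y) (h : c ≫ π = c' ≫ π)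
    (h' : incV V ≫ c = incV V ≫ c') : c = c' := by
  let S : ValuativeCommSq π :=
    { R := V
      K := K
      i₁ := incV V ≫ c
      i₂ := c ≫ π
      commSq := ⟨by rw [Category.assoc]⟩ }
  have h2 := IsSeparated.valuativeCriterion π S
  have e1 : (⟨c, rfl, rfl⟩ : S.commSq.LiftStruct) = ⟨c', h'.symm, h.symm⟩ := h2.elim _ _
  exact congrArg (fun l => l.l) e1

/-- The image of the generic point. -/
theorem IsGen.range {K : Type} [Field K] {X : Scheme.{0}} [IsIntegral X]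
    {η : Spec (CommRingCat.of K) ⟶ X} (hη : IsGen η) (x : Spec (CommRingCat.of K)) :
    η x = genericPoint X := by
  obtain ⟨e, rfl⟩ := hη
  have h1 : (Spec.map (CommRingCat.ofHom e.toRingHom) ≫ X.fromSpecStalk (genericPoint X)) x =
      X.fromSpecStalk (genericPoint X) (Spec.map (CommRingCat.ofHom e.toRingHom) x) := rfl
  rw [h1]
  have h2 : Set.range (X.fromSpecStalk (genericPoint X)) = {y | y ⤳ genericPoint X} :=
    Scheme.range_fromSpecStalk
  have h3 : X.fromSpecStalk (genericPoint X) (Spec.map (CommRingCat.ofHom e.toRingHom) x) ∈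
      {y | y ⤳ genericPoint X} := h2 ▸ ⟨_, rfl⟩
  exact (h3.antisymm (genericPoint_specializes _)).eq

/-- G7a: a lift of the generic point along a modification is unique. -/
theorem gen_unique {K : Type} [Field K] {X Y : Scheme.{0}} [IsIntegral X]
    (π : Y ⟶ X) (W : X.Opens) (hW : genericPoint X ∈ W) (hπ : IsIso (π ∣_ W))
    (η η' : Spec (CommRingCat.of K) ⟶ Y) (hg : IsGen (η ≫ π)) (h : η ≫ π = η' ≫ π) :
    η = η' := by
  have hr : ∀ ζ : Spec (CommRingCat.of K) ⟶ Y, IsGen (ζ ≫ π) →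
      Set.range ζ ⊆ Set.range (π ⁻¹ᵁ W).ι := by
    rintro ζ hζ _ ⟨x, rfl⟩
    rw [Scheme.Opens.range_ι]
    change π (ζ x) ∈ W
    have h1 : π (ζ x) = (ζ ≫ π) x := rfl
    rw [h1, IsGen.range hζ x]
    exact hW
  have key : ∀ ζ : Spec (CommRingCat.of K) ⟶ Y, IsGen (ζ ≫ π) →
      ∃ ξ : Spec (CommRingCat.of K) ⟶ (π ⁻¹ᵁ W).toScheme, ξ ≫ (π ⁻¹ᵁ W).ι = ζ :=
    fun ζ hζ => ⟨IsOpenImmersion.lift (π ⁻¹ᵁ W).ι ζ (hr ζ hζ),
      IsOpenImmersion.lift_fac (π ⁻¹ᵁ W).ι ζ (hr ζ hζ)⟩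
  obtain ⟨ξ, hξ⟩ := key η hg
  obtain ⟨ξ', hξ'⟩ := key η' (h ▸ hg)
  have h1 : ξ ≫ (π ∣_ W) ≫ W.ι = ξ' ≫ (π ∣_ W) ≫ W.ι := by
    rw [morphismRestrict_ι, reassoc_of% hξ, reassoc_of% hξ', h]
  have h2 : ξ = ξ' := by
    rw [← Category.assoc, ← Category.assoc, cancel_mono, cancel_mono] at h1
    exact h1
  rw [← hξ, ← hξ', h2]

end Pool.Agent.LU2G
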