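import Pool.Agent.Lib.LU2G.OneS
import Pool.Agent.Lib.LU2G.GenU

/-!
# LU2G, G7: one valuation ring of arbitrary rank
-/

set_option autoImplicit false

open AlgebraicGeometry CategoryTheory

namespace Pool.Agent.LU2G

open Pool.Agent.LU2
open Pool.Agent.LU1G (IsGen cpt incV SmoothAt lift_of_proper smoothAt_of_iso isIso_restrict_comp
  factor_affine frac_affine lift_of_iso)

/-- The constants lie in a valuation ring that has a centre. -/
theorem const_mem {k K : Type} [Field k] [Field K] [Algebra k K] {X : Scheme.{0}}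
    (f : X ⟶ Spec (CommRingCat.of k)) (η : Spec (CommRingCat.of K) ⟶ X)
    (hηf : η ≫ f = Spec.map (CommRingCat.ofHom (algebraMap k K))) (V : ValuationSubring K)
    (c : Spec (CommRingCat.of V) ⟶ X) (hc : incV V ≫ c = η) (a : k) : algebraMap k K a ∈ V := by
  let φ : k →+* V := (Spec.preimage (c ≫ f)).hom
  have h1 : Spec.map (CommRingCat.ofHom φ) = c ≫ f := by
    rw [CommRingCat.ofHom_hom, Spec.map_preimage]
  have h2 : Spec.map (CommRingCat.ofHom (algebraMap k K)) =
      Spec.map (CommRingCat.ofHom ((algebraMap V K).comp φ)) := by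
    rw [← hηf, ← hc, Category.assoc, ← h1, ← Spec.map_comp]
    rfl
  have h3 : algebraMap k K = (algebraMap V K).comp φ :=
    congrArg CommRingCat.Hom.hom (Spec.map_injective h2)
  rw [h3]
  exact (φ a).2

/-- The transcendence degree is finite. -/
theorem trdeg_lt {k K : Type} [Field k] [Field K] [Algebra k K] {X : Scheme.{0}} [IsIntegral X]
    (f : X ⟶ Spec (CommRingCat.of k)) [LocallyOfFiniteType f] (η : Spec (CommRingCat.of K) ⟶ X)
    (hη : IsGen η) (hηf : η ≫ f = Spec.map (CommRingCat.ofHom (algebraMap k K))) :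
    Algebra.trdeg k K < Cardinal.aleph0 := by
  obtain ⟨U, hU, hxU, -⟩ := exists_isAffineOpen_mem_and_subset
    (x := genericPoint X) (U := ⊤) (Set.mem_univ _)
  have hne : Nonempty U := ⟨⟨_, hxU⟩⟩
  obtain ⟨φK, hφK⟩ := factor_affine U hU (R := K) η (by rw [IsGen.range hη]; exact hxU)
  let A : Type := Γ(X, U)
  let _ : CommRing A := inferInstanceAs (CommRing Γ(X, U))
  have : IsDomain A := inferInstanceAs (IsDomain Γ(X, U))
  let φk : k →+* A := (Spec.preimage (hU.fromSpec ≫ f)).hom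
  let _ : Algebra A K := φK.toAlgebra
  let _ : Algebra k A := φk.toAlgebra
  have hφk : Spec.map (CommRingCat.ofHom φk) = hU.fromSpec ≫ f := by
    rw [CommRingCat.ofHom_hom, Spec.map_preimage]
  have hft : Algebra.FiniteType k A := by
    have h1 : LocallyOfFiniteType (Spec.map (CommRingCat.ofHom φk)) := by
      rw [hφk]
      infer_instance
    exact (HasRingHomProperty.Spec_iff (P := @LocallyOfFiniteType)).mp h1
  have : IsScalarTower k A K := by
    refine IsScalarTower.of_algebraMap_eq' ?_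
    have h1 : Spec.map (CommRingCat.ofHom (algebraMap k K)) =
        Spec.map (CommRingCat.ofHom (φK.comp φk)) := by
      rw [← hηf, ← hφK, Category.assoc, ← hφk, ← Spec.map_comp]
      rfl
    exact congrArg CommRingCat.Hom.hom (Spec.map_injective h1)
  have : IsFractionRing A K := frac_affine U hU ⟨_, hxU⟩ η hη φK hφK
  have e1 : Algebra.EssFiniteType A K :=
    Algebra.EssFiniteType.of_isLocalization _ (nonZeroDivisors A)
  have e2 : Algebra.EssFiniteType k K := Algebra.EssFiniteType.comp k A K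
  exact trdeg_lt_aleph0 k K

/-- The centre of the trivial valuation ring. -/
theorem centre_top {K : Type} [Field K] {X : Scheme.{0}} [IsIntegral X]
    (η : Spec (CommRingCat.of K) ⟶ X) (hη : IsGen η) (V : ValuationSubring K) (hV : V = ⊤)
    (c : Spec (CommRingCat.of V) ⟶ X) (hc : incV V ≫ c = η) :
    c (cpt V) = genericPoint X := by
  have hall : ∀ a : K, a ∈ V := by
    intro a
    rw [hV]
    exact ValuationSubring.mem_top a
  have h1 : incV V (IsLocalRing.closedPoint K) = cpt V := by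
    apply PrimeSpectrum.ext
    change Ideal.comap (algebraMap V K) (IsLocalRing.maximalIdeal K) = IsLocalRing.maximalIdeal V
    ext x
    rw [Ideal.mem_comap, IsLocalRing.mem_maximalIdeal, IsLocalRing.mem_maximalIdeal,
      mem_nonunits_iff, mem_nonunits_iff, isUnit_iff_ne_zero, not_not]
    constructor
    · intro h hu
      exact (hu.map (algebraMap V K)).ne_zero h
    · intro h
      by_contra h0
      have hmem : (x : K)⁻¹ ∈ V := hall _
      refine h (IsUnit.of_mul_eq_one ⟨(x : K)⁻¹, hmem⟩ ?_)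
      apply Subtype.ext
      exact mul_inv_cancel₀ h0
  rw [← h1]
  have h2 : c (incV V (IsLocalRing.closedPoint K)) = (incV V ≫ c) (IsLocalRing.closedPoint K) :=
    rfl
  rw [h2, hc, IsGen.range hη]

theorem inc_coarse {K : Type} [Field K] {V V₁ : ValuationSubring K} (h : V ≤ V₁) :
    incV V₁ ≫ coarse h = incV V := by
  rw [← Spec.map_comp]
  rfl

theorem coarse_coarse {K : Type} [Field K] {V V₁ V₂ : ValuationSubring K} (h : V ≤ V₁)
    (h' : V₁ ≤ V₂) (h'' : V ≤ V₂) : coarse h' ≫ coarse h = coarse h'' := by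
  rw [← Spec.map_comp]
  rfl

theorem coarse_refl {K : Type} [Field K] {V : ValuationSubring K} (h : V ≤ V) :
    coarse h = 𝟙 _ := by
  have h1 : ValuationSubring.inclusion V V h = RingHom.id V := rfl
  unfold coarse
  rw [h1]
  exact Spec.map_id _

/-- There is a modification of `X` that is smooth at the centre of `V`. -/
def Unif {k K : Type} [Field k] [Field K] {X : Scheme.{0}} (f : X ⟶ Spec (CommRingCat.of k))
    (V : ValuationSubring K) (c : Spec (CommRingCat.of V) ⟶ X) : Prop :=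
  ∃ (Y : Scheme.{0}) (π : Y ⟶ X), IsIntegral Y ∧ IsProper π ∧
    (∀ U : X.Opens, (∀ (V' : ValuationSubring K) (h : V ≤ V'), V' ≠ ⊤ →
      (coarse h ≫ c) (cpt V') ∈ U → SmoothAt f ((coarse h ≫ c) (cpt V'))) →
        IsIso (π ∣_ U)) ∧
    ∃ c' : Spec (CommRingCat.of V) ⟶ Y, c' ≫ π = c ∧ SmoothAt (π ≫ f) (c' (cpt V))

theorem Unif.step (k K : Type) [Field k] [PerfectField k] (hreal : RealCaseR k)
    [Field K] [Algebra k K] (X : Scheme.{0}) [IsIntegral X] (f : X ⟶ Spec (CommRingCat.of k))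
    [LocallyOfFiniteType f] (η : Spec (CommRingCat.of K) ⟶ X) (hη : IsGen η)
    (hηf : η ≫ f = Spec.map (CommRingCat.ofHom (algebraMap k K)))
    (V V₁ : ValuationSubring K) (hcovV : Covers V V₁) (hdef : CompLE k V V₁ 1)
    (c : Spec (CommRingCat.of V) ⟶ X) (hc : incV V ≫ c = η)
    (h₁ : Unif f V₁ (coarse hcovV.1.le ≫ c)) : Unif f V c := by
  have hle : V ≤ V₁ := hcovV.1.le
  have hVne : V ≠ ⊤ := fun h => (lt_of_lt_of_le hcovV.1 le_top).ne h
  obtain ⟨Y₁, π₁, hY₁, hπ₁, hiso₁, c₁, hc₁, hs₁⟩ := h₁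
  obtain ⟨W₀, hW₀, hW₀s⟩ := smoothAt_generic k X f
  have hisoW₀ : IsIso (π₁ ∣_ W₀) := hiso₁ W₀ fun _ _ _ hm => ⟨W₀, hm, hW₀s⟩
  obtain ⟨η₁, hη₁, hη₁g⟩ := IsGen.lift π₁ W₀ hW₀ hisoW₀ η hη
  have hη₁f : η₁ ≫ π₁ ≫ f = Spec.map (CommRingCat.ofHom (algebraMap k K)) := by
    rw [← Category.assoc, hη₁, hηf]
  obtain ⟨c₂, hc₂, hc₂'⟩ := lift_of_proper π₁ V c η₁ (by rw [hc, hη₁])
  have hinc : incV V₁ ≫ coarse hle ≫ c = η := by
    rw [← Category.assoc]
    exact (congrArg (fun t => t ≫ c) (inc_coarse hle)).trans hc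
  have hinc₁ : incV V₁ ≫ c₁ = η₁ := by
    refine gen_unique π₁ W₀ hW₀ hisoW₀ _ _ ?_ ?_
    · rw [Category.assoc, hc₁, hinc]
      exact hη
    · rw [Category.assoc, hc₁, hη₁]
      exact hinc
  have hcc : coarse hle ≫ c₂ = c₁ := by
    refine lift_unique π₁ V₁ _ _ ?_ ?_
    · rw [Category.assoc, hc₂, hc₁]
    · rw [hinc₁, ← hc₂', ← Category.assoc]
      exact congrArg (fun t => t ≫ c₂) (inc_coarse hle)
  have hiso₁' : ∀ U : X.Opens, (∀ (V' : ValuationSubring K) (h : V ≤ V'), V' ≠ ⊤ →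
      (coarse h ≫ c) (cpt V') ∈ U → SmoothAt f ((coarse h ≫ c) (cpt V'))) →
        IsIso (π₁ ∣_ U) := by
    intro U hU
    refine hiso₁ U fun V' h hne hmem => ?_
    have e1 : coarse h ≫ coarse hle ≫ c = coarse (hle.trans h) ≫ c := by
      rw [← Category.assoc]
      exact congrArg (fun t => t ≫ c) (coarse_coarse hle h (hle.trans h))
    rw [e1] at hmem ⊢
    exact hU V' (hle.trans h) hne hmem
  by_cases hsm : SmoothAt (π₁ ≫ f) (c₂ (cpt V))
  · exact ⟨Y₁, π₁, hY₁, hπ₁, hiso₁', c₂, hc₂, hsm⟩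
  · obtain ⟨Y₂, π₂, hY₂, hπ₂, hiso₂, c₃, hc₃, hs₃⟩ := one_step k K hreal Y₁ (π₁ ≫ f) η₁ hη₁g
      hη₁f V V₁ hcovV hdef c₂ hc₂' (by rw [hcc]; exact hs₁)
    refine ⟨Y₂, π₂ ≫ π₁, hY₂, inferInstance, fun U hU => ?_, c₃, ?_, ?_⟩
    · refine isIso_restrict_comp π₂ π₁ U (hiso₁' U hU) (hiso₂ _ fun hmem => hsm ?_)
      have hmem' : π₁ (c₂ (cpt V)) ∈ U := hmem
      have heq : π₁ (c₂ (cpt V)) = c (cpt V) := by rw [← hc₂]; rfl
      have e3 : (coarse (le_refl V) ≫ c) (cpt V) = c (cpt V) := by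
        rw [coarse_refl, Category.id_comp]
      refine smoothAt_of_iso π₁ f _ U (hiso₁' U hU) hmem' ?_
      rw [heq, ← e3]
      refine hU V le_rfl hVne ?_
      rw [e3, ← heq]
      exact hmem'
    · rw [← Category.assoc, hc₃, hc₂]
    · rw [Category.assoc]
      exact hs₃

/-- G7: one valuation ring of arbitrary rank. -/
theorem chain_steps (k K : Type) [Field k] [PerfectField k] (hreal : RealCaseR k)
    [Field K] [Algebra k K] (X : Scheme.{0}) [IsIntegral X] (f : X ⟶ Spec (CommRingCat.of k))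
    [LocallyOfFiniteType f] (η : Spec (CommRingCat.of K) ⟶ X) (hη : IsGen η)
    (hηf : η ≫ f = Spec.map (CommRingCat.ofHom (algebraMap k K))) (n : ℕ) :
    ∀ (W : Fin (n + 1) → ValuationSubring K), W 0 = ⊤ →
      (∀ i : Fin n, Covers (W i.succ) (W i.castSucc)) →
      AllComp k (W (Fin.last n)) 1 → ∀ c : Spec (CommRingCat.of (W (Fin.last n))) ⟶ X,
      incV (W (Fin.last n)) ≫ c = η → Unif f (W (Fin.last n)) c := by
  induction n with
  | zero =>
    intro W hW0 _ _ c hc
    refine ⟨X, 𝟙 X, inferInstance, inferInstance, fun U _ => inferInstance, c,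
      Category.comp_id _, ?_⟩
    rw [Category.id_comp, centre_top η hη (W (Fin.last 0)) hW0 c hc]
    exact smoothAt_generic k X f
  | succ n ih =>
    intro W hW0 hcov hdef c hc
    have hcovV : Covers (W (Fin.last (n + 1))) (W (Fin.last n).castSucc) := hcov (Fin.last n)
    refine Unif.step k K hreal X f η hη hηf (W (Fin.last (n + 1))) (W (Fin.last n).castSucc)
      hcovV (hdef _ _ le_rfl hcovV) c hc ?_
    refine ih (fun i => W i.castSucc) hW0 (fun i => hcov i.castSucc)
      (hdef.of_le hcovV.1.le) (coarse hcovV.1.le ≫ c) ?_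
    rw [← Category.assoc]
    exact (congrArg (fun t => t ≫ c) (inc_coarse hcovV.1.le)).trans hc

/-- One valuation ring. -/
theorem unif_of_defLE (k K : Type) [Field k] [PerfectField k] (hreal : RealCaseR k)
    [Field K] [Algebra k K] (X : Scheme.{0}) [IsIntegral X] (f : X ⟶ Spec (CommRingCat.of k))
    [LocallyOfFiniteType f] (η : Spec (CommRingCat.of K) ⟶ X) (hη : IsGen η)
    (hηf : η ≫ f = Spec.map (CommRingCat.ofHom (algebraMap k K)))
    (V : ValuationSubring K) (hdef : AllComp k V 1) (c : Spec (CommRingCat.of V) ⟶ X)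
    (hc : incV V ≫ c = η) : Unif f V c := by
  by_cases hV : V = ⊤
  · refine ⟨X, 𝟙 X, inferInstance, inferInstance, fun U _ => inferInstance, c,
      Category.comp_id _, ?_⟩
    rw [Category.id_comp, centre_top η hη V hV c hc]
    exact smoothAt_generic k X f
  · have hk : ∀ a : k, algebraMap k K a ∈ V := const_mem f η hηf V c hc
    obtain ⟨n, W, hW0, hWn, hcov⟩ := exists_chain hk hV (trdeg_lt f η hη hηf)
    subst hWn
    exact chain_steps k K hreal X f η hη hηf n W hW0 hcov hdef c hc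

end Pool.Agent.LU2G
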