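import Pool.Agent.Lib.LU1G.Chart

/-!
# LU2G, G6a: the explicit blowing up of an affine scheme and the centre of a valuation ring
-/

set_option autoImplicit false

open AlgebraicGeometry CategoryTheory

namespace Pool.Agent.LU2G

open Pool.Agent.MP_b525bf_ag HomogeneousLocalization
open Pool.Agent.LU1G

/-- The blowing up of an affine scheme and the centre of a valuation ring on it, with the explicit
blowing up. -/
theorem blow_chart_bl (k A K : Type) [Field k] [CommRing A] [IsDomain A] [Algebra k A]
    [Algebra.FiniteType k A] [Field K] [Algebra A K] [Algebra k K] [IsScalarTower k A K]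
    [IsFractionRing A K] (V : ValuationSubring K) (hAV : ∀ a : A, algebraMap A K a ∈ V)
    (I : Ideal A) (g : A) (hg : g ∈ I) (hg0 : g ≠ 0)
    (hV : ∀ x ∈ I, algebraMap A K x / algebraMap A K g ∈ V) (t : K)
    (ht : t ∈ Algebra.adjoin k ({z | ∃ x ∈ I, z = algebraMap A K x / algebraMap A K g} : Set K))
    (ht0 : t ≠ 0) (ht1 : t⁻¹ ∈ V)
    (hsm : Algebra.Smooth k (Algebra.adjoin k
      ({z | ∃ x ∈ I, z = algebraMap A K x / algebraMap A K g} ∪ {t⁻¹} : Set K))) :
    ∃ c' : Spec (CommRingCat.of V) ⟶ (powFam I).Bl,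
      c' ≫ (powFam I).blMap = Spec.map (CommRingCat.ofHom ((algebraMap A K).codRestrict V hAV)) ∧
      SmoothAt ((powFam I).blMap ≫ Spec.map (CommRingCat.ofHom (algebraMap k A)))
        (c' (cpt V)) := by
  have hinj : Function.Injective (algebraMap A K) := IsFractionRing.injective A K
  have hK0 : algebraMap A K g ≠ 0 := fun h => hg0 (hinj (by rw [h, map_zero]))
  have hnoeth : IsNoetherianRing A := Algebra.FiniteType.isNoetherianRing k A
  let F : IdealFam A := powFam I
  have hmem : ∀ x ∈ I, x ∈ F.I 1 := by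
    intro x hx
    change x ∈ I ^ 1
    rwa [pow_one]
  have hg1 : g ∈ F.I 1 := hmem g hg
  have hchart : F.chart k K hg1 = Algebra.adjoin k (gens A K I g) := chart_eq I hg1 hK0
  let S : Subalgebra k K := Algebra.adjoin k (gens A K I g ∪ {t⁻¹})
  have hCS : F.chart k K hg1 ≤ S := by
    rw [hchart]
    exact Algebra.adjoin_mono Set.subset_union_left
  have hkV : ∀ c : k, algebraMap k K c ∈ V := by
    intro c
    rw [IsScalarTower.algebraMap_apply k A K]
    exact hAV _
  have hSV : ∀ z ∈ S, z ∈ V := by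
    intro z hz
    induction hz using Algebra.adjoin_induction with
    | mem z hz =>
      rcases hz with ⟨x, hx, rfl⟩ | hz
      · exact hV x hx
      · rw [Set.mem_singleton_iff.mp hz]
        exact ht1
    | algebraMap r => exact hkV r
    | add a b _ _ ha hb => exact add_mem ha hb
    | mul a b _ _ ha hb => exact mul_mem ha hb
  -- the ring homomorphism from the chart ring of `Proj` to `S`
  let φ : Away F.grade (F.mono 1 g hg1) →+* S :=
    (F.psi hg1 hK0).codRestrict S (fun z => hCS (F.psi_mem_chart hg1 hK0 z))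
  have hφ : ∀ z, ((φ z : S) : K) = F.psi hg1 hK0 z := fun z => rfl
  obtain ⟨w, hw⟩ := F.exists_psi (k := k) hg1 hK0 (z := t) (by rw [hchart]; exact ht)
  let _ : Algebra (Away F.grade (F.mono 1 g hg1)) S := φ.toAlgebra
  have hinv : t⁻¹ ∈ S := Algebra.subset_adjoin (Or.inr rfl)
  have hloc : IsLocalization.Away w S := by
    refine (isLocalization_iff _ _).mpr ⟨?_, ?_, ?_⟩
    · rintro ⟨_, n, rfl⟩
      have h1 : IsUnit (φ w) := by
        refine IsUnit.of_mul_eq_one ⟨t⁻¹, hinv⟩ ?_
        apply Subtype.ext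
        change F.psi hg1 hK0 w * t⁻¹ = 1
        rw [hw, mul_inv_cancel₀ ht0]
      have h2 := h1.pow n
      rw [← map_pow φ w n] at h2
      exact h2
    · intro z
      obtain ⟨n, hn⟩ := exists_mul_pow_mem (gens A K I g) t ht ht0 (z : K) z.2
      obtain ⟨u, hu⟩ := F.exists_psi (k := k) hg1 hK0 (z := (z : K) * t ^ n)
        (by rw [hchart]; exact hn)
      refine ⟨(u, ⟨w ^ n, n, rfl⟩), ?_⟩
      apply Subtype.ext
      refine Eq.trans ?_ hu.symm
      rw [← hw, ← map_pow (F.psi hg1 hK0) w n]
      rfl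
    · intro a b hab
      refine ⟨1, ?_⟩
      have h : F.psi hg1 hK0 a = F.psi hg1 hK0 b := congrArg Subtype.val hab
      rw [F.psi_injective hg1 hinj hK0 h]
  have hop : IsOpenImmersion (Spec.map (CommRingCat.ofHom φ)) :=
    IsOpenImmersion.of_isLocalization (R := Away F.grade (F.mono 1 g hg1)) (S := S) w
  have hop2 : IsOpenImmersion (Spec.map (CommRingCat.ofHom φ) ≫ F.chartι one_pos hg1) :=
    inferInstance
  let ρ : S →+* V :=
    { toFun := fun z => ⟨z, hSV z z.2⟩
      map_one' := rfl
      map_zero' := rfl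
      map_add' := fun _ _ => rfl
      map_mul' := fun _ _ => rfl }
  refine ⟨Spec.map (CommRingCat.ofHom ρ) ≫ Spec.map (CommRingCat.ofHom φ) ≫
    F.chartι one_pos hg1, ?_, ?_⟩
  · change (_ ≫ _ ≫ _) ≫ F.blMap = _
    rw [Category.assoc, Category.assoc, F.chartι_comp, ← Spec.map_comp, ← Spec.map_comp]
    congr 1
    refine CommRingCat.hom_ext (RingHom.ext fun a => ?_)
    apply Subtype.ext
    exact psi_chartHom F hg1 hK0 a
  · have hsmooth : AlgebraicGeometry.Smooth ((Spec.map (CommRingCat.ofHom φ) ≫
        F.chartι one_pos hg1) ≫ F.blMap ≫ Spec.map (CommRingCat.ofHom (algebraMap k A))) := by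
      have h1 : (Spec.map (CommRingCat.ofHom φ) ≫
          F.chartι one_pos hg1) ≫ F.blMap ≫ Spec.map (CommRingCat.ofHom (algebraMap k A)) =
          Spec.map (CommRingCat.ofHom (algebraMap k S)) := by
        rw [Category.assoc, ← Category.assoc (F.chartι one_pos hg1), F.chartι_comp,
          ← Spec.map_comp, ← Spec.map_comp]
        congr 1
        refine CommRingCat.hom_ext (RingHom.ext fun c => ?_)
        apply Subtype.ext
        change F.psi hg1 hK0 (F.chartHom hg1 (algebraMap k A c)) = algebraMap k K c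
        rw [psi_chartHom F hg1 hK0, ← IsScalarTower.algebraMap_apply]
      rw [h1, HasRingHomProperty.Spec_iff (P := @AlgebraicGeometry.Smooth)]
      exact RingHom.smooth_algebraMap.mpr hsm
    exact smoothAt_of_factor _ _ hsmooth (Spec.map (CommRingCat.ofHom ρ) (cpt V))

end Pool.Agent.LU2G
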