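import Pool.Agent.Lib.LU2G.RingV
import Pool.Agent.Lib.LU2G.ChartP

/-!
# LU2G, G6a: the affine case
-/

set_option autoImplicit false

open AlgebraicGeometry CategoryTheory

namespace Pool.Agent.LU2G

open Pool.Agent.LU2
open Pool.Agent.LU1G (IsGen cpt incV SmoothAt powFam)
open Pool.Agent.MP_b525bf_ag

/-- G6a: the affine case. -/
theorem affine_step (k A K : Type) [Field k] [PerfectField k] (hreal : RealCaseR k)
    [CommRing A] [IsDomain A] [Algebra k A] [Algebra.FiniteType k A] [Field K] [Algebra A K]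
    [Algebra k K] [IsScalarTower k A K] [IsFractionRing A K] (V V₁ : ValuationSubring K)
    (hcov : Covers V V₁) (hA : ∀ a : A, algebraMap A K a ∈ V) (hdef : CompLE k V V₁ 1)
    (hsm : ∃ b : A, V₁.valuation (algebraMap A K b) = 1 ∧
      Algebra.Smooth k (Localization.Away b)) :
    ∃ I : Ideal A, I ≠ ⊥ ∧
      (∀ P : Spec (CommRingCat.of A), I ≤ P.asIdeal →
        Spec.map (CommRingCat.ofHom ((algebraMap A K).codRestrict V hA)) (cpt V) ⤳ P) ∧
      ∃ c' : Spec (CommRingCat.of V) ⟶ (powFam I).Bl,
        c' ≫ (powFam I).blMap = Spec.map (CommRingCat.ofHom ((algebraMap A K).codRestrict V hA)) ∧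
        SmoothAt ((powFam I).blMap ≫ Spec.map (CommRingCat.ofHom (algebraMap k A)))
          (c' (cpt V)) := by
  obtain ⟨I, g, hgI, hg0, hge, hprime, t, ht, hvt, hsmt⟩ :=
    ring_unif k A K hreal V V₁ hcov hA hdef hsm
  have ht0 : t ≠ 0 := by
    rintro rfl
    rw [map_zero] at hvt
    exact zero_ne_one hvt
  refine ⟨I, ?_, ?_, ?_⟩
  · rintro rfl
    exact hg0 ((Ideal.mem_bot).1 hgI)
  · intro P hIP
    have hle : (show PrimeSpectrum A from
        (Spec.map (CommRingCat.ofHom ((algebraMap A K).codRestrict V hA)) (cpt V))) ≤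
          (show PrimeSpectrum A from P) := by
      intro a ha
      apply hprime P.asIdeal P.2 hIP
      have h1 : (algebraMap A K).codRestrict V hA a ∈ IsLocalRing.maximalIdeal V := ha
      exact (V.valuation_lt_one_iff _).1 h1
    exact (PrimeSpectrum.le_iff_specializes _ _).1 hle
  · exact blow_chart_bl k A K V hA I g hgI hg0
      (by
        intro x hx
        rw [← V.valuation_le_one_iff, map_div₀]
        exact div_le_one_of_le₀ (hge x hx) zero_le)
      t ht ht0
      (by rw [← V.valuation_le_one_iff, map_inv₀, hvt, inv_one])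
      hsmt

end Pool.Agent.LU2G
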