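import Pool.Agent.Lib.MP_b525bf_ag.Proj

/-!
# LU2G, G10a: the blowing up of an affine scheme and localisation
-/

set_option autoImplicit false

open AlgebraicGeometry CategoryTheory

namespace Pool.Agent.LU2G

open Pool.Agent.MP_b525bf_ag HomogeneousLocalization Polynomial HomogeneousIdeal

section Rees

variable {A B : Type} [CommRing A] [CommRing B] (F : IdealFam A) (G : IdealFam B) (ρ : A →+* B)

/-- The morphism of Rees algebras. -/
noncomputable def reesHom (h : ∀ n, ∀ a ∈ F.I n, ρ a ∈ G.I n) : F.rees →+* G.rees where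
  toFun x := ⟨Polynomial.map ρ (x : A[X]), fun n => by
    rw [Polynomial.coeff_map]; exact h n _ (x.2 n)⟩
  map_one' := Subtype.ext (Polynomial.map_one ρ)
  map_mul' x y := Subtype.ext (Polynomial.map_mul ρ)
  map_zero' := Subtype.ext (Polynomial.map_zero ρ)
  map_add' x y := Subtype.ext (Polynomial.map_add ρ)

@[simp] theorem reesHom_coe (h : ∀ n, ∀ a ∈ F.I n, ρ a ∈ G.I n) (x : F.rees) :
    (reesHom F G ρ h x : B[X]) = Polynomial.map ρ (x : A[X]) := rfl

/-- The graded morphism of Rees algebras. -/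
noncomputable def gHom (h : ∀ n, ∀ a ∈ F.I n, ρ a ∈ G.I n) : F.grade →+*ᵍ G.grade where
  toRingHom := reesHom F G ρ h
  map_mem := by
    rintro i x ⟨a, ha⟩
    refine ⟨ρ a, ?_⟩
    change Polynomial.monomial i a = (x : A[X]) at ha
    change Polynomial.monomial i (ρ a) = Polynomial.map ρ (x : A[X])
    rw [← ha, Polynomial.map_monomial]

@[simp] theorem gHom_coe (h : ∀ n, ∀ a ∈ F.I n, ρ a ∈ G.I n) (x : F.rees) :
    ((gHom F G ρ h x : G.rees) : B[X]) = Polynomial.map ρ (x : A[X]) := rfl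

theorem gHom_mem (h : ∀ n, ∀ a ∈ F.I n, ρ a ∈ G.I n) {i : ℕ} {s : F.rees}
    (hs : s ∈ F.grade i) : gHom F G ρ h s ∈ G.grade i := (gHom F G ρ h).2 hs

theorem gHom_mono (h : ∀ n, ∀ a ∈ F.I n, ρ a ∈ G.I n) (n : ℕ) (a : A) (ha : a ∈ F.I n) :
    gHom F G ρ h (F.mono n a ha) = G.mono n (ρ a) (h n a ha) := by
  apply Subtype.ext
  rw [gHom_coe, IdealFam.mono_coe, IdealFam.mono_coe, Polynomial.map_monomial]

theorem irr_le (h : ∀ n, ∀ a ∈ F.I n, ρ a ∈ G.I n) (hgen : ∀ n, G.I n ≤ (F.I n).map ρ) :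
    HomogeneousIdeal.irrelevant G.grade ≤
      (HomogeneousIdeal.irrelevant F.grade).map (gHom F G ρ h) := by
  rw [HomogeneousIdeal.irrelevant_le]
  intro i hi x hx
  obtain ⟨b, hb⟩ := hx
  change Polynomial.monomial i b = (x : B[X]) at hb
  have hbG : b ∈ G.I i := by
    have := x.2 i
    rw [← hb, Polynomial.coeff_monomial, if_pos rfl] at this
    exact this
  have hx' : x = G.mono i b hbG := Subtype.ext hb.symm
  have hbF := hgen i hbG
  have key : ∀ c ∈ (F.I i).map ρ, ∃ hc : c ∈ G.I i, G.mono i c hc ∈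
      ((HomogeneousIdeal.irrelevant F.grade).map (gHom F G ρ h)).toIdeal := by
    intro c hc
    induction hc using Submodule.span_induction with
    | mem y hy =>
      obtain ⟨a, ha, rfl⟩ := hy
      refine ⟨h i a ha, ?_⟩
      rw [← gHom_mono F G ρ h i a ha]
      rw [HomogeneousIdeal.toIdeal_map]
      refine Ideal.mem_map_of_mem (gHom F G ρ h) ?_
      exact HomogeneousIdeal.mem_irrelevant_of_mem _ hi (F.mono_mem i a ha)
    | zero =>
      refine ⟨(G.I i).zero_mem, ?_⟩
      have : G.mono i 0 (G.I i).zero_mem = 0 := by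
        apply Subtype.ext
        rw [IdealFam.mono_coe, map_zero]
        rfl
      rw [this]
      exact Ideal.zero_mem _
    | add y z _ _ hy hz =>
      obtain ⟨h1, h2⟩ := hy
      obtain ⟨h3, h4⟩ := hz
      refine ⟨(G.I i).add_mem h1 h3, ?_⟩
      have : G.mono i (y + z) ((G.I i).add_mem h1 h3) = G.mono i y h1 + G.mono i z h3 := by
        apply Subtype.ext
        rw [IdealFam.mono_coe, map_add]
        rfl
      rw [this]
      exact Ideal.add_mem _ h2 h4
    | smul c y _ hy =>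
      obtain ⟨h1, h2⟩ := hy
      refine ⟨(G.I i).smul_mem c h1, ?_⟩
      have : G.mono i (c • y) ((G.I i).smul_mem c h1) =
          G.mono 0 c (G.mem_zero c) * G.mono i y h1 := by
        apply Subtype.ext
        rw [IdealFam.mono_coe, MulMemClass.coe_mul, IdealFam.mono_coe, IdealFam.mono_coe,
          Polynomial.monomial_mul_monomial, zero_add, smul_eq_mul]
      rw [this]
      exact Ideal.mul_mem_left _ _ h2
  obtain ⟨_, h1⟩ := key b hbF
  rw [hx']
  exact h1

/-- The morphism of blowing ups. -/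
noncomputable def blHom (h : ∀ n, ∀ a ∈ F.I n, ρ a ∈ G.I n)
    (hgen : ∀ n, G.I n ≤ (F.I n).map ρ) : G.Bl ⟶ F.Bl :=
  Proj.map (gHom F G ρ h) (irr_le F G ρ h hgen)

/-- The affine charts. -/
noncomputable def bι {i : ℕ} (hi : 0 < i) (s : F.rees) (hs : s ∈ F.grade i) :
    Spec (CommRingCat.of (Away F.grade s)) ⟶ F.Bl := Proj.awayι F.grade s hs hi

instance {i : ℕ} (hi : 0 < i) (s : F.rees) (hs : s ∈ F.grade i) :
    IsOpenImmersion (bι F hi s hs) := by
  have h : IsOpenImmersion (Proj.awayι F.grade s hs hi) := inferInstance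
  exact h

theorem bι_blMap {i : ℕ} (hi : 0 < i) (s : F.rees) (hs : s ∈ F.grade i) :
    bι F hi s hs ≫ F.blMap = Spec.map (CommRingCat.ofHom
      ((fromZeroRingHom F.grade (Submonoid.powers s)).comp F.toZero)) := by
  unfold IdealFam.blMap bι
  have h := Proj.awayι_toSpecZero F.grade s hs hi
  have h2 : CommRingCat.ofHom ((fromZeroRingHom F.grade (Submonoid.powers s)).comp F.toZero) =
      F.zeroHom ≫ CommRingCat.ofHom (fromZeroRingHom F.grade (Submonoid.powers s)) := rfl
  rw [h2, Spec.map_comp, ← h]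
  rfl

theorem bl_hom_ext (h : ∀ n, ∀ a ∈ F.I n, ρ a ∈ G.I n) (hgen : ∀ n, G.I n ≤ (F.I n).map ρ)
    {T : Scheme.{0}} (g₁ g₂ : G.Bl ⟶ T)
    (H : ∀ (i : ℕ) (hi : 0 < i) (s : F.rees) (hs : s ∈ F.grade i),
      bι G hi (gHom F G ρ h s) (gHom_mem F G ρ h hs) ≫ g₁ =
        bι G hi (gHom F G ρ h s) (gHom_mem F G ρ h hs) ≫ g₂) : g₁ = g₂ :=
  (Proj.mapAffineOpenCover (gHom F G ρ h)
    (irr_le F G ρ h hgen)).openCover.hom_ext _ _ fun s => H s.1 s.1.2 s.2 s.2.2

theorem bι_blHom (h : ∀ n, ∀ a ∈ F.I n, ρ a ∈ G.I n) (hgen : ∀ n, G.I n ≤ (F.I n).map ρ)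
    {i : ℕ} (hi : 0 < i) (s : F.rees) (hs : s ∈ F.grade i) :
    bι G hi (gHom F G ρ h s) (gHom_mem F G ρ h hs) ≫ blHom F G ρ h hgen =
      Spec.map (CommRingCat.ofHom (Away.map (gHom F G ρ h) s)) ≫ bι F hi s hs :=
  Proj.awayι_comp_map (gHom F G ρ h) (irr_le F G ρ h hgen) hi s hs

theorem blHom_blMap (h : ∀ n, ∀ a ∈ F.I n, ρ a ∈ G.I n) (hgen : ∀ n, G.I n ≤ (F.I n).map ρ) :
    blHom F G ρ h hgen ≫ F.blMap = G.blMap ≫ Spec.map (CommRingCat.ofHom ρ) := by
  refine bl_hom_ext F G ρ h hgen _ _ fun i hi s hs => ?_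
  rw [← Category.assoc, bι_blHom F G ρ h hgen hi s hs, Category.assoc,
    bι_blMap F hi _ hs, ← Spec.map_comp, ← Category.assoc,
    bι_blMap G hi _ (gHom_mem F G ρ h hs), ← Spec.map_comp]
  congr 1
  refine CommRingCat.hom_ext (RingHom.ext fun a => ?_)
  apply HomogeneousLocalization.val_injective
  change Localization.mk (gHom F G ρ h (F.toZero a : F.rees)) _ =
    Localization.mk (G.toZero (ρ a) : G.rees) _
  congr 1
  · exact gHom_mono F G ρ h 0 a (F.mem_zero a)
  · apply Subtype.ext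
    exact map_one (gHom F G ρ h)

theorem blHom_congr {ρ σ : A →+* B} (e : ρ = σ) (h : ∀ n, ∀ a ∈ F.I n, ρ a ∈ G.I n)
    (hgen : ∀ n, G.I n ≤ (F.I n).map ρ) (h' : ∀ n, ∀ a ∈ F.I n, σ a ∈ G.I n)
    (hgen' : ∀ n, G.I n ≤ (F.I n).map σ) : blHom F G ρ h hgen = blHom F G σ h' hgen' := by
  subst e
  rfl

/-- Functoriality. -/
theorem blHom_id (h : ∀ n, ∀ a ∈ F.I n, RingHom.id A a ∈ F.I n)
    (hgen : ∀ n, F.I n ≤ (F.I n).map (RingHom.id A)) :
    blHom F F (RingHom.id A) h hgen = 𝟙 F.Bl := by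
  have h1 : gHom F F (RingHom.id A) h = GradedRingHom.id F.grade := by
    refine GradedRingHom.ext fun x => ?_
    apply Subtype.ext
    exact Polynomial.map_id
  unfold blHom
  have h2 : ∀ (g : F.grade →+*ᵍ F.grade) (hg : HomogeneousIdeal.irrelevant F.grade ≤
      (HomogeneousIdeal.irrelevant F.grade).map g), g = GradedRingHom.id F.grade →
      Proj.map g hg = 𝟙 (Proj F.grade) := by
    intro g hg e
    subst e
    exact Proj.map_id
  exact h2 _ _ h1

/-- Functoriality. -/
theorem blHom_comp {C : Type} [CommRing C] (H : IdealFam C) (σ : B →+* C)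
    (h : ∀ n, ∀ a ∈ F.I n, ρ a ∈ G.I n) (hgen : ∀ n, G.I n ≤ (F.I n).map ρ)
    (h' : ∀ n, ∀ a ∈ G.I n, σ a ∈ H.I n) (hgen' : ∀ n, H.I n ≤ (G.I n).map σ)
    (h'' : ∀ n, ∀ a ∈ F.I n, σ.comp ρ a ∈ H.I n)
    (hgen'' : ∀ n, H.I n ≤ (F.I n).map (σ.comp ρ)) :
    blHom F H (σ.comp ρ) h'' hgen'' = blHom G H σ h' hgen' ≫ blHom F G ρ h hgen := by
  have h1 : gHom F H (σ.comp ρ) h'' = (gHom G H σ h').comp (gHom F G ρ h) := by
    refine GradedRingHom.ext fun x => ?_
    apply Subtype.ext
    exact (Polynomial.map_map ρ σ (x : A[X])).symm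
  unfold blHom
  have h2 : ∀ (g : F.grade →+*ᵍ H.grade) (hg : HomogeneousIdeal.irrelevant H.grade ≤
      (HomogeneousIdeal.irrelevant F.grade).map g),
      g = (gHom G H σ h').comp (gHom F G ρ h) →
      Proj.map g hg = Proj.map (gHom G H σ h') (irr_le G H σ h' hgen') ≫
        Proj.map (gHom F G ρ h) (irr_le F G ρ h hgen) := by
    intro g hg e
    subst e
    exact Proj.map_comp _ _ _ _
  exact h2 _ _ h1

end Rees

section Loc

variable {A B : Type} [CommRing A] [CommRing B] [IsDomain A] [IsDomain B] (F : IdealFam A)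
  (G : IdealFam B) (ρ : A →+* B) (f₀ : A)
  (hloc : letI := ρ.toAlgebra; IsLocalization.Away f₀ B)
  (h : ∀ n, ∀ a ∈ F.I n, ρ a ∈ G.I n) (hgen : ∀ n, G.I n ≤ (F.I n).map ρ)
  (hf₀ : f₀ ≠ 0)

include hloc hf₀ in
omit [IsDomain B] in
theorem rho_injective : Function.Injective ρ := by
  letI := ρ.toAlgebra
  have : IsLocalization.Away f₀ B := hloc
  exact IsLocalization.injective B (powers_le_nonZeroDivisors_of_noZeroDivisors hf₀)

include hloc hf₀ in
omit [IsDomain B] in
theorem gHom_injective : Function.Injective (gHom F G ρ h) := by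
  intro x y hxy
  apply Subtype.ext
  refine Polynomial.map_injective ρ (rho_injective ρ f₀ hloc hf₀) ?_
  exact congrArg (fun z : G.rees => (z : B[X])) hxy

include hloc in
omit [IsDomain A] [IsDomain B] in
/-- Clearing denominators. -/
theorem exists_clear (n : ℕ) (b : B) (hb : b ∈ (F.I n).map ρ) :
    ∃ (l : ℕ) (a : A), a ∈ F.I n ∧ ρ f₀ ^ l * b = ρ a := by
  letI := ρ.toAlgebra
  have : IsLocalization.Away f₀ B := hloc
  have h1 : b ∈ (F.I n).map (algebraMap A B) := hb
  rw [IsLocalization.mem_map_algebraMap_iff (Submonoid.powers f₀)] at h1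
  obtain ⟨⟨⟨a, ha⟩, ⟨_, l, rfl⟩⟩, h2⟩ := h1
  refine ⟨l, a, ha, ?_⟩
  have h3 : b * ρ (f₀ ^ l) = ρ a := h2
  rw [← h3, map_pow, mul_comm]

include hloc hgen hf₀ in
theorem isLocalization_away {n : ℕ} {x : A} (hx : x ∈ F.I n) (hx0 : x ≠ 0) :
    letI := (Away.map (gHom F G ρ h) (F.mono n x hx)).toAlgebra
    IsLocalization.Away (F.chartHom hx f₀)
      (Away G.grade (gHom F G ρ h (F.mono n x hx))) := by
  letI := (Away.map (gHom F G ρ h) (F.mono n x hx)).toAlgebra
  have hs := F.mono_mem n x hx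
  have hs' := gHom_mem F G ρ h hs
  have hinj := gHom_injective F G ρ f₀ hloc h hf₀
  have hs0 : gHom F G ρ h (F.mono n x hx) ≠ 0 := by
    intro h0
    have h1 : F.mono n x hx = 0 := hinj (h0.trans (map_zero _).symm)
    have h2 := congrArg (fun z : F.rees => (z : A[X])) h1
    change Polynomial.monomial n x = 0 at h2
    rw [Polynomial.monomial_eq_zero_iff] at h2
    exact hx0 h2
  have halg : ∀ z, algebraMap (Away F.grade (F.mono n x hx))
      (Away G.grade (gHom F G ρ h (F.mono n x hx))) z =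
      Away.map (gHom F G ρ h) (F.mono n x hx) z := fun z => rfl
  -- the image of `f₀`
  have hf : Away.map (gHom F G ρ h) (F.mono n x hx) (F.chartHom hx f₀) =
      fromZeroRingHom G.grade (Submonoid.powers (gHom F G ρ h (F.mono n x hx)))
        (G.toZero (ρ f₀)) := by
    apply HomogeneousLocalization.val_injective
    change Localization.mk (gHom F G ρ h (F.toZero f₀ : F.rees)) _ =
      Localization.mk (G.toZero (ρ f₀) : G.rees) _
    congr 1
    · exact gHom_mono F G ρ h 0 f₀ (F.mem_zero f₀)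
    · apply Subtype.ext
      exact map_one (gHom F G ρ h)
  have hunit : IsUnit (ρ f₀) := by
    letI := ρ.toAlgebra
    have : IsLocalization.Away f₀ B := hloc
    exact IsLocalization.Away.algebraMap_isUnit (S := B) f₀
  refine (isLocalization_iff _ _).mpr ⟨?_, ?_, ?_⟩
  · rintro ⟨_, l, rfl⟩
    rw [map_pow, halg, hf]
    refine IsUnit.pow l ?_
    exact (hunit.map G.toZero).map _
  · intro z
    obtain ⟨m, y, hy, rfl⟩ := Away.mk_surjective G.grade hs' z
    have hy2 : ∃ b, Polynomial.monomial (m • n) b = (y : B[X]) := id hy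
    obtain ⟨b, hb⟩ := hy2
    have hbG : b ∈ G.I (m • n) := by
      have := y.2 (m • n)
      rw [← hb, Polynomial.coeff_monomial, if_pos rfl] at this
      exact this
    obtain ⟨l, a, ha, hla⟩ := exists_clear F ρ f₀ hloc (m • n) b (hgen _ hbG)
    have key : Away.mk G.grade hs' m y hy *
        (fromZeroRingHom G.grade (Submonoid.powers (gHom F G ρ h (F.mono n x hx)))
          (G.toZero (ρ f₀))) ^ l =
        Away.map (gHom F G ρ h) (F.mono n x hx)
          (Away.mk F.grade hs m (F.mono (m • n) a ha) (F.mono_mem _ _ _)) := by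
      have e1 : (fromZeroRingHom G.grade (Submonoid.powers (gHom F G ρ h (F.mono n x hx)))
          (G.toZero (ρ f₀))) ^ l =
          fromZeroRingHom G.grade (Submonoid.powers (gHom F G ρ h (F.mono n x hx)))
            (G.toZero (ρ (f₀ ^ l))) := by
        have e2 := map_pow (((fromZeroRingHom G.grade (Submonoid.powers (gHom F G ρ h
          (F.mono n x hx)))).comp G.toZero).comp ρ) f₀ l
        exact e2.symm
      rw [Away.map_mk]
      refine (congrArg (fun t => Away.mk G.grade hs' m y hy * t) e1).trans ?_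
      have e3 : y * (G.toZero (ρ (f₀ ^ l)) : G.rees) =
          gHom F G ρ h (F.mono (m • n) a ha) := by
        apply Subtype.ext
        rw [gHom_mono]
        change (y : B[X]) * Polynomial.monomial 0 (ρ (f₀ ^ l)) =
          Polynomial.monomial (m • n) (ρ a)
        rw [← hb, Polynomial.monomial_mul_monomial, add_zero, ← hla, map_pow, mul_comm b]
      apply HomogeneousLocalization.val_injective
      rw [HomogeneousLocalization.val_mul, Away.val_mk, Away.val_mk]
      change Localization.mk y _ * Localization.mk (G.toZero (ρ (f₀ ^ l)) : G.rees) _ = _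
      rw [Localization.mk_mul, Localization.mk_eq_mk_iff, Localization.r_iff_exists]
      refine ⟨1, ?_⟩
      rw [e3, OneMemClass.coe_one, one_mul, one_mul, Submonoid.coe_mul]
      congr 1
      exact (mul_one _).symm
    refine ⟨(Away.mk F.grade hs m (F.mono (m • n) a ha) (F.mono_mem _ _ _),
      ⟨F.chartHom hx f₀ ^ l, (Submonoid.mem_powers_iff _ _).mpr ⟨l, rfl⟩⟩), ?_⟩
    refine Eq.trans ?_ key
    have e2 := map_pow (Away.map (gHom F G ρ h) (F.mono n x hx)) (F.chartHom hx f₀) l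
    rw [hf] at e2
    exact congrArg (fun t => Away.mk G.grade hs' m y hy * t) e2
  · intro z₁ z₂ hz
    obtain ⟨m₁, y₁, hy₁, rfl⟩ := Away.mk_surjective F.grade hs z₁
    obtain ⟨m₂, y₂, hy₂, rfl⟩ := Away.mk_surjective F.grade hs z₂
    refine ⟨1, ?_⟩
    rw [halg, halg, Away.map_mk, Away.map_mk] at hz
    have h1 := congrArg HomogeneousLocalization.val hz
    rw [Away.val_mk, Away.val_mk, Localization.mk_eq_mk_iff, Localization.r_iff_exists] at h1
    obtain ⟨⟨_, c, rfl⟩, h2⟩ := h1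
    have h3 : (gHom F G ρ h (F.mono n x hx)) ^ m₂ * gHom F G ρ h y₁ =
        (gHom F G ρ h (F.mono n x hx)) ^ m₁ * gHom F G ρ h y₂ :=
      mul_left_cancel₀ (pow_ne_zero c hs0) h2
    rw [← map_pow, ← map_pow, ← map_mul, ← map_mul] at h3
    have h4 := hinj h3
    congr 1
    apply HomogeneousLocalization.val_injective
    rw [Away.val_mk, Away.val_mk, Localization.mk_eq_mk_iff, Localization.r_iff_exists]
    exact ⟨1, by rw [OneMemClass.coe_one, one_mul, one_mul]; exact h4⟩

include hloc hgen hf₀ in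
theorem isOpenImmersion_away {n : ℕ} {x : A} (hx : x ∈ F.I n) (hx0 : x ≠ 0) :
    IsOpenImmersion (Spec.map (CommRingCat.ofHom
      (Away.map (gHom F G ρ h) (F.mono n x hx)))) := by
  letI := (Away.map (gHom F G ρ h) (F.mono n x hx)).toAlgebra
  have h1 : IsLocalization.Away (F.chartHom hx f₀)
      (Away G.grade (gHom F G ρ h (F.mono n x hx))) :=
    isLocalization_away F G ρ f₀ hloc h hgen hf₀ hx hx0
  exact IsOpenImmersion.of_isLocalization (R := Away F.grade (F.mono n x hx))
    (S := Away G.grade (gHom F G ρ h (F.mono n x hx))) (F.chartHom hx f₀)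

include hloc hgen hf₀ in
theorem range_away {n : ℕ} {x : A} (hx : x ∈ F.I n) (hx0 : x ≠ 0) :
    Set.range (Spec.map (CommRingCat.ofHom (Away.map (gHom F G ρ h) (F.mono n x hx)))) =
      {z | F.chartHom hx f₀ ∉ (z : PrimeSpectrum (Away F.grade (F.mono n x hx))).asIdeal} := by
  letI := (Away.map (gHom F G ρ h) (F.mono n x hx)).toAlgebra
  have h1 : IsLocalization.Away (F.chartHom hx f₀)
      (Away G.grade (gHom F G ρ h (F.mono n x hx))) :=
    isLocalization_away F G ρ f₀ hloc h hgen hf₀ hx hx0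
  exact PrimeSpectrum.localization_away_comap_range
    (Away G.grade (gHom F G ρ h (F.mono n x hx))) (F.chartHom hx f₀)

theorem bι_opensRange {C : Type} [CommRing C] (F : IdealFam C) {i : ℕ} (hi : 0 < i) (s : F.rees)
    (hs : s ∈ F.grade i) : (bι F hi s hs).opensRange = Proj.basicOpen F.grade s :=
  Proj.opensRange_awayι _ _ _ _

theorem isPullback_bι {A B : Type} [CommRing A] [CommRing B] (F : IdealFam A)
    (G : IdealFam B) (ρ : A →+* B) (h : ∀ n, ∀ a ∈ F.I n, ρ a ∈ G.I n)
    (hgen : ∀ n, G.I n ≤ (F.I n).map ρ) {i : ℕ} (hi : 0 < i) (s : F.rees)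
    (hs : s ∈ F.grade i) :
    IsPullback (Spec.map (CommRingCat.ofHom (Away.map (gHom F G ρ h) s)))
      (bι G hi (gHom F G ρ h s) (gHom_mem F G ρ h hs)) (bι F hi s hs)
      (blHom F G ρ h hgen) := by
  refine IsOpenImmersion.isPullback _ _ _ _ (bι_blHom F G ρ h hgen hi s hs) ?_
  rw [bι_opensRange, bι_opensRange]
  exact Proj.map_preimage_basicOpen (gHom F G ρ h) (irr_le F G ρ h hgen) s

include hloc hf₀ in
theorem isOpenImmersion_blHom : IsOpenImmersion (blHom F G ρ h hgen) := by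
  refine IsZariskiLocalAtTarget.of_forall_exists_morphismRestrict
    (P := @IsOpenImmersion) fun z => ?_
  obtain ⟨n, hn, a, ha, ha0, hz⟩ := F.exists_mono z
  refine ⟨(bι F hn (F.mono n a ha) (F.mono_mem n a ha)).opensRange, ?_, ?_⟩
  · rw [bι_opensRange]
    exact hz
  · have h1 := isPullback_bι F G ρ h hgen hn (F.mono n a ha) (F.mono_mem n a ha)
    have h2 := isOpenImmersion_away F G ρ f₀ hloc h hgen hf₀ ha ha0
    have h3 : IsOpenImmersion (Limits.pullback.snd (blHom F G ρ h hgen)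
        (bι F hn (F.mono n a ha) (F.mono_mem n a ha))) := by
      have h4 : h1.flip.isoPullback.hom ≫ Limits.pullback.snd (blHom F G ρ h hgen)
        (bι F hn (F.mono n a ha) (F.mono_mem n a ha)) =
          Spec.map (CommRingCat.ofHom (Away.map (gHom F G ρ h) (F.mono n a ha))) := by
        simp
      have h5 : Limits.pullback.snd (blHom F G ρ h hgen)
        (bι F hn (F.mono n a ha) (F.mono_mem n a ha)) = h1.flip.isoPullback.inv ≫
          Spec.map (CommRingCat.ofHom (Away.map (gHom F G ρ h) (F.mono n a ha))) :=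
        (Iso.eq_inv_comp _).2 h4
      rw [h5]
      infer_instance
    exact ((MorphismProperty.arrow_mk_iso_iff @IsOpenImmersion
      (morphismRestrictOpensRange (blHom F G ρ h hgen)
        (bι F hn (F.mono n a ha) (F.mono_mem n a ha))))).2 h3

include hloc hf₀ in
theorem isPullback_blHom : IsPullback G.blMap (blHom F G ρ h hgen)
    (Spec.map (CommRingCat.ofHom ρ)) F.blMap := by
  have h1 := isOpenImmersion_blHom F G ρ f₀ hloc h hgen hf₀
  have h2 : IsOpenImmersion (Spec.map (CommRingCat.ofHom ρ)) := by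
    letI := ρ.toAlgebra
    have : IsLocalization.Away f₀ B := hloc
    exact IsOpenImmersion.of_isLocalization (R := A) (S := B) f₀
  refine IsOpenImmersion.isPullback _ _ _ _ (blHom_blMap F G ρ h hgen) ?_
  have hr : Set.range (Spec.map (CommRingCat.ofHom ρ)) =
      {P | f₀ ∉ (P : PrimeSpectrum A).asIdeal} := by
    letI := ρ.toAlgebra
    have : IsLocalization.Away f₀ B := hloc
    exact PrimeSpectrum.localization_away_comap_range B f₀
  ext z
  constructor
  · intro hz
    have hz1 : F.blMap z ∈ Set.range (Spec.map (CommRingCat.ofHom ρ)) := hz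
    rw [hr] at hz1
    obtain ⟨n, hn, a, ha, ha0, hz2⟩ := F.exists_mono z
    have hz3 : z ∈ (bι F hn (F.mono n a ha) (F.mono_mem n a ha)).opensRange := by
      rw [bι_opensRange]
      exact hz2
    obtain ⟨y, rfl⟩ := hz3
    have h3 : (bι F hn (F.mono n a ha) (F.mono_mem n a ha) ≫ F.blMap) y ∈
        {P | f₀ ∉ (P : PrimeSpectrum A).asIdeal} := hz1
    rw [bι_blMap] at h3
    have h4 : y ∈ Set.range (Spec.map (CommRingCat.ofHom
        (Away.map (gHom F G ρ h) (F.mono n a ha)))) := by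
      rw [range_away F G ρ f₀ hloc h hgen hf₀ ha ha0]
      exact h3
    obtain ⟨w, rfl⟩ := h4
    refine ⟨bι G hn _ (gHom_mem F G ρ h (F.mono_mem n a ha)) w, ?_⟩
    have h5 := bι_blHom F G ρ h hgen hn (F.mono n a ha) (F.mono_mem n a ha)
    exact congrArg (fun t => t w) h5
  · rintro ⟨w, rfl⟩
    refine ⟨G.blMap w, ?_⟩
    exact (congrArg (fun t => t w) (blHom_blMap F G ρ h hgen)).symm

end Loc

end Pool.Agent.LU2G
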