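import Pool.Agent.Lib.LU2G.BlA
import Pool.Agent.Lib.LU1G.Main
import Mathlib.AlgebraicGeometry.Sites.SmallAffineZariski
import Mathlib.AlgebraicGeometry.IdealSheaf.Subscheme

/-!
# LU2G, G10b: the blowing up of an integral scheme in a quasi-coherent ideal sheaf
-/

set_option autoImplicit false

open AlgebraicGeometry CategoryTheory Limits TopologicalSpace

namespace Pool.Agent.LU2G

open Pool.Agent.MP_b525bf_ag
open Pool.Agent.LU1G (powFam powFam_fg)
open Scheme.AffineZariskiSite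

section Blow

variable {X : Scheme.{0}} (𝓘 : X.IdealSheafData)

/-- The powers of the ideal of sections. -/
noncomputable def fam (U : X.AffineZariskiSite) : IdealFam Γ(X, U.1) :=
  powFam (𝓘.ideal ⟨U.1, U.2⟩)

/-- The restriction map. -/
noncomputable def rest {U V : X.AffineZariskiSite} (h : U ≤ V) : Γ(X, V.1) →+* Γ(X, U.1) :=
  (X.presheaf.map (homOfLE (toOpens_mono h)).op).hom

theorem fam_map {U V : X.AffineZariskiSite} (h : U ≤ V) (n : ℕ) :
    ((fam 𝓘 V).I n).map (rest h) = (fam 𝓘 U).I n := by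
  change ((𝓘.ideal ⟨V.1, V.2⟩) ^ n).map (rest h) = (𝓘.ideal ⟨U.1, U.2⟩) ^ n
  rw [Ideal.map_pow]
  congr 1
  exact 𝓘.map_ideal (U := ⟨U.1, U.2⟩) (V := ⟨V.1, V.2⟩) (toOpens_mono h)

theorem fam_mem {U V : X.AffineZariskiSite} (h : U ≤ V) (n : ℕ) (a : Γ(X, V.1))
    (ha : a ∈ (fam 𝓘 V).I n) : rest h a ∈ (fam 𝓘 U).I n := by
  rw [← fam_map 𝓘 h n]
  exact Ideal.mem_map_of_mem _ ha

theorem fam_gen {U V : X.AffineZariskiSite} (h : U ≤ V) (n : ℕ) :
    (fam 𝓘 U).I n ≤ ((fam 𝓘 V).I n).map (rest h) := (fam_map 𝓘 h n).ge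

theorem rest_id {U : X.AffineZariskiSite} (h : U ≤ U) : rest h = RingHom.id Γ(X, U.1) := by
  unfold rest
  have h1 : (homOfLE (toOpens_mono h)).op = 𝟙 (Opposite.op U.1) := rfl
  rw [h1, X.presheaf.map_id]
  rfl

theorem rest_comp {U V W : X.AffineZariskiSite} (h : U ≤ V) (h' : V ≤ W) (h'' : U ≤ W) :
    rest h'' = (rest h).comp (rest h') := by
  unfold rest
  have h1 : (homOfLE (toOpens_mono h'')).op = (homOfLE (toOpens_mono h')).op ≫
    (homOfLE (toOpens_mono h)).op := rfl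
  rw [h1, X.presheaf.map_comp]
  rfl

/-- The diagram of blowing ups. -/
noncomputable def blFunctor : X.AffineZariskiSite ⥤ Scheme.{0} where
  obj U := (fam 𝓘 U).Bl
  map {U V} h := blHom (fam 𝓘 V) (fam 𝓘 U) (rest h.le) (fam_mem 𝓘 h.le) (fam_gen 𝓘 h.le)
  map_id U := by
    have e : rest (𝟙 U : U ⟶ U).le = RingHom.id Γ(X, U.1) := rest_id _
    have h1 : ∀ n, ∀ a ∈ (fam 𝓘 U).I n, RingHom.id Γ(X, U.1) a ∈ (fam 𝓘 U).I n :=
      fun n a ha => ha
    have h2 : ∀ n, (fam 𝓘 U).I n ≤ ((fam 𝓘 U).I n).map (RingHom.id Γ(X, U.1)) :=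
      fun n => (Ideal.map_id _).ge
    rw [blHom_congr (fam 𝓘 U) (fam 𝓘 U) e _ _ h1 h2]
    exact blHom_id (fam 𝓘 U) h1 h2
  map_comp {U V W} f g := by
    have e : rest (f ≫ g).le = (rest f.le).comp (rest g.le) := rest_comp _ _ _
    have h1 : ∀ n, ∀ a ∈ (fam 𝓘 W).I n, ((rest f.le).comp (rest g.le)) a ∈ (fam 𝓘 U).I n :=
      fun n a ha => fam_mem 𝓘 f.le n _ (fam_mem 𝓘 g.le n _ ha)
    have h2 : ∀ n, (fam 𝓘 U).I n ≤
        ((fam 𝓘 W).I n).map ((rest f.le).comp (rest g.le)) := fun n => by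
      rw [← Ideal.map_map, fam_map 𝓘 g.le n]
      exact fam_gen 𝓘 f.le n
    rw [blHom_congr (fam 𝓘 W) (fam 𝓘 U) e _ _ h1 h2]
    exact blHom_comp (fam 𝓘 W) (fam 𝓘 V) (rest g.le) (fam 𝓘 U) (rest f.le) _ _ _ _ h1 h2

/-- The structure morphisms. -/
noncomputable def blTo (U : X.AffineZariskiSite) : (fam 𝓘 U).Bl ⟶ U.1.toScheme :=
  (fam 𝓘 U).blMap ≫ U.2.isoSpec.inv

theorem blTo_ι (U : X.AffineZariskiSite) : blTo 𝓘 U ≫ U.1.ι = (fam 𝓘 U).blMap ≫ U.2.fromSpec := by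
  unfold blTo
  rw [Category.assoc]
  rfl

theorem spec_rest {U V : X.AffineZariskiSite} (h : U ≤ V) :
    Spec.map (CommRingCat.ofHom (rest h)) ≫ V.2.isoSpec.inv =
      U.2.isoSpec.inv ≫ X.homOfLE (toOpens_mono h) := by
  rw [← cancel_mono V.1.ι, Category.assoc, Category.assoc, Scheme.homOfLE_ι]
  exact V.2.map_fromSpec U.2 _

theorem blTo_naturality {U V : X.AffineZariskiSite} (h : U ≤ V) :
    blHom (fam 𝓘 V) (fam 𝓘 U) (rest h) (fam_mem 𝓘 h) (fam_gen 𝓘 h) ≫ blTo 𝓘 V =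
      blTo 𝓘 U ≫ X.homOfLE (toOpens_mono h) := by
  unfold blTo
  rw [← Category.assoc, blHom_blMap, Category.assoc, spec_rest, Category.assoc]

theorem isLocalization_rest {U V : X.AffineZariskiSite} (h : U ≤ V) :
    ∃ f₀ : Γ(X, V.1), (letI := (rest h).toAlgebra; IsLocalization.Away f₀ Γ(X, U.1)) ∧
      X.basicOpen f₀ = U.1 := by
  obtain ⟨f₀, hf₀⟩ := h
  refine ⟨f₀, ?_, hf₀⟩
  letI := (rest (U := U) (V := V) ⟨f₀, hf₀⟩).toAlgebra
  exact V.2.isLocalization_of_eq_basicOpen f₀ (homOfLE (toOpens_mono ⟨f₀, hf₀⟩)) hf₀.symm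

theorem isEmpty_bl {A : Type} [CommRing A] [Subsingleton A] (F : IdealFam A) : IsEmpty F.Bl := by
  have h1 : IsEmpty (Spec (CommRingCat.of A)) := inferInstanceAs (IsEmpty (PrimeSpectrum A))
  exact Function.isEmpty F.blMap

theorem isDomain_sections [IsIntegral X] {U : X.Opens} (hU : (U : Set X).Nonempty) :
    IsDomain Γ(X, U) := by
  have : Nonempty U := ⟨⟨_, hU.some_mem⟩⟩
  infer_instance

theorem subsingleton_sections {U : X.Opens} (hU : ¬ (U : Set X).Nonempty) :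
    Subsingleton Γ(X, U) := by
  have h1 : U = ⊥ := by
    rw [Set.not_nonempty_iff_eq_empty] at hU
    exact SetLike.coe_injective hU
  subst h1
  infer_instance

theorem isPullback_key [IsIntegral X] {U V : X.AffineZariskiSite} (h : U ≤ V) :
    IsPullback (fam 𝓘 U).blMap
      (blHom (fam 𝓘 V) (fam 𝓘 U) (rest h) (fam_mem 𝓘 h) (fam_gen 𝓘 h))
      (Spec.map (CommRingCat.ofHom (rest h))) (fam 𝓘 V).blMap := by
  by_cases hU : (U.1 : Set X).Nonempty
  · have hV : (V.1 : Set X).Nonempty := hU.mono (toOpens_mono h)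
    have := isDomain_sections hU
    have := isDomain_sections hV
    obtain ⟨f₀, h1, h2⟩ := isLocalization_rest h
    have hf₀ : f₀ ≠ 0 := by
      rintro rfl
      rw [Scheme.basicOpen_zero] at h2
      rw [← h2] at hU
      obtain ⟨x, hx⟩ := hU
      exact hx
    exact isPullback_blHom _ _ _ f₀ h1 _ _ hf₀
  · have := subsingleton_sections hU
    have h1 : IsEmpty (Spec (CommRingCat.of Γ(X, U.1))) :=
      inferInstanceAs (IsEmpty (PrimeSpectrum Γ(X, U.1)))
    have h2 : IsEmpty (fam 𝓘 U).Bl := isEmpty_bl _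
    refine IsOpenImmersion.isPullback _ _ _ _ (blHom_blMap _ _ _ _ _) ?_
    ext z
    constructor
    · rintro ⟨w, -⟩
      exact isEmptyElim w
    · rintro ⟨w, -⟩
      exact isEmptyElim w

/-- The squares are cartesian. -/
theorem isPullback_blTo [IsIntegral X] {U V : X.AffineZariskiSite} (h : U ≤ V) :
    IsPullback (blHom (fam 𝓘 V) (fam 𝓘 U) (rest h) (fam_mem 𝓘 h) (fam_gen 𝓘 h)) (blTo 𝓘 U)
      (blTo 𝓘 V) (X.homOfLE (toOpens_mono h)) :=
  (isPullback_key 𝓘 h).flip.paste_vert (IsPullback.of_vert_isIso ⟨spec_rest h⟩)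

/-- The gluing data of the blowing up. -/
noncomputable def blData [IsIntegral X] :
    (Scheme.AffineZariskiSite.directedCover X).RelativeGluingData where
  functor := blFunctor 𝓘
  natTrans :=
    { app := fun U => blTo 𝓘 U
      naturality := fun U V h => blTo_naturality 𝓘 h.le }
  equifibered := fun U V h => isPullback_blTo 𝓘 h.le

instance [IsIntegral X] : ((blData 𝓘).functor ⋙ Scheme.forget).IsLocallyDirected :=
  Scheme.Cover.RelativeGluingData.instIsLocallyDirectedI₀CompFunctorForgetOfIsThin ..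

/-- The blowing up. -/
noncomputable def Blow [IsIntegral X] : Scheme.{0} := (blData 𝓘).glued

/-- The structure morphism of the blowing up. -/
noncomputable def blow [IsIntegral X] : Blow 𝓘 ⟶ X := (blData 𝓘).toBase

/-- The open immersions. -/
noncomputable def blowι [IsIntegral X] (U : X.AffineZariskiSite) : (fam 𝓘 U).Bl ⟶ Blow 𝓘 :=
  colimit.ι (blData 𝓘).functor U

theorem isPullback_blow [IsIntegral X] (U : X.AffineZariskiSite) :
    IsPullback (blTo 𝓘 U) (blowι 𝓘 U) U.1.ι (blow 𝓘) :=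
  (blData 𝓘).isPullback_natTrans_ι_toBase U

instance [IsIntegral X] (U : X.AffineZariskiSite) : IsOpenImmersion (blowι 𝓘 U) :=
  MorphismProperty.of_isPullback (P := @IsOpenImmersion) (isPullback_blow 𝓘 U) inferInstance

theorem blowι_blow [IsIntegral X] (U : X.AffineZariskiSite) :
    blowι 𝓘 U ≫ blow 𝓘 = (fam 𝓘 U).blMap ≫ U.2.fromSpec := by
  rw [← (isPullback_blow 𝓘 U).w, blTo_ι]

theorem blowι_map [IsIntegral X] {U V : X.AffineZariskiSite} (h : U ≤ V) :
    blHom (fam 𝓘 V) (fam 𝓘 U) (rest h) (fam_mem 𝓘 h) (fam_gen 𝓘 h) ≫ blowι 𝓘 V =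
      blowι 𝓘 U :=
  colimit.w (blData 𝓘).functor (homOfLE h)

theorem exists_blowι [IsIntegral X] (y : Blow 𝓘) :
    ∃ (U : X.AffineZariskiSite) (z : (fam 𝓘 U).Bl), blowι 𝓘 U z = y := by
  obtain ⟨U, z, hz⟩ := Scheme.IsLocallyDirected.ι_jointly_surjective (blData 𝓘).functor y
  exact ⟨U, z, hz⟩

end Blow

end Pool.Agent.LU2G
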