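import Pool.Agent.Lib.LU2G.BlS

/-!
# LU2G, G10c: the blowing up of an integral scheme is integral, proper, and an isomorphism outside of
the support
-/

set_option autoImplicit false

open AlgebraicGeometry CategoryTheory Limits TopologicalSpace

namespace Pool.Agent.LU2G

open Pool.Agent.MP_b525bf_ag
open Pool.Agent.LU1G (powFam powFam_fg restrict_eq isIso_restrict_mono isIso_restrict_of_le)
open Scheme.AffineZariskiSite

section Blow

variable {X : Scheme.{0}} (𝓘 : X.IdealSheafData)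

theorem ideal_map {U V : X.AffineZariskiSite} (h : U ≤ V) :
    (𝓘.ideal ⟨V.1, V.2⟩).map (rest h) = 𝓘.ideal ⟨U.1, U.2⟩ :=
  𝓘.map_ideal (U := ⟨U.1, U.2⟩) (V := ⟨V.1, V.2⟩) (toOpens_mono h)

/-- Two nonempty affine open sets have a common nonempty basic open set. -/
theorem exists_common_basic [IsIntegral X] (U V : X.AffineZariskiSite)
    (hU : (U.1 : Set X).Nonempty) (hV : (V.1 : Set X).Nonempty) :
    ∃ W : X.AffineZariskiSite, (W.1 : Set X).Nonempty ∧ W ≤ U ∧ W ≤ V := by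
  obtain ⟨x, hxU, hxV⟩ := nonempty_preirreducible_inter U.1.isOpen V.1.isOpen hU hV
  obtain ⟨f, g, hfg, hxf⟩ := exists_basicOpen_le_affine_inter U.2 V.2 x ⟨hxU, hxV⟩
  exact ⟨U.basicOpen f, ⟨x, hxf⟩, U.basicOpen_le f, ⟨g, hfg.symm⟩⟩

theorem rest_injective [IsIntegral X] {U V : X.AffineZariskiSite} (h : U ≤ V)
    (hU : (U.1 : Set X).Nonempty) : Function.Injective (rest h) := by
  have : Nonempty U.1 := ⟨⟨_, hU.some_mem⟩⟩
  exact map_injective_of_isIntegral X (homOfLE (toOpens_mono h))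

theorem ideal_ne_bot [IsIntegral X] (U V : X.AffineZariskiSite)
    (hU : 𝓘.ideal ⟨U.1, U.2⟩ ≠ ⊥) (hV : (V.1 : Set X).Nonempty) :
    𝓘.ideal ⟨V.1, V.2⟩ ≠ ⊥ := by
  have hUn : (U.1 : Set X).Nonempty := by
    by_contra h
    have := subsingleton_sections h
    exact hU (Subsingleton.elim _ _)
  obtain ⟨W, hW, hWU, hWV⟩ := exists_common_basic U V hUn hV
  intro hbot
  obtain ⟨x, hx, hx0⟩ := Submodule.exists_mem_ne_zero_of_ne_bot hU
  have h1 : rest hWU x ∈ 𝓘.ideal ⟨W.1, W.2⟩ := by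
    rw [← ideal_map 𝓘 hWU]
    exact Ideal.mem_map_of_mem _ hx
  rw [← ideal_map 𝓘 hWV, hbot, Ideal.map_bot] at h1
  exact hx0 (rest_injective hWU hW ((show rest hWU x = 0 from h1).trans (map_zero _).symm))

theorem bl_isIntegral [IsIntegral X] (V : X.AffineZariskiSite) (hV : (V.1 : Set X).Nonempty)
    (h : 𝓘.ideal ⟨V.1, V.2⟩ ≠ ⊥) : IsIntegral (fam 𝓘 V).Bl := by
  obtain ⟨x, hx, hx0⟩ := Submodule.exists_mem_ne_zero_of_ne_bot h
  have := isDomain_sections hV
  refine (fam 𝓘 V).isIntegral_bl (n := 1) one_pos (x := x) ?_ hx0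
  change x ∈ _ ^ 1
  rwa [pow_one]

theorem nonempty_of_bl (V : X.AffineZariskiSite) (z : (fam 𝓘 V).Bl) :
    (V.1 : Set X).Nonempty :=
  ⟨V.1.ι (blTo 𝓘 V z), (blTo 𝓘 V z).2⟩

/-- The blowing up of an integral scheme is integral. -/
theorem blow_isIntegral [IsIntegral X] (U : X.AffineZariskiSite)
    (hU : 𝓘.ideal ⟨U.1, U.2⟩ ≠ ⊥) : IsIntegral (Blow 𝓘) := by
  have hI : ∀ V : X.AffineZariskiSite, (V.1 : Set X).Nonempty → IsIntegral (fam 𝓘 V).Bl :=
    fun V hV => bl_isIntegral 𝓘 V hV (ideal_ne_bot 𝓘 U V hU hV)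
  have hUn : (U.1 : Set X).Nonempty := by
    by_contra h
    have := subsingleton_sections h
    exact hU (Subsingleton.elim _ _)
  have hIU := hI U hUn
  have hr : IsReduced (Blow 𝓘) := by
    have h1 : ∀ V : X.AffineZariskiSite, IsReduced (fam 𝓘 V).Bl := by
      intro V
      by_cases hV : (V.1 : Set X).Nonempty
      · have := hI V hV
        infer_instance
      · have := subsingleton_sections hV
        have h2 : IsEmpty (fam 𝓘 V).Bl := isEmpty_bl _
        exact isReduced_of_isOpenImmersion (blTo 𝓘 V ≫ V.1.ι)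
    have h2 : ∀ i, IsReduced ((blData 𝓘).cover.X i) := h1
    exact IsReduced.of_openCover _ (blData 𝓘).cover
  have key : ∀ (V : X.AffineZariskiSite) (z : (fam 𝓘 V).Bl),
      blowι 𝓘 U (genericPoint (fam 𝓘 U).Bl) ⤳ blowι 𝓘 V z := by
    intro V z
    have hV := nonempty_of_bl 𝓘 V z
    have hIV := hI V hV
    obtain ⟨W, hW, hWU, hWV⟩ := exists_common_basic U V hUn hV
    have := hI W hW
    have h1 : ∀ (T : X.AffineZariskiSite) (hT : IsIntegral (fam 𝓘 T).Bl) (hWT : W ≤ T),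
        blowι 𝓘 T (genericPoint (fam 𝓘 T).Bl) = blowι 𝓘 W (genericPoint (fam 𝓘 W).Bl) := by
      intro T hT hWT
      have h2 : IsOpenImmersion (blHom (fam 𝓘 T) (fam 𝓘 W) (rest hWT) (fam_mem 𝓘 hWT)
          (fam_gen 𝓘 hWT)) :=
        MorphismProperty.of_isPullback (P := @IsOpenImmersion) (isPullback_blTo 𝓘 hWT).flip
          inferInstance
      rw [← blowι_map 𝓘 hWT, Scheme.Hom.comp_apply,
        genericPoint_eq_of_isOpenImmersion (blHom (fam 𝓘 T) (fam 𝓘 W) (rest hWT)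
          (fam_mem 𝓘 hWT) (fam_gen 𝓘 hWT))]
    rw [h1 U hIU hWU, ← h1 V hIV hWV]
    exact (genericPoint_specializes z).map (blowι 𝓘 V).continuous
  have hi : IrreducibleSpace (Blow 𝓘) := by
    have h1 : closure {blowι 𝓘 U (genericPoint (fam 𝓘 U).Bl)} = Set.univ := by
      rw [Set.eq_univ_iff_forall]
      intro y
      obtain ⟨V, z, rfl⟩ := exists_blowι 𝓘 y
      exact specializes_iff_mem_closure.mp (key V z)
    have h2 : IsIrreducible (Set.univ : Set (Blow 𝓘)) := by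
      rw [← h1]
      exact isIrreducible_singleton.closure
    exact { isPreirreducible_univ := h2.2,
            toNonempty := ⟨blowι 𝓘 U (genericPoint (fam 𝓘 U).Bl)⟩ }
  exact isIntegral_of_irreducibleSpace_of_isReduced _

/-- The blowing up is proper. -/
theorem blow_isProper [IsIntegral X] [IsLocallyNoetherian X] : IsProper (blow 𝓘) := by
  refine IsZariskiLocalAtTarget.of_iSup_eq_top (P := @IsProper)
    (fun U : X.affineOpens => U.1) (iSup_affineOpens_eq_top X) ?_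
  intro U
  obtain ⟨e, he, -⟩ := restrict_eq U.1 _ _ _ (isPullback_blow 𝓘 U).flip
  have h1 : IsNoetherianRing Γ(X, U.1) := IsLocallyNoetherian.component_noetherian U
  have h2 : IsProper (fam 𝓘 U).blMap :=
    (fam 𝓘 U).isProper_blMap (powFam_fg _ (IsNoetherian.noetherian _))
  have h3 : IsProper (blTo 𝓘 U) :=
    MorphismProperty.comp_mem (W := @IsProper) _ _ h2 inferInstance
  rw [he]
  exact MorphismProperty.comp_mem (W := @IsProper) _ _ inferInstance h3

theorem isIso_restrict_of_forall {X Y : Scheme.{0}} (f : X ⟶ Y) (W : Y.Opens)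
    (h : ∀ y ∈ W, ∃ U : Y.Opens, y ∈ U ∧ IsIso (f ∣_ U)) : IsIso (f ∣_ W) := by
  apply IsZariskiLocalAtTarget.of_forall_exists_morphismRestrict
    (P := MorphismProperty.isomorphisms Scheme)
  intro x
  obtain ⟨U, hxU, hU⟩ := h (W.ι x) x.2
  refine ⟨W.ι ⁻¹ᵁ U, hxU, ?_⟩
  have h2 : IsIso (f ∣_ (W.ι ''ᵁ (W.ι ⁻¹ᵁ U))) :=
    isIso_restrict_of_le f (W.ι.image_preimage_le _)
  exact ((MorphismProperty.isomorphisms Scheme).arrow_mk_iso_iff
    (morphismRestrictRestrict f W (W.ι ⁻¹ᵁ U))).2 h2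

theorem isIso_blMap_top {A : Type} [CommRing A] [IsDomain A] (F : IdealFam A)
    (h : F.I 1 = ⊤) : IsIso F.blMap := by
  have h1 : IsIso (F.blMap ∣_ (PrimeSpectrum.basicOpen (1 : A))) :=
    F.isIso_restrict one_pos (h ▸ Submodule.mem_top) one_ne_zero
  refine IsZariskiLocalAtTarget.of_forall_exists_morphismRestrict
    (P := MorphismProperty.isomorphisms Scheme) fun x => ⟨PrimeSpectrum.basicOpen (1 : A), ?_, h1⟩
  change (1 : A) ∉ (x : PrimeSpectrum A).asIdeal
  exact (Ideal.ne_top_iff_one _).mp (x : PrimeSpectrum A).isPrime.ne_top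

/-- The blowing up is an isomorphism outside of the support. -/
theorem blow_isIso [IsIntegral X] (W : X.Opens)
    (hW : ∀ x ∈ W, ∃ U : X.AffineZariskiSite, x ∈ U.1 ∧ 𝓘.ideal ⟨U.1, U.2⟩ = ⊤) :
    IsIso (blow 𝓘 ∣_ W) := by
  refine isIso_restrict_of_forall _ _ fun x hx => ?_
  obtain ⟨U, hxU, hU⟩ := hW x hx
  refine ⟨U.1, hxU, ?_⟩
  have := isDomain_sections (X := X) (U := U.1) ⟨x, hxU⟩
  have h1 : IsIso (fam 𝓘 U).blMap := isIso_blMap_top _ (by
    change _ ^ 1 = _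
    rw [pow_one, hU])
  obtain ⟨e, he, -⟩ := restrict_eq U.1 _ _ _ (isPullback_blow 𝓘 U).flip
  rw [he]
  unfold blTo
  infer_instance

end Blow

end Pool.Agent.LU2G
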