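import Pool.Agent.Lib.LU2G.StepAux

/-!
# LU2G: the rank one components of a valuation ring and their Abhyankar defects
-/

set_option autoImplicit false

namespace Pool.Agent.LU2G

open Pool.Agent.LU2

universe u

variable {K : Type u} [Field K]

/-- The component of the valuation ring `V` between `V` and `V₁`, a valuation ring of the residue
field of `V₁`, has Abhyankar defect at most `δ`. -/
def CompLE (k : Type u) [Field k] [Algebra k K] (V V₁ : ValuationSubring K) (δ : ℕ) : Prop :=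
  ∃ (K₁ : Type u) (_ : Field K₁) (_ : Algebra k K₁) (φ : V₁ →+* K₁) (V₂ : ValuationSubring K₁),
    IsRes (k := k) V V₁ φ V₂ ∧ DefLE k V₂ δ

/-- All rank one components of `V` have Abhyankar defect at most `δ`. -/
def AllComp (k : Type u) [Field k] [Algebra k K] (V : ValuationSubring K) (δ : ℕ) : Prop :=
  ∀ V₂ V₁ : ValuationSubring K, V ≤ V₂ → Covers V₂ V₁ → CompLE k V₂ V₁ δ

variable {k : Type u} [Field k] [Algebra k K]

theorem AllComp.of_le {V V₁ : ValuationSubring K} {δ : ℕ} (h : AllComp k V δ) (hle : V ≤ V₁) :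
    AllComp k V₁ δ := fun _ _ h₂ hc => h _ _ (hle.trans h₂) hc

/-- The components of a valuation ring of defect at most `δ` have defect at most `δ`. -/
theorem AllComp.of_defLE {V : ValuationSubring K} (hk : ∀ c : k, algebraMap k K c ∈ V) {δ : ℕ}
    (h : DefLE k V δ) : AllComp k V δ := by
  intro V₂ V₁ h₂ hc
  obtain ⟨K₁, i₁, i₂, φ, W, hres⟩ := exists_isRes (k := k) hc.1.le (fun c => h₂ (hk c))
  obtain ⟨δ₁, δ₂, hδ, hD₁, hD₂⟩ := Pool.Agent.LU2.DefLE.split hres (DefLE.of_le hk h₂ h)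
  exact ⟨K₁, i₁, i₂, φ, W, hres, hD₂.mono (by omega)⟩

theorem covers_of_covBy {V V₁ : ValuationSubring K} (h : V ⋖ V₁) : Covers V V₁ := by
  refine ⟨h.1, fun W h1 h2 => ?_⟩
  rcases h1.eq_or_lt with h3 | h3
  · exact Or.inl h3.symm
  · rcases h2.eq_or_lt with h4 | h4
    · exact Or.inr h4
    · exact absurd h4 (h.2 h3)

theorem Covers.covBy {V V₁ : ValuationSubring K} (h : Covers V V₁) : V ⋖ V₁ := by
  refine ⟨h.1, fun W h1 h2 => ?_⟩
  rcases h.2 W h1.le h2.le with h3 | h3
  · exact h1.ne h3.symm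
  · exact h2.ne h3

end Pool.Agent.LU2G
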