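import Pool.Agent.Lib.LU2G.AllS
import Pool.Agent.Lib.LU2G.Defs
import Pool.Agent.Lib.LU2G.CompOf

/-!
# LU2G, G9: the final theorem
-/

set_option autoImplicit false

open AlgebraicGeometry CategoryTheory

namespace Pool.Agent.LU2G

open Pool.Agent.LU2
open Pool.Agent.LU1G (IsGen cpt incV SmoothAt)

/-- G9: the final theorem. -/
theorem exists_smooth_centres (k : Type) [Field k] [PerfectField k] (hreal : RealCaseR k)
    (X : Scheme.{0}) [IsIntegral X] (f : X ⟶ Spec (CommRingCat.of k))
    [LocallyOfFiniteType f] (m : ℕ) (V : Fin m → ValuationSubring X.functionField)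
    (hV : ∀ i, ComponentDefectsLEOne (consts f) (V i))
    (c : ∀ i, Spec (CommRingCat.of (V i)) ⟶ X)
    (hc : ∀ i, Spec.map (CommRingCat.ofHom (algebraMap (V i) X.functionField)) ≫
      c i = X.fromSpecStalk (genericPoint X)) :
    ∃ (Y : Scheme.{0}) (π : Y ⟶ X), IsIntegral Y ∧ IsProper π ∧
      (∀ W : X.Opens, (∀ (i : Fin m) (V' : ValuationSubring X.functionField) (h : V i ≤ V'),
        V' ≠ ⊤ → (coarser h ≫ c i) (IsLocalRing.closedPoint V') ∈ W →
          IsSmoothAt f ((coarser h ≫ c i) (IsLocalRing.closedPoint V'))) → IsIso (π ∣_ W)) ∧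
      ∀ i, ∃ c' : Spec (CommRingCat.of (V i)) ⟶ Y, c' ≫ π = c i ∧
        IsSmoothAt (π ≫ f) (c' (IsLocalRing.closedPoint (V i))) := by
  letI : Algebra k X.functionField := (consts f).toAlgebra
  have hη : IsGen (K := X.functionField) (X.fromSpecStalk (genericPoint X)) := by
    refine ⟨RingEquiv.refl _, ?_⟩
    have h1 : (CommRingCat.ofHom (RingEquiv.refl X.functionField).toRingHom) =
        𝟙 (CommRingCat.of X.functionField) := rfl
    rw [h1, Spec.map_id]
    exact (Category.id_comp _).symm
  have hηf : X.fromSpecStalk (genericPoint X) ≫ f =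
      Spec.map (CommRingCat.ofHom (algebraMap k X.functionField)) := by
    have h1 : CommRingCat.ofHom (algebraMap k X.functionField) =
        Spec.preimage (X.fromSpecStalk (genericPoint X) ≫ f) := rfl
    rw [h1, Spec.map_preimage]
  have hfin : Algebra.trdeg k X.functionField < Cardinal.aleph0 :=
    trdeg_lt (K := X.functionField) f (X.fromSpecStalk (genericPoint X)) hη hηf
  exact all_steps k X.functionField hreal m X f (X.fromSpecStalk (genericPoint X)) hη hηf V
    (fun i => allComp_of hfin (hV i)) c hc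

end Pool.Agent.LU2G
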