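import Pool.Agent.Lib.LU1G.Setup

/-!
# LU2G, G6c: generic smoothness
-/

set_option autoImplicit false

open AlgebraicGeometry CategoryTheory

namespace Pool.Agent.LU2G

open Pool.Agent.LU1G (SmoothAt)

/-- G6c: an integral scheme locally of finite type over a perfect field is smooth at the generic
point. -/
theorem smoothAt_generic (k : Type) [Field k] [PerfectField k] (X : Scheme.{0}) [IsIntegral X]
    (f : X ⟶ Spec (CommRingCat.of k)) [LocallyOfFiniteType f] :
    SmoothAt f (genericPoint X) := by
  have hfp : LocallyOfFinitePresentation f :=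
    LocallyOfFinitePresentation.iff_locallyOfFiniteType.2 inferInstance
  refine ⟨f.smoothLocus, f.genericPoint_mem_smoothLocus_of_perfectField, ?_⟩
  have h1 : (f.smoothLocus.ι ≫ f).smoothLocus = ⊤ := by
    rw [← Scheme.Hom.preimage_smoothLocus_eq]
    simp
  exact Scheme.Hom.smoothLocus_eq_top_iff.1 h1

end Pool.Agent.LU2G
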