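import Pool.Agent.Lib.LU2G.LocalA
import Pool.Agent.Lib.LU2_h15.Stage3

/-!
# LU2G, G1: the local step

`V ≤ V₁`, `A` regular at the centre of `V₁`, `V / V₁` real: `A` can be made regular at the centre of
`V` by blowing up an ideal whose radical contains the centre of `V`.
-/

set_option autoImplicit false

namespace Pool.Agent.LU2G

open Pool.Agent.LU2

universe u

variable {k K : Type u} [Field k] [Field K] [Algebra k K]

/-- The conclusion of the local step. -/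
def StepAt (V : ValuationSubring K) (A : Subalgebra k K) : Prop :=
  ∃ (A' : Subalgebra k K) (g : K), IsChart V A A' g ∧
    (∃ (n : ℕ) (z : Fin n → K), IsPar V (locV V A') z) ∧
    ∀ c ∈ A, V.valuation c < 1 → ∃ M : ℕ, c ^ M / g ∈ locV V A'

/-- Change of `b` in stage 1. -/
theorem Stage1.mul_b {V V₁ : ValuationSubring K} {A A₁ : Subalgebra k K} {T : Finset K}
    {g₁ b : K} {m : ℕ} {z : Fin m → K} (h : Stage1 V V₁ A A₁ T g₁ z b) {c : K} (hc : c ∈ A₁)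
    (hc1 : V₁.valuation c = 1) : Stage1 V V₁ A A₁ T g₁ z (b * c) where
  fg := h.fg
  le := h.le
  chart := h.chart
  zmem := h.zmem
  zne := h.zne
  zpos := h.zpos
  dim := h.dim
  bmem := A₁.mul_mem h.bmem hc
  bval := by rw [map_mul, h.bval, hc1, one_mul]
  bgen f hf hf1 := by
    obtain ⟨a, ha, he⟩ := h.bgen f hf hf1
    refine ⟨fun i => c * a i, fun i => A₁.mul_mem hc (ha i), ?_⟩
    calc b * c * f = c * (b * f) := by ring
      _ = _ := by
        rw [he, Finset.mul_sum]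
        exact Finset.sum_congr rfl fun i _ => by ring
  mono := h.mono

/-- A finite set of elements of `A` of positive value generating the center up to radical. -/
theorem exists_center_gens {V : ValuationSubring K} (A : Subalgebra k K) (hfg : A.FG)
    (hA : ∀ a ∈ A, a ∈ V) : ∃ C : Finset K, (∀ c ∈ C, c ∈ A ∧ V.valuation c < 1) ∧
      ∀ I : Ideal A, (∀ (c : K) (hc : c ∈ A), c ∈ C → (⟨c, hc⟩ : A) ∈ I) →
        PI V A hA ≤ I := by
  classical
  have hft : Algebra.FiniteType k A := (Subalgebra.fg_iff_finiteType _).1 hfg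
  have hnoe : IsNoetherianRing A := Algebra.FiniteType.isNoetherianRing k A
  obtain ⟨P, hP⟩ := (isNoetherianRing_iff_ideal_fg A).1 hnoe (PI V A hA)
  refine ⟨P.image (fun a : A => (a : K)), ?_, ?_⟩
  · intro c hc
    obtain ⟨a, ha, rfl⟩ := Finset.mem_image.1 hc
    refine ⟨a.2, ?_⟩
    have h1 : a ∈ PI V A hA := by
      rw [← hP]
      exact Ideal.subset_span ha
    exact h1
  · intro I hI
    rw [← hP, Ideal.span_le]
    intro a ha
    exact hI a a.2 (Finset.mem_image_of_mem _ ha)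

/-- G1a: the main case. -/
theorem step_chart {V V₁ : ValuationSubring K} {K₁ : Type u} [Field K₁] [Algebra k K₁]
    {φ : V₁ →+* K₁} {V₂ : ValuationSubring K₁} (hres : IsRes (k := k) V V₁ φ V₂)
    (A : Subalgebra k K) (hfg : A.FG) (hA : ∀ a ∈ A, a ∈ V) {m : ℕ} (z : Fin m → K)
    (hz : IsPar V₁ (locV V₁ A) z) (L : IntermediateField k K₁)
    (hL : L = IntermediateField.adjoin k {c : K₁ | ∃ a : V₁, (a : K) ∈ A ∧ φ a = c})
    (h₂ : LUr k (V₂.comap (algebraMap L K₁)))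
    (hc : ∃ c ∈ A, V.valuation c < 1 ∧ V₁.valuation c = 1) : StepAt V A := by
  classical
  have hle := hres.le
  obtain ⟨c₀, hc₀A, hc₀V, hc₀V₁⟩ := hc
  have hc₀0 : c₀ ≠ 0 := by rintro rfl; simp at hc₀V₁
  obtain ⟨a, b, h1⟩ := stage1_self hle A hfg hA hz
  obtain ⟨C, hC, hCI⟩ := exists_center_gens A hfg hA
  obtain ⟨U, hU⟩ : ∃ U : Finset K, U = insert b (insert c₀ (C.filter fun c =>
    V₁.valuation c = 1)) := ⟨_, rfl⟩
  have hUA : ∀ t ∈ U, t ∈ A ∧ V₁.valuation t = 1 := by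
    intro t ht
    rw [hU, Finset.mem_insert, Finset.mem_insert, Finset.mem_filter] at ht
    rcases ht with rfl | rfl | ⟨ht, h3⟩
    · exact ⟨h1.bmem, h1.bval⟩
    · exact ⟨hc₀A, hc₀V₁⟩
    · exact ⟨(hC t ht).1, h3⟩
  obtain ⟨A₂, g₂, m', z', J, hg₂A, h2, hmono⟩ := exists_stage2J hres A hfg hA L hL h₂ U
    (fun t ht => ⟨t, (hUA t ht).1, 1, A.one_mem, (hUA t ht).2, map_one _, by rw [div_one]⟩)
  have hA12 := h2.chart.le
  have hA₂V := Stage2.le₂ h1 h2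
  have hz'ne := z'_ne h2
  have hg₂0 : g₂ ≠ 0 := h2.chart.2.1
  have hb0 : b ≠ 0 := by
    intro h
    have := h1.bval
    rw [h] at this
    simp at this
  -- the elements we need
  have hXA : ∀ t, (t = g₂ ∨ t ∈ U) → t ∈ A ∧ V₁.valuation t = 1 := by
    rintro t (rfl | ht)
    · exact ⟨hg₂A, h2.gval⟩
    · exact hUA t ht
  have hXV : ∀ t, (t = g₂ ∨ t ∈ U) → V.valuation t ≤ 1 := fun t ht =>
    (V.valuation_le_one_iff _).2 (hA t (hXA t ht).1)
  choose! e w hw hw1 hval hoff hpos hone using hmono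
  have hnonneg : ∀ t, (t = g₂ ∨ t ∈ U) → ∀ j, 0 ≤ e t j := by
    intro t ht j
    rcases (hXV t ht).lt_or_eq with h3 | h3
    · by_cases hj : j ∈ J
      · exact (hpos t ht h3 j hj).le
      · exact (hoff t ht j hj).ge
    · exact (hone t ht h3 j).ge
  have hc₀U : c₀ = g₂ ∨ c₀ ∈ U := Or.inr (by rw [hU]; simp)
  have hbU : b = g₂ ∨ b ∈ U := Or.inr (by rw [hU]; simp)
  have he₀ : ∀ j ∈ J, 1 ≤ e c₀ j := fun j hj => hpos c₀ hc₀U hc₀V j hj
  -- the bound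
  obtain ⟨N, hN1, hN⟩ : ∃ N : ℕ, 1 ≤ N ∧ ∀ t, (t = g₂ ∨ t ∈ U) → ∀ j, e t j ≤ N := by
    refine ⟨1 + (insert g₂ U).sup fun t => Finset.univ.sup fun j => (e t j).toNat, by omega, ?_⟩
    intro t ht j
    have h3 : (e t j).toNat ≤ (insert g₂ U).sup fun t => Finset.univ.sup fun j =>
        (e t j).toNat := by
      refine le_trans ?_ (Finset.le_sup (f := fun t => Finset.univ.sup fun j => (e t j).toNat)
        (Finset.mem_insert.2 ht))
      exact Finset.le_sup (f := fun j => (e t j).toNat) (Finset.mem_univ j)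
    push_cast
    omega
  obtain ⟨S, hS⟩ := exists_S hle h1 h2
  -- the new `b`
  obtain ⟨b', hb'⟩ : ∃ b', b' = b * c₀ ^ N := ⟨_, rfl⟩
  have h1' : Stage1 V V₁ A A (∅ : Finset K) 1 a b' := by
    rw [hb']
    exact Stage1.mul_b h1 (A.pow_mem hc₀A N) (by rw [map_pow, hc₀V₁, one_pow])
  have hS' : ∀ f ∈ A₂, V₁.valuation f < 1 →
      ∃ q : Fin m → K, (∀ i, q i ∈ A₂) ∧ b' * g₂ ^ S * f = ∑ i, q i * a i := by
    intro f hf hf1
    obtain ⟨q, hq, he'⟩ := hS f hf hf1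
    refine ⟨fun i => c₀ ^ N * q i, fun i => A₂.mul_mem (A₂.pow_mem (hA12 hc₀A) _) (hq i), ?_⟩
    calc b' * g₂ ^ S * f = c₀ ^ N * (b * g₂ ^ S * f) := by rw [hb']; ring
      _ = _ := by
        rw [he', Finset.mul_sum]
        exact Finset.sum_congr rfl fun i _ => by ring
  obtain ⟨β, hβ⟩ : ∃ β, β = bet b' g₂ z' S 0 := ⟨_, rfl⟩
  have hβ' : β = b * c₀ ^ N * g₂ ^ S := by
    rw [hβ, bet, pow_zero, mul_one, hb']
  have hchart₃ : IsChart V A₂ (newA A₂ a β) β := by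
    rw [hβ]
    exact isChart_new hle h1' h2 0
  have hpar₃ : IsPar V (locV V (newA A₂ a β)) (newz a z' β) := by
    rw [hβ]
    exact isPar_new hle h1' h2 hS' 0
  have hzβ : ∀ i, V.valuation (a i / β) < 1 := by
    rw [hβ]
    exact zbet_lt hle h1' h2 S 0
  have hzβm : ∀ i, a i / β ∈ newA A₂ a β := fun i => Algebra.subset_adjoin (Or.inr ⟨i, rfl⟩)
  have hA23 : A₂ ≤ newA A₂ a β := fun _ ha => Algebra.subset_adjoin (Or.inl ha)
  have hVn : ∀ f ∈ newA A₂ a β, f ∈ V := hchart₃.mem hA₂V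
  obtain ⟨R₃, hR₃⟩ : ∃ R₃, R₃ = locV V (newA A₂ a β) := ⟨_, rfl⟩
  have hR₃V : ∀ f ∈ R₃, V.valuation f ≤ 1 := by
    intro f hf
    rw [hR₃] at hf
    exact (V.valuation_le_one_iff _).2 (locV_mem hVn f hf)
  have hmono3 : locV V A₂ ≤ R₃ := hR₃ ▸ locV_mono hA23
  have hinv3 : ∀ f ∈ R₃, V.valuation f = 1 → f⁻¹ ∈ R₃ := by
    intro f hf h3
    rw [hR₃] at hf ⊢
    exact locV_inv hf h3
  have hz'3 : ∀ j, z' j ∈ R₃ := fun j => hmono3 (le_locV _ (h2.zmem j))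
  have hpe : ∀ f : Fin m' → ℤ, (∀ j, 0 ≤ f j) → ∏ j, z' j ^ f j ∈ R₃ := fun f hf =>
    prod_zpow_mem R₃ hz'3 hf
  have hpe2 : ∀ f : Fin m' → ℤ, (∀ j, 0 ≤ f j) → ∏ j, z' j ^ f j ∈ A₂ := fun f hf =>
    prod_zpow_mem A₂ h2.zmem hf
  have hp0 : ∀ f : Fin m' → ℤ, (∏ j, z' j ^ f j) ≠ 0 := fun f =>
    Finset.prod_ne_zero_iff.2 fun j _ => zpow_ne_zero _ (hz'ne j)
  -- division by `c₀ ^ N`
  have hdiv : ∀ f ∈ locV V A₂, V₁.valuation f < 1 → ∃ q ∈ R₃, V.valuation q < 1 ∧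
      f = c₀ ^ N * q := by
    rintro f ⟨x, hx, y, hy, hy1, rfl⟩ hf1
    have hy1' : V₁.valuation y = 1 := val_eq_one_of_le hle hy1
    rw [map_div₀, hy1', div_one] at hf1
    have hy0 : y ≠ 0 := by rintro rfl; simp at hy1
    obtain ⟨q, hq, hsum⟩ := hS x hx hf1
    refine ⟨y⁻¹ * ∑ i, q i * (a i / β), ?_, ?_, ?_⟩
    · refine R₃.mul_mem (hinv3 y (hmono3 (le_locV _ hy)) hy1) (R₃.sum_mem fun i _ => ?_)
      exact R₃.mul_mem (hmono3 (le_locV _ (hq i))) (hR₃ ▸ le_locV _ (hzβm i))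
    · rw [map_mul, map_inv₀, hy1, inv_one, one_mul]
      refine Valuation.map_sum_lt _ one_ne_zero fun i _ => ?_
      rw [map_mul]
      exact mul_lt_of_le_one_of_lt ((V.valuation_le_one_iff _).2 (hA₂V _ (hq i))) (hzβ i)
    · have h3 : ∑ i, q i * (a i / β) = (b * g₂ ^ S * x) / β := by
        rw [hsum, Finset.sum_div]
        exact Finset.sum_congr rfl fun i _ => by rw [mul_div_assoc]
      rw [h3, hβ']
      have := pow_ne_zero N hc₀0
      have := pow_ne_zero S hg₂0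
      field_simp
  -- `c₀` is a monomial
  obtain ⟨w₀, hw₀, hw₀1, hc₀e⟩ : ∃ w₀ ∈ R₃, V.valuation w₀ = 1 ∧
      c₀ = (∏ j, z' j ^ e c₀ j) * w₀ := by
    have hmem : c₀ - (∏ j, z' j ^ e c₀ j) * w c₀ ∈ locV V A₂ :=
      Subalgebra.sub_mem _ (le_locV _ (hA12 hc₀A)) (Subalgebra.mul_mem _
        (le_locV _ (hpe2 _ (hnonneg c₀ hc₀U))) (hw c₀ hc₀U))
    obtain ⟨q, hq, hq1, hqe⟩ := hdiv _ hmem (hval c₀ hc₀U)
    have h3 : V.valuation (c₀ ^ (N - 1) * q) < 1 := by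
      rw [map_mul]
      exact mul_lt_of_le_one_of_lt (by
        rw [map_pow]
        exact pow_le_one₀ zero_le hc₀V.le) hq1
    have h4 : V.valuation (1 - c₀ ^ (N - 1) * q) = 1 := by
      exact Valuation.map_one_sub_of_lt _ h3
    have h5 : 1 - c₀ ^ (N - 1) * q ∈ R₃ := R₃.sub_mem R₃.one_mem
      (R₃.mul_mem (R₃.pow_mem (hmono3 (le_locV _ (hA12 hc₀A))) _) hq)
    have h50 : 1 - c₀ ^ (N - 1) * q ≠ 0 := by
      intro h
      rw [h] at h4
      simp at h4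
    refine ⟨w c₀ * (1 - c₀ ^ (N - 1) * q)⁻¹, R₃.mul_mem (hmono3 (hw c₀ hc₀U))
      (hinv3 _ h5 h4), ?_, ?_⟩
    · rw [map_mul, map_inv₀, h4, inv_one, mul_one]
      exact hw1 c₀ hc₀U
    · have h6 : c₀ * (1 - c₀ ^ (N - 1) * q) = (∏ j, z' j ^ e c₀ j) * w c₀ := by
        have h7 : c₀ ^ N = c₀ * c₀ ^ (N - 1) := by
          rw [← pow_succ']
          congr 1
          omega
        have h8 : c₀ * (1 - c₀ ^ (N - 1) * q) = c₀ - c₀ ^ N * q := by rw [h7]; ring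
        rw [h8, ← hqe]
        ring
      rw [← mul_assoc, ← h6, mul_inv_cancel_right₀ h50]
  have hw₀0 : w₀ ≠ 0 := by rintro rfl; simp at hw₀1
  have hc₀N : c₀ ^ N = (∏ j, z' j ^ ((N : ℤ) * e c₀ j)) * w₀ ^ N := by
    have h3 : ∏ j, z' j ^ ((N : ℤ) * e c₀ j) = (∏ j, z' j ^ e c₀ j) ^ N := by
      rw [← Finset.prod_pow]
      refine Finset.prod_congr rfl fun j _ => ?_
      rw [mul_comm, zpow_mul, zpow_natCast]
    rw [h3, ← mul_pow, ← hc₀e]
  -- the other monomials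
  have hmon : ∀ t, (t = g₂ ∨ t ∈ U) → ∃ w' ∈ R₃, V.valuation w' = 1 ∧
      t = (∏ j, z' j ^ e t j) * w' := by
    intro t ht
    have hmem : t - (∏ j, z' j ^ e t j) * w t ∈ locV V A₂ :=
      Subalgebra.sub_mem _ (le_locV _ (hA12 (hXA t ht).1)) (Subalgebra.mul_mem _
        (le_locV _ (hpe2 _ (hnonneg t ht))) (hw t ht))
    obtain ⟨q, hq, hq1, hqe⟩ := hdiv _ hmem (hval t ht)
    have hdiff : ∀ j, 0 ≤ (N : ℤ) * e c₀ j - e t j := by
      intro j
      by_cases hj : j ∈ J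
      · have h3 := he₀ j hj
        have h4 := hN t ht j
        nlinarith
      · rw [hoff c₀ hc₀U j hj, hoff t ht j hj]
        simp
    have hq' : (∏ j, z' j ^ ((N : ℤ) * e c₀ j - e t j)) * w₀ ^ N * q ∈ R₃ :=
      R₃.mul_mem (R₃.mul_mem (hpe _ hdiff) (R₃.pow_mem hw₀ _)) hq
    have hq'1 : V.valuation ((∏ j, z' j ^ ((N : ℤ) * e c₀ j - e t j)) * w₀ ^ N * q) < 1 := by
      rw [map_mul]
      exact mul_lt_of_le_one_of_lt (hR₃V _ (R₃.mul_mem (hpe _ hdiff) (R₃.pow_mem hw₀ _))) hq1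
    refine ⟨w t + (∏ j, z' j ^ ((N : ℤ) * e c₀ j - e t j)) * w₀ ^ N * q,
      R₃.add_mem (hmono3 (hw t ht)) hq', ?_, ?_⟩
    · rw [Valuation.map_add_eq_of_lt_left]
      · exact hw1 t ht
      · rw [hw1 t ht]
        exact hq'1
    · have h3 : t = (∏ j, z' j ^ e t j) * w t + c₀ ^ N * q := by
        rw [← hqe]
        ring
      have h4 : (∏ j, z' j ^ ((N : ℤ) * e c₀ j)) =
          (∏ j, z' j ^ e t j) * ∏ j, z' j ^ ((N : ℤ) * e c₀ j - e t j) := by
        rw [← prod_zpow_add hz'ne]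
        refine Finset.prod_congr rfl fun j _ => ?_
        congr 1
        ring
      nth_rewrite 1 [h3]
      rw [hc₀N, h4]
      ring
  -- the chart over `A`
  obtain ⟨n, hchart⟩ := h2.chart.trans hchart₃
  obtain ⟨wg, hwg, hwg1, hge⟩ := hmon g₂ (Or.inl rfl)
  obtain ⟨wb, hwb, hwb1, hbe⟩ := hmon b hbU
  obtain ⟨E, hE⟩ : ∃ E : Fin m' → ℤ, E = fun j => ((n : ℤ) + S) * e g₂ j + e b j +
    (N : ℤ) * e c₀ j := ⟨_, rfl⟩
  have hEoff : ∀ j, j ∉ J → E j = 0 := by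
    intro j hj
    rw [hE]
    simp only
    rw [hoff g₂ (Or.inl rfl) j hj, hoff b hbU j hj, hoff c₀ hc₀U j hj]
    ring
  obtain ⟨W, hW, hW1, hgW⟩ : ∃ W ∈ R₃, V.valuation W = 1 ∧
      g₂ ^ n * β = (∏ j, z' j ^ E j) * W := by
    refine ⟨wg ^ (n + S) * wb * w₀ ^ N, R₃.mul_mem (R₃.mul_mem (R₃.pow_mem hwg _) hwb)
      (R₃.pow_mem hw₀ _), by rw [map_mul, map_mul, map_pow, map_pow, hwg1, hwb1, hw₀1]; simp, ?_⟩
    have h3 : (∏ j, z' j ^ E j) = (∏ j, z' j ^ e g₂ j) ^ (n + S) * (∏ j, z' j ^ e b j) *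
        ∏ j, z' j ^ ((N : ℤ) * e c₀ j) := by
      rw [← Finset.prod_pow, ← Finset.prod_mul_distrib, ← Finset.prod_mul_distrib]
      refine Finset.prod_congr rfl fun j _ => ?_
      rw [hE]
      simp only
      rw [zpow_add₀ (hz'ne j), zpow_add₀ (hz'ne j), mul_comm ((n : ℤ) + S), zpow_mul]
      congr 2
      exact_mod_cast zpow_natCast (z' j ^ e g₂ j) (n + S)
    calc g₂ ^ n * β = g₂ ^ (n + S) * b * c₀ ^ N := by rw [hβ', pow_add]; ring
      _ = ((∏ j, z' j ^ e g₂ j) * wg) ^ (n + S) * ((∏ j, z' j ^ e b j) * wb) *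
          ((∏ j, z' j ^ ((N : ℤ) * e c₀ j)) * w₀ ^ N) := by rw [← hge, ← hbe, ← hc₀N]
      _ = _ := by rw [h3, mul_pow]; ring
  have hW0 : W ≠ 0 := by rintro rfl; simp at hW1
  -- division of the elements of `C`
  have hmain : ∀ t, (t = g₂ ∨ t ∈ U) → V.valuation t < 1 →
      ∃ M : ℕ, t ^ M / (g₂ ^ n * β) ∈ R₃ := by
    intro t ht htV
    obtain ⟨w', hw', hw'1, hte⟩ := hmon t ht
    obtain ⟨M, hM⟩ : ∃ M : ℕ, ∀ j, E j ≤ M := by
      refine ⟨Finset.univ.sup fun j => (E j).toNat, fun j => ?_⟩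
      have := Finset.le_sup (f := fun j => (E j).toNat) (Finset.mem_univ j)
      omega
    refine ⟨M, ?_⟩
    have hdiff : ∀ j, 0 ≤ (M : ℤ) * e t j - E j := by
      intro j
      by_cases hj : j ∈ J
      · have h3 : 1 ≤ e t j := hpos t ht htV j hj
        have h4 := hM j
        nlinarith
      · rw [hoff t ht j hj, hEoff j hj]
        simp
    have h3 : t ^ M / (g₂ ^ n * β) = (∏ j, z' j ^ ((M : ℤ) * e t j - E j)) * w' ^ M * W⁻¹ := by
      have h4 : t ^ M = (∏ j, z' j ^ ((M : ℤ) * e t j)) * w' ^ M := by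
        have h5 : ∏ j, z' j ^ ((M : ℤ) * e t j) = (∏ j, z' j ^ e t j) ^ M := by
          rw [← Finset.prod_pow]
          refine Finset.prod_congr rfl fun j _ => ?_
          rw [mul_comm, zpow_mul, zpow_natCast]
        rw [h5, ← mul_pow, ← hte]
      have h6 : (∏ j, z' j ^ ((M : ℤ) * e t j)) =
          (∏ j, z' j ^ E j) * ∏ j, z' j ^ ((M : ℤ) * e t j - E j) := by
        rw [← prod_zpow_add hz'ne]
        refine Finset.prod_congr rfl fun j _ => ?_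
        congr 1
        ring
      rw [h4, hgW, h6]
      have := hp0 E
      field_simp
    rw [h3]
    exact R₃.mul_mem (R₃.mul_mem (hpe _ hdiff) (R₃.pow_mem hw' _)) (hinv3 W hW hW1)
  -- the radical
  have hA3 : A ≤ R₃ := fun x hx => hmono3 (le_locV _ (hA12 hx))
  let Ig : Ideal A :=
    { carrier := {x | (x : K) / (g₂ ^ n * β) ∈ R₃}
      zero_mem' := by
        change (0 : K) / _ ∈ R₃
        rw [zero_div]
        exact R₃.zero_mem
      add_mem' := by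
        intro x y hx hy
        change ((x : K) + y) / _ ∈ R₃
        rw [add_div]
        exact R₃.add_mem hx hy
      smul_mem' := by
        intro c x hx
        change ((c : K) * x) / _ ∈ R₃
        rw [mul_div_assoc]
        exact R₃.mul_mem (hA3 c.2) hx }
  have hrad : PI V A hA ≤ Ig.radical := by
    refine hCI _ fun c hcA hcC => ?_
    have hcV := (hC c hcC).2
    by_cases h3 : V₁.valuation c = 1
    · obtain ⟨M, hM⟩ := hmain c (Or.inr (by rw [hU]; simp [hcC, h3])) hcV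
      refine ⟨M, ?_⟩
      change ((⟨c, hcA⟩ ^ M : A) : K) / _ ∈ R₃
      push_cast
      exact hM
    · have h4 : V₁.valuation c < 1 :=
        lt_of_le_of_ne ((V₁.valuation_le_one_iff _).2 (hle (hA c hcA))) h3
      obtain ⟨q, hq, hq1, hqe⟩ := hdiv c (le_locV _ (hA12 hcA)) h4
      obtain ⟨M, hM⟩ := hmain c₀ hc₀U hc₀V
      refine ⟨M, ?_⟩
      change ((⟨c, hcA⟩ ^ M : A) : K) / _ ∈ R₃
      push_cast
      have h5 : c = c₀ * (c₀ ^ (N - 1) * q) := by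
        have h7 : c₀ ^ N = c₀ * c₀ ^ (N - 1) := by
          rw [← pow_succ']
          congr 1
          omega
        rw [hqe, h7]
        ring
      rw [h5, mul_pow, mul_div_right_comm]
      exact R₃.mul_mem hM (R₃.pow_mem (R₃.mul_mem (R₃.pow_mem (hA3 hc₀A) _) hq) _)
  refine ⟨newA A₂ a β, g₂ ^ n * β, hchart, ⟨_, _, hpar₃⟩, ?_⟩
  intro c hcA hcV
  have h3 : (⟨c, hcA⟩ : A) ∈ PI V A hA := hcV
  obtain ⟨M, hM⟩ := hrad h3
  refine ⟨M, ?_⟩
  rw [← hR₃]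
  have h4 : ((⟨c, hcA⟩ ^ M : A) : K) / (g₂ ^ n * β) ∈ R₃ := hM
  push_cast at h4
  exact h4

end Pool.Agent.LU2G
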