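import Pool.Agent.Lib.LU2G.Real
import Pool.Agent.Lib.LU2_h15.Stage2
import Pool.Agent.Lib.LU2_h15.Stage1

/-!
# LU2G, G1: stage 2 with control of the supports, stage 1 without blowing up
-/

set_option autoImplicit false

namespace Pool.Agent.LU2G

open Pool.Agent.LU2
open Pool.Agent.LU2.Stage2Aux

universe u

variable {k K : Type u} [Field k] [Field K] [Algebra k K]

theorem SMono.toMono {V : ValuationSubring K} {R : Subalgebra k K} {n : ℕ} {z : Fin n → K}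
    {J : Finset (Fin n)} {t : K} (h : SMono V R z J t) : Mono V R z t := by
  obtain ⟨e, w, hw, hw1, ht, hoff, hpos, hneg, hone⟩ := h
  refine ⟨e, w, hw, hw1, ht, fun hv i => ?_, fun hv i => ?_⟩
  · rcases hv.lt_or_eq with hv | hv
    · by_cases hi : i ∈ J
      · exact (hpos hv i hi).le
      · exact (hoff i hi).ge
    · exact (hone hv i).ge
  · rcases hv.lt_or_eq with hv | hv
    · by_cases hi : i ∈ J
      · exact (hneg hv i hi).le
      · exact (hoff i hi).le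
    · exact (hone hv.symm i).le

/-- Approximate monomials with control of the supports. -/
def AMono (V V₁ : ValuationSubring K) (R : Subalgebra k K) {m : ℕ} (z : Fin m → K)
    (J : Finset (Fin m)) (t : K) : Prop :=
  ∃ e : Fin m → ℤ, ∃ w ∈ R, V.valuation w = 1 ∧
    V₁.valuation (t - (∏ j, z j ^ e j) * w) < 1 ∧ (∀ i, i ∉ J → e i = 0) ∧
    (V.valuation t < 1 → ∀ i ∈ J, 0 < e i) ∧ (V.valuation t = 1 → ∀ i, e i = 0)

/-- Stage 2 with control of the supports. -/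
theorem exists_stage2J {V V₁ : ValuationSubring K} {K₁ : Type u} [Field K₁] [Algebra k K₁]
    {φ : V₁ →+* K₁} {V₂ : ValuationSubring K₁} (hres : IsRes (k := k) V V₁ φ V₂)
    (A₁ : Subalgebra k K) (hfg : A₁.FG) (hA : ∀ a ∈ A₁, a ∈ V)
    (L : IntermediateField k K₁)
    (hL : L = IntermediateField.adjoin k {c : K₁ | ∃ a : V₁, (a : K) ∈ A₁ ∧ φ a = c})
    (h₂ : LUr k (V₂.comap (algebraMap L K₁))) (U : Finset K)
    (hU : ∀ t ∈ U, ∃ c ∈ A₁, ∃ d ∈ A₁, V₁.valuation c = 1 ∧ V₁.valuation d = 1 ∧ t = c / d) :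
    ∃ (A₂ : Subalgebra k K) (g₂ : K) (m : ℕ) (z : Fin m → K) (J : Finset (Fin m)), g₂ ∈ A₁ ∧
      Stage2 V V₁ A₁ A₂ U g₂ z ∧ ∀ t, (t = g₂ ∨ t ∈ U) → AMono V V₁ (locV V A₂) z J t := by
  classical
  have hsurj := hres.surj
  -- the reduction of `A₁`
  have hmemL : ∀ a : K, ∀ ha : a ∈ A₁, φ ⟨a, hres.le (hA a ha)⟩ ∈ L := by
    intro a ha
    rw [hL]
    exact IntermediateField.subset_adjoin _ _ ⟨⟨a, hres.le (hA a ha)⟩, ha, rfl⟩
  let ψ : A₁ →ₐ[k] L :=
    { toFun := fun a => ⟨φ ⟨a, hres.le (hA a a.2)⟩, hmemL a a.2⟩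
      map_one' := Subtype.ext (map_one φ)
      map_mul' := fun x y => Subtype.ext (map_mul φ ⟨x, hres.le (hA x x.2)⟩
        ⟨y, hres.le (hA y y.2)⟩)
      map_zero' := Subtype.ext (map_zero φ)
      map_add' := fun x y => Subtype.ext (map_add φ ⟨x, hres.le (hA x x.2)⟩
        ⟨y, hres.le (hA y y.2)⟩)
      commutes' := fun c => Subtype.ext (hres.map_const c _) }
  have hψ : ∀ a : A₁, Rel φ L (a : K) (ψ a) := fun a => ⟨hres.le (hA a a.2), rfl⟩
  set B : Subalgebra k L := ψ.range with hB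
  have hcorr : Corr φ L A₁ B := by
    constructor
    · intro f hf
      exact ⟨ψ ⟨f, hf⟩, ⟨⟨f, hf⟩, rfl⟩, hψ ⟨f, hf⟩⟩
    · rintro c ⟨a, rfl⟩
      exact ⟨a, a.2, hψ a⟩
  have hBfg : B.FG := by
    have h1 : (⊤ : Subalgebra k A₁).FG := (Subalgebra.fg_top A₁).2 hfg
    have h2 := h1.map ψ
    rwa [Algebra.map_top] at h2
  have hBV : ∀ c ∈ B, c ∈ V₂.comap (algebraMap L K₁) := by
    intro c hc
    obtain ⟨f, hf, h1⟩ := hcorr.bwd c hc
    exact (h1.mem hres).1 (hA f hf)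
  have hfrac : IsFrac B := by
    intro f
    have hf : (f : K₁) ∈ IntermediateField.adjoin k
        {c : K₁ | ∃ a : V₁, (a : K) ∈ A₁ ∧ φ a = c} := le_of_eq hL f.2
    rw [IntermediateField.mem_adjoin_iff_div] at hf
    obtain ⟨r, hr, s, hs, hrs⟩ := hf
    have key : ∀ x ∈ Algebra.adjoin k {c : K₁ | ∃ a : V₁, (a : K) ∈ A₁ ∧ φ a = c},
        ∃ c ∈ B, (c : K₁) = x := by
      intro x hx
      induction hx using Algebra.adjoin_induction with
      | mem x hx =>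
        obtain ⟨a, ha, rfl⟩ := hx
        exact ⟨ψ ⟨a, ha⟩, ⟨⟨a, ha⟩, rfl⟩, rfl⟩
      | algebraMap r => exact ⟨algebraMap k L r, B.algebraMap_mem r, rfl⟩
      | add x y _ _ hx hy =>
        obtain ⟨c, hc, rfl⟩ := hx
        obtain ⟨d, hd, rfl⟩ := hy
        exact ⟨c + d, B.add_mem hc hd, rfl⟩
      | mul x y _ _ hx hy =>
        obtain ⟨c, hc, rfl⟩ := hx
        obtain ⟨d, hd, rfl⟩ := hy
        exact ⟨c * d, B.mul_mem hc hd, rfl⟩
    obtain ⟨c, hc, h1⟩ := key r hr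
    obtain ⟨d, hd, h2⟩ := key s hs
    by_cases hd0 : d = 0
    · refine ⟨0, B.zero_mem, 1, B.one_mem, one_ne_zero, ?_⟩
      apply Subtype.ext
      rw [hrs, ← h2, hd0]
      simp
    · refine ⟨c, hc, d, hd, hd0, ?_⟩
      apply Subtype.ext
      rw [hrs, ← h1, ← h2]
      rfl
  -- reductions of the elements of `U`
  have hUred : ∀ t ∈ U, ∃ τ : L, τ ≠ 0 ∧ Rel φ L t τ := by
    intro t ht
    obtain ⟨c, hc, d, hd, hc1, hd1, rfl⟩ := hU t ht
    have hc0 : ψ ⟨c, hc⟩ ≠ 0 := by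
      intro h
      exact absurd (((hψ ⟨c, hc⟩).lt_one hsurj).2 h) (by rw [hc1]; exact lt_irrefl _)
    have hd0 : ψ ⟨d, hd⟩ ≠ 0 := by
      intro h
      exact absurd (((hψ ⟨d, hd⟩).lt_one hsurj).2 h) (by rw [hd1]; exact lt_irrefl _)
    exact ⟨ψ ⟨c, hc⟩ / ψ ⟨d, hd⟩, div_ne_zero hc0 hd0, (hψ ⟨c, hc⟩).div hsurj (hψ ⟨d, hd⟩) hd0⟩
  choose! red hred0 hred using hUred
  obtain ⟨B', γ, ⟨hγB, hγ0, G, hG, hB'⟩, n, ζ, J, hpar, hmγ, hmt⟩ :=
    h₂ B hBfg hBV hfrac (U.image red) (by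
      intro t ht
      obtain ⟨s, hs, rfl⟩ := Finset.mem_image.1 ht
      exact hred0 s hs)
  obtain ⟨g₂, hg₂, hrg⟩ := hcorr.bwd γ hγB
  have hg₂0 : g₂ ≠ 0 := hrg.ne_zero hγ0
  have hg₂1 : V₁.valuation g₂ = 1 := hrg.eq_one hsurj hγ0
  have hGl : ∀ x ∈ G, ∃ f ∈ A₁, Rel φ L f x := fun x hx => hcorr.bwd x (hG x hx).1
  choose! lft hlft1 hlft2 using hGl
  -- the chart
  set A₂ : Subalgebra k K :=
    Algebra.adjoin k ((A₁ : Set K) ∪ (fun x => x / g₂) '' ((G.image lft : Finset K) : Set K))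
    with hA₂
  have hchart : IsChart V A₁ A₂ g₂ := by
    refine ⟨hg₂, hg₂0, G.image lft, ?_, rfl⟩
    intro x hx
    obtain ⟨y, hy, rfl⟩ := Finset.mem_image.1 hx
    refine ⟨hlft1 y hy, ?_⟩
    have h1 : Rel φ L (lft y / g₂) (y / γ) := (hlft2 y hy).div hsurj hrg hγ0
    have h2 : (V₂.comap (algebraMap L K₁)).valuation (y / γ) ≤ 1 := by
      rw [map_div₀]
      exact div_le_one_of_le₀ (hG y hy).2 zero_le
    have h3 := (h1.val_le hres).2 h2
    rw [map_div₀] at h3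
    have h4 : 0 < V.valuation g₂ := by rwa [Valuation.pos_iff]
    exact (div_le_one₀ h4).1 h3
  have hcorr₂ : Corr φ L A₂ B' := by
    rw [hA₂, hB']
    refine hcorr.adjoin hres _ _ ?_ ?_
    · rintro _ ⟨x, hx, rfl⟩
      obtain ⟨y, hy, rfl⟩ := Finset.mem_image.1 (Finset.mem_coe.1 hx)
      exact ⟨y / γ, ⟨y, hy, rfl⟩, (hlft2 y hy).div hsurj hrg hγ0⟩
    · rintro _ ⟨y, hy, rfl⟩
      exact ⟨lft y / g₂, ⟨lft y, Finset.mem_coe.2 (Finset.mem_image_of_mem _ hy), rfl⟩,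
        (hlft2 y hy).div hsurj hrg hγ0⟩
  have hA₂V : ∀ a ∈ A₂, a ∈ V := hchart.mem hA
  have hcorrR := hcorr₂.locV hres
  -- the parameters
  have hζ : ∀ j, ∃ α ∈ B', ∃ β ∈ B', (V₂.comap (algebraMap L K₁)).valuation β = 1 ∧
      ζ j = α / β := fun j => hpar.mem j
  choose α hα β hβ hβ1 hζ using hζ
  have hβ0 : ∀ j, β j ≠ 0 := fun j h => by
    have := hβ1 j
    rw [h] at this
    simp at this
  have hα0 : ∀ j, α j ≠ 0 := fun j h => hpar.ne j (by rw [hζ j, h, zero_div])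
  have hβR : ∀ j, β j ∈ locV (V₂.comap (algebraMap L K₁)) B' := fun j => le_locV B' (hβ j)
  have hβR' : ∀ j, (β j)⁻¹ ∈ locV (V₂.comap (algebraMap L K₁)) B' := fun j =>
    locV_inv (hβR j) (hβ1 j)
  have hαpos : ∀ j, (V₂.comap (algebraMap L K₁)).valuation (α j) < 1 := fun j => by
    have h1 := hpar.pos j
    rwa [hζ j, map_div₀, hβ1 j, div_one] at h1
  have hz : ∀ j, ∃ f ∈ A₂, Rel φ L f (α j) := fun j => hcorr₂.bwd _ (hα j)
  choose z hz hzr using hz
  -- monomials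
  have key : ∀ t : K, ∀ τ : L, Rel φ L t τ →
      SMono (V₂.comap (algebraMap L K₁)) (locV (V₂.comap (algebraMap L K₁)) B') ζ J τ →
      ∃ e : Fin n → ℤ, ∃ w ∈ locV V A₂, V.valuation w = 1 ∧
        V₁.valuation (t - (∏ j, z j ^ e j) * w) < 1 ∧ (∀ i, i ∉ J → e i = 0) ∧
        (V.valuation t < 1 → ∀ j ∈ J, 0 < e j) ∧ (1 < V.valuation t → ∀ j ∈ J, e j < 0) ∧
        (V.valuation t = 1 → ∀ j, e j = 0) := by
    intro t τ hr hm
    obtain ⟨e, w, hw, hw1, hτ, hoff, hpos, hneg, hone⟩ := hm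
    have hunit : ∀ j, (β j) ^ (-e j) ∈ locV (V₂.comap (algebraMap L K₁)) B' := by
      intro j
      obtain ⟨m, hm | hm⟩ := (-e j).eq_nat_or_neg
      · rw [hm, zpow_natCast]
        exact Subalgebra.pow_mem _ (hβR j) m
      · rw [hm, zpow_neg, zpow_natCast, ← inv_pow]
        exact Subalgebra.pow_mem _ (hβR' j) m
    have hw' : w * ∏ j, (β j) ^ (-e j) ∈ locV (V₂.comap (algebraMap L K₁)) B' :=
      Subalgebra.mul_mem _ hw (Subalgebra.prod_mem _ fun j _ => hunit j)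
    have hw'1 : (V₂.comap (algebraMap L K₁)).valuation (w * ∏ j, (β j) ^ (-e j)) = 1 := by
      rw [map_mul, hw1, one_mul, map_prod]
      refine Finset.prod_eq_one fun j _ => ?_
      rw [map_zpow₀, hβ1 j, one_zpow]
    obtain ⟨w', hw'm, hrw⟩ := hcorrR.bwd _ hw'
    refine ⟨e, w', hw'm, (hrw.val_eq hres).2 hw'1, ?_, hoff,
      fun h => hpos ((hr.val_lt hres).1 h), fun h => hneg ?_,
      fun h => hone ((hr.val_eq hres).1 h)⟩
    · rw [(hr.sub ((Rel.prod Finset.univ fun j _ => (hzr j).zpow hsurj (hα0 j) (e j)).mul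
        hrw)).lt_one hsurj, sub_eq_zero, hτ, mul_comm w, ← mul_assoc, ← Finset.prod_mul_distrib]
      congr 1
      refine Finset.prod_congr rfl fun j _ => ?_
      rw [hζ j, div_zpow, zpow_neg, div_eq_mul_inv]
    · rw [← not_le] at h ⊢
      exact fun h' => h ((hr.val_le hres).2 h')
  have key' : ∀ t, (t = g₂ ∨ t ∈ U) → ∃ e : Fin n → ℤ, ∃ w ∈ locV V A₂, V.valuation w = 1 ∧
        V₁.valuation (t - (∏ j, z j ^ e j) * w) < 1 ∧ (∀ i, i ∉ J → e i = 0) ∧
        (V.valuation t < 1 → ∀ j ∈ J, 0 < e j) ∧ (1 < V.valuation t → ∀ j ∈ J, e j < 0) ∧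
        (V.valuation t = 1 → ∀ j, e j = 0) := by
    rintro t (rfl | ht)
    · exact key _ γ hrg hmγ
    · exact key t (red t) (hred t ht) (hmt _ (Finset.mem_image_of_mem _ ht))
  refine ⟨A₂, g₂, n, z, J, hg₂, ⟨hchart, hg₂1, hz, fun j => (hzr j).eq_one hsurj (hα0 j),
    fun j => ((hzr j).val_lt hres).2 (hαpos j), ?_, ?_, ?_⟩, ?_⟩
  · -- generation
    intro f hf hf1
    obtain ⟨c, hc, h1⟩ := hcorr₂.fwd f hf
    obtain ⟨a, ha, hsum⟩ := hpar.gen c (le_locV B' hc) ((h1.val_lt hres).1 hf1)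
    have hlift : ∀ j, ∃ f ∈ locV V A₂, Rel φ L f (a j * (β j)⁻¹) := fun j =>
      hcorrR.bwd _ (Subalgebra.mul_mem _ (ha j) (hβR' j))
    choose a' ha' hra' using hlift
    refine ⟨a', ha', ?_⟩
    rw [(h1.sub (Rel.sum Finset.univ fun j _ => (hra' j).mul (hzr j))).lt_one hsurj, sub_eq_zero,
      hsum]
    refine Finset.sum_congr rfl fun j _ => ?_
    rw [hζ j]
    ring
  · -- dimension
    have hR : ∀ f ∈ locV V A₂, f ∈ V₁ := fun f hf => hres.le (locV_mem hA₂V f hf)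
    refine ⟨hR, ?_⟩
    rw [hcorrR.dim hres hR]
    exact hpar.dim
  · intro t ht
    obtain ⟨e, w, hw, hw1, hv, hoff, hpos, hneg, hone⟩ := key' t ht
    refine ⟨e, w, hw, hw1, hv, fun hv i => ?_, fun hv i => ?_⟩
    · rcases hv.lt_or_eq with hv | hv
      · by_cases hi : i ∈ J
        · exact (hpos hv i hi).le
        · exact (hoff i hi).ge
      · exact (hone hv i).ge
    · rcases hv.lt_or_eq with hv | hv
      · by_cases hi : i ∈ J
        · exact (hneg hv i hi).le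
        · exact (hoff i hi).le
      · exact (hone hv.symm i).le
  · intro t ht
    obtain ⟨e, w, hw, hw1, hv, hoff, hpos, hneg, hone⟩ := key' t ht
    exact ⟨e, w, hw, hw1, hv, hoff, hpos, hone⟩

/-- Stage 1 without blowing up, if the local ring at the center of `V₁` is regular. -/
theorem stage1_self {V V₁ : ValuationSubring K} (hle : V ≤ V₁) (A : Subalgebra k K)
    (hfg : A.FG) (hA : ∀ a ∈ A, a ∈ V) {m : ℕ} {z : Fin m → K}
    (hpar : IsPar V₁ (locV V₁ A) z) :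
    ∃ (a : Fin m → K) (b : K), Stage1 V V₁ A A (∅ : Finset K) 1 a b := by
  classical
  have hA₁V₁ : ∀ a ∈ A, a ∈ V₁ := fun a ha => hle (hA a ha)
  -- the parameters
  have hz1 := hpar.mem
  choose a ha d hd hd1 hzad using hz1
  have hd0 : ∀ i, d i ≠ 0 := by
    intro i h
    have := hd1 i
    rw [h] at this
    simp at this
  have hza : ∀ i, a i = z i * d i := by
    intro i
    rw [hzad i, div_mul_cancel₀ _ (hd0 i)]
  -- the ideal of positive value
  have hft : Algebra.FiniteType k A := (Subalgebra.fg_iff_finiteType _).1 hfg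
  have hnoe : IsNoetherianRing A := Algebra.FiniteType.isNoetherianRing k A
  obtain ⟨P, hP⟩ := (isNoetherianRing_iff_ideal_fg A).1 hnoe (PI V₁ A hA₁V₁)
  have hPpos : ∀ f ∈ P, V₁.valuation (f : K) < 1 := by
    intro f hf
    have h1 : f ∈ PI V₁ A hA₁V₁ := by
      rw [← hP]
      exact Ideal.subset_span hf
    exact h1
  have hex : ∀ f : A, ∃ q : Fin m → K, f ∈ P → (∀ i, q i ∈ locV V₁ A) ∧
      (f : K) = ∑ i, q i * a i := by
    intro f
    by_cases hf : f ∈ P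
    · obtain ⟨q, hq, hqf⟩ := hpar.gen (f : K) (le_locV A f.2) (hPpos f hf)
      refine ⟨fun i => q i * (d i)⁻¹, fun _ => ⟨fun i => ?_, ?_⟩⟩
      · exact (locV V₁ A).mul_mem (hq i) (locV_inv (le_locV A (hd i)) (hd1 i))
      · rw [hqf]
        refine Finset.sum_congr rfl fun i _ => ?_
        rw [hza i]
        have := hd0 i
        field_simp
    · exact ⟨fun _ => 0, fun h => absurd h hf⟩
  choose q hq using hex
  obtain ⟨b, hb, hb1, hbF⟩ := C2.exists_den (V₁ := V₁) (S := A)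
    (P.biUnion fun f => Finset.univ.image (q f)) (by
      intro x hx
      obtain ⟨f, hf, hx⟩ := Finset.mem_biUnion.1 hx
      obtain ⟨i, -, rfl⟩ := Finset.mem_image.1 hx
      exact (hq f hf).1 i)
  have hbq : ∀ f ∈ P, ∀ i, b * q f i ∈ A := fun f hf i =>
    hbF _ (Finset.mem_biUnion.2 ⟨f, hf, Finset.mem_image_of_mem _ (Finset.mem_univ i)⟩)
  have hbgen : ∀ f : A, f ∈ Ideal.span (P : Set A) →
      ∃ a' : Fin m → K, (∀ i, a' i ∈ A) ∧ b * (f : K) = ∑ i, a' i * a i := by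
    intro f hf
    refine Submodule.span_induction ?_ ?_ ?_ ?_ hf
    · intro x hx
      refine ⟨fun i => b * q x i, fun i => hbq x hx i, ?_⟩
      rw [(hq x hx).2, Finset.mul_sum]
      refine Finset.sum_congr rfl fun i _ => ?_
      ring
    · exact ⟨fun _ => 0, fun _ => A.zero_mem, by simp⟩
    · rintro x y _ _ ⟨a₁, h1, h2⟩ ⟨a₂, h3, h4⟩
      refine ⟨fun i => a₁ i + a₂ i, fun i => A.add_mem (h1 i) (h3 i), ?_⟩
      push_cast
      rw [mul_add, h2, h4, ← Finset.sum_add_distrib]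
      refine Finset.sum_congr rfl fun i _ => ?_
      ring
    · rintro c x _ ⟨a₁, h1, h2⟩
      refine ⟨fun i => (c : K) * a₁ i, fun i => A.mul_mem c.2 (h1 i), ?_⟩
      rw [smul_eq_mul]
      push_cast
      calc b * ((c : K) * (x : K)) = (c : K) * (b * (x : K)) := by ring
        _ = _ := by
          rw [h2, Finset.mul_sum]
          refine Finset.sum_congr rfl fun i _ => ?_
          ring
  refine ⟨a, b, hfg, hA, IsChart.refl V A, ha, ?_, ?_, hpar.dim, hb, hb1, ?_, ?_⟩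
  · intro i
    rw [hza i]
    exact mul_ne_zero (hpar.ne i) (hd0 i)
  · intro i
    rw [hza i, map_mul, hd1 i, mul_one]
    exact hpar.pos i
  · intro f hf hf1
    refine hbgen ⟨f, hf⟩ ?_
    have h1 : (⟨f, hf⟩ : A) ∈ PI V₁ A hA₁V₁ := hf1
    rw [← hP] at h1
    exact h1
  · rintro t (rfl | ht)
    · exact ⟨0, 1, A.one_mem, 1, A.one_mem, map_one _, map_one _, by simp, fun _ i => le_rfl,
        fun _ i => le_rfl⟩
    · exact absurd ht (Finset.notMem_empty _)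

end Pool.Agent.LU2G
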