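import Pool.Agent.Lib.LU2G.Step
import Pool.Agent.Lib.LU2_h15.Composite

/-!
# LU2G, G2a: the local step
-/

set_option autoImplicit false

namespace Pool.Agent.LU2G

open Pool.Agent.LU2

universe u

variable {k K : Type u} [Field k] [Field K] [Algebra k K]

/-- G2a: the local step. -/
theorem local_step (hreal : RealCaseR k) {V V₁ : ValuationSubring K} (hcov : Covers V V₁)
    (A : Subalgebra k K) (hfg : A.FG) (hA : ∀ a ∈ A, a ∈ V)
    (hfin : Algebra.trdeg k K < Cardinal.aleph0) (hdef : CompLE k V V₁ 1)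
    (hreg : ∃ (m : ℕ) (z : Fin m → K), IsPar V₁ (locV V₁ A) z) : StepAt V A := by
  classical
  have hk : ∀ c : k, algebraMap k K c ∈ V := fun c => hA _ (A.algebraMap_mem c)
  have hle : V ≤ V₁ := hcov.1.le
  obtain ⟨m, z, hz⟩ := hreg
  by_cases hc : ∃ c ∈ A, V.valuation c < 1 ∧ V₁.valuation c = 1
  · obtain ⟨K₁, _, _, φ, V₂, hres, hD₂⟩ := hdef
    let L : IntermediateField k K₁ :=
      IntermediateField.adjoin k {c : K₁ | ∃ a : V₁, (a : K) ∈ A ∧ φ a = c}
    refine step_chart hres A hfg hA z hz L rfl ?_ hc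
    have hLfg : L.FG := adjoin_res_fg hres hfg hA
    have hLtop : (⊤ : IntermediateField k L).FG := by
      rw [← IntermediateField.essFiniteType_iff] at hLfg
      rw [IntermediateField.fg_top_iff]
      exact hLfg
    obtain ⟨n, hn⟩ := Cardinal.lt_aleph0.1 hfin
    obtain ⟨n₁, hn₁, -⟩ := hres.trdeg_le hn (x := (Fin.elim0 : Fin 0 → K))
      ⟨fun i => i.elim0, fun e _ => Subsingleton.elim _ _⟩
    have hfin₁ : Algebra.trdeg k K₁ < Cardinal.aleph0 := by
      rw [hn₁]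
      exact Cardinal.natCast_lt_aleph0
    have hk₂ : ∀ c : k, algebraMap k K₁ c ∈ V₂ := hres.const₂
    refine hreal L hLtop _ ?_ (comap_isR1 hres hcov L ?_)
      (DefLE.comap' hk₂ hfin₁ L hD₂)
    · intro c
      rw [ValuationSubring.mem_comap]
      have h := hk₂ c
      rwa [IsScalarTower.algebraMap_apply k L K₁] at h
    · obtain ⟨c, hcA, hcV, hcV₁⟩ := hc
      have hcV₁' : c ∈ V₁ := hle (hA c hcA)
      have hcL : φ ⟨c, hcV₁'⟩ ∈ L := IntermediateField.subset_adjoin _ _ ⟨⟨c, hcV₁'⟩, hcA, rfl⟩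
      have hc0 : φ ⟨c, hcV₁'⟩ ≠ 0 := (hres.ne_zero_iff _).2 hcV₁
      have hlt : V₂.valuation (φ ⟨c, hcV₁'⟩) < 1 := (hres.val_lt_iff _).2 hcV
      intro htop
      have h1 : (⟨φ ⟨c, hcV₁'⟩, hcL⟩ : L)⁻¹ ∈ V₂.comap (algebraMap L K₁) := by
        rw [htop]
        exact ValuationSubring.mem_top _
      rw [ValuationSubring.mem_comap, map_inv₀, ← V₂.valuation_le_one_iff, map_inv₀] at h1
      have h2 : V₂.valuation (φ ⟨c, hcV₁'⟩) ≠ 0 := (Valuation.ne_zero_iff _).2 hc0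
      have h3 : V₂.valuation (φ ⟨c, hcV₁'⟩) * (V₂.valuation (φ ⟨c, hcV₁'⟩))⁻¹ < 1 :=
        mul_lt_of_lt_of_le_one hlt h1
      rw [mul_inv_cancel₀ h2] at h3
      exact lt_irrefl _ h3
  · push Not at hc
    have hc' : ∀ c ∈ A, V.valuation c < 1 → V₁.valuation c < 1 := fun c hcA hcV =>
      lt_of_le_of_ne ((V₁.valuation_le_one_iff c).2 (hle (hA c hcA))) (hc c hcA hcV)
    have hloc : locV V A = locV V₁ A := by
      apply le_antisymm
      · rintro f ⟨a, ha, b, hb, hb1, rfl⟩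
        exact ⟨a, ha, b, hb, val_eq_one_of_le hle hb1, rfl⟩
      · rintro f ⟨a, ha, b, hb, hb1, rfl⟩
        refine ⟨a, ha, b, hb, ?_, rfl⟩
        refine le_antisymm ((V.valuation_le_one_iff b).2 (hA b hb)) ?_
        by_contra h
        push Not at h
        exact (hc' b hb h).ne hb1
    refine ⟨A, 1, IsChart.refl V A, ⟨m, z, ?_⟩, ?_⟩
    · rw [← hloc] at hz
      refine ⟨hz.mem, hz.ne, fun i => val_lt_one_of_le hle (hz.pos i), ?_, hz.dim⟩
      intro f hf hf1
      refine hz.gen f hf ?_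
      obtain ⟨a, ha, b, hb, hb1, rfl⟩ := hf
      rw [map_div₀, hb1, div_one] at hf1
      rw [map_div₀, val_eq_one_of_le hle hb1, div_one]
      exact hc' a ha hf1
    · intro c _ _
      refine ⟨0, ?_⟩
      rw [pow_zero, div_one]
      exact Subalgebra.one_mem _

end Pool.Agent.LU2G
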