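import Pool.Agent.Lib.LU2G.Comp
import Pool.Agent.Lib.LU2_h15.All

/-!
# LU2G: log uniformization of the valuation rings all of whose components have defect at most one
-/

set_option autoImplicit false

namespace Pool.Agent.LU2G

open Pool.Agent.LU2

universe u

theorem lu_chain {k : Type u} [Field k] (hreal : RealCase k) (K : Type u) [Field K] [Algebra k K]
    (hfin : Algebra.trdeg k K < Cardinal.aleph0) (n : ℕ) :
    ∀ W : Fin (n + 1) → ValuationSubring K, W 0 = ⊤ →
      (∀ i : Fin n, Covers (W i.succ) (W i.castSucc)) →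
      (∀ c : k, algebraMap k K c ∈ W (Fin.last n)) → AllComp k (W (Fin.last n)) 1 →
      LU k (W (Fin.last n)) := by
  induction n with
  | zero =>
    intro W hW0 _ _ _
    have h1 : W (Fin.last 0) = ⊤ := hW0
    rw [h1]
    exact lu_top
  | succ n ih =>
    intro W hW0 hcov hk hdef
    have hcovV : Covers (W (Fin.last (n + 1))) (W (Fin.last n).castSucc) := hcov (Fin.last n)
    have hle := hcovV.1.le
    have hLU₁ : LU k (W (Fin.last n).castSucc) := ih (fun i => W i.castSucc) hW0
      (fun i => hcov i.castSucc) (fun c => hle (hk c)) (hdef.of_le hle)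
    obtain ⟨K₁, _, _, φ, V₂, hres, hD₂⟩ := hdef _ _ le_rfl hcovV
    obtain ⟨m, hm⟩ := Cardinal.lt_aleph0.1 hfin
    obtain ⟨n₁, hn₁, -⟩ := hres.trdeg_le hm (x := (Fin.elim0 : Fin 0 → K))
      ⟨fun i => i.elim0, fun e _ => Subsingleton.elim _ _⟩
    have hfin₁ : Algebra.trdeg k K₁ < Cardinal.aleph0 := by
      rw [hn₁]
      exact Cardinal.natCast_lt_aleph0
    have hk₂ : ∀ c : k, algebraMap k K₁ c ∈ V₂ := hres.const₂
    refine composite hres ?_ hLU₁ ?_
    · have := FinTrdeg.of_trdeg hfin₁
      obtain ⟨s, hs⟩ := exists_finset_isTranscendenceBasis k K₁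
      refine ⟨s, ?_⟩
      have h := hs.isAlgebraic_field
      rwa [Subtype.range_coe_subtype, Finset.setOfPred_mem] at h
    · intro L hL halg
      have hLtop : (⊤ : IntermediateField k L).FG := by
        rw [← IntermediateField.essFiniteType_iff] at hL
        rw [IntermediateField.fg_top_iff]
        exact hL
      by_cases hne : V₂.comap (algebraMap L K₁) = ⊤
      · rw [hne]
        exact lu_top
      refine hreal L hLtop _ ?_ (comap_isR1 hres hcovV L hne) (DefLE.comap' hk₂ hfin₁ L hD₂)
      intro c
      rw [ValuationSubring.mem_comap]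
      have h := hk₂ c
      rwa [IsScalarTower.algebraMap_apply k L K₁] at h

/-- Log uniformization of the valuation rings all of whose components have defect at most one. -/
theorem lu_comp {k : Type u} [Field k] (hreal : RealCase k) (K : Type u) [Field K] [Algebra k K]
    (hfin : Algebra.trdeg k K < Cardinal.aleph0) (V : ValuationSubring K)
    (hk : ∀ c : k, algebraMap k K c ∈ V) (hV : AllComp k V 1) : LU k V := by
  by_cases htop : V = ⊤
  · rw [htop]
    exact lu_top
  · obtain ⟨n, W, hW0, hWn, hcov⟩ := exists_chain hk htop hfin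
    subst hWn
    exact lu_chain hreal K hfin n W hW0 hcov hk hV

end Pool.Agent.LU2G
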