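import Pool.Agent.Lib.LU2G.Steps
import Pool.Agent.Lib.LU2G.BlT

/-!
# LU2G, G6d: one valuation ring on an arbitrary scheme
-/

set_option autoImplicit false

open AlgebraicGeometry CategoryTheory

namespace Pool.Agent.LU2G

open Pool.Agent.LU2 Pool.Agent.MP_b525bf_ag
open Pool.Agent.LU1G (IsGen cpt incV SmoothAt powFam smoothAt_of_open)

theorem comp_app_eq {X Z S : Scheme.{0}} (q : Z ⟶ S) (g : S ⟶ X) (U : X.Opens)
    (hgU : g ⁻¹ᵁ U = ⊤) (a : Γ(X, U) ⟶ Γ(S, ⊤))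
    (ha : g.app U = a ≫ S.presheaf.map (eqToHom hgU).op) :
    ∃ t : Γ(Z, q ⁻¹ᵁ ⊤) ⟶ Γ(Z, q ⁻¹ᵁ (g ⁻¹ᵁ U)), IsIso t ∧
      (q ≫ g).app U = a ≫ q.app ⊤ ≫ t := by
  refine ⟨Z.presheaf.map ((TopologicalSpace.Opens.map q.base).map (eqToHom hgU)).op,
    inferInstance, ?_⟩
  rw [Scheme.Hom.comp_app, ha, Category.assoc, q.naturality]
  rfl

theorem ker_comp_of_isIso {R S T : CommRingCat.{0}} (φ : R ⟶ S) (t : S ⟶ T) [IsIso t] :
    RingHom.ker (φ ≫ t).hom = RingHom.ker φ.hom := by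
  have h3 := (ConcreteCategory.bijective_of_isIso t).1
  ext s
  rw [RingHom.mem_ker, RingHom.mem_ker, CommRingCat.hom_comp, RingHom.comp_apply]
  exact ⟨fun h4 => h3 (Eq.trans h4 (map_zero _).symm), fun h4 => by rw [h4, map_zero]⟩

/-- The kernel of the map of sections of a closed subscheme of an affine open set. -/
theorem ker_app_fromSpec {X : Scheme.{0}} {U : X.Opens} (hU : IsAffineOpen U)
    (I : Ideal Γ(X, U)) :
    RingHom.ker ((Spec.map (CommRingCat.ofHom (Ideal.Quotient.mk I)) ≫ hU.fromSpec).app U).hom =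
      I := by
  obtain ⟨t, ht, h1⟩ := comp_app_eq (Spec.map (CommRingCat.ofHom (Ideal.Quotient.mk I)))
    hU.fromSpec U hU.fromSpec_preimage_self (Scheme.ΓSpecIso Γ(X, U)).inv hU.fromSpec_app_self
  have h2 : (Scheme.ΓSpecIso Γ(X, U)).inv ≫
      (Spec.map (CommRingCat.ofHom (Ideal.Quotient.mk I))).app ⊤ =
      CommRingCat.ofHom (Ideal.Quotient.mk I) ≫
        (Scheme.ΓSpecIso (CommRingCat.of (Γ(X, U) ⧸ I))).inv :=
    (Scheme.ΓSpecIso_inv_naturality _).symm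
  have h3 := h1.trans ((Category.assoc _ _ _).symm.trans ((congrArg (fun z => z ≫ t) h2).trans
    (Category.assoc _ _ _)))
  refine (congrArg (fun z => RingHom.ker (CommRingCat.Hom.hom z)) h3).trans ?_
  have h4 : IsIso ((Scheme.ΓSpecIso (CommRingCat.of (Γ(X, U) ⧸ I))).inv ≫ t) :=
    @IsIso.comp_isIso _ _ _ _ _ _ t inferInstance ht
  exact (ker_comp_of_isIso (CommRingCat.ofHom (Ideal.Quotient.mk I))
    ((Scheme.ΓSpecIso (CommRingCat.of (Γ(X, U) ⧸ I))).inv ≫ t)).trans Ideal.mk_ker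

/-- An ideal on an affine open set extends to a quasi-coherent ideal sheaf that is trivial outside of
the closure of its zero set. -/
theorem exists_idealSheaf {X : Scheme.{0}} {U : X.Opens} (hU : IsAffineOpen U)
    [IsNoetherianRing Γ(X, U)] (I : Ideal Γ(X, U)) :
    ∃ 𝓘 : X.IdealSheafData, 𝓘.ideal ⟨U, hU⟩ = I ∧ ∀ W : X.affineOpens,
      (∀ P : Spec Γ(X, U), I ≤ P.asIdeal → hU.fromSpec P ∉ W.1) → 𝓘.ideal W = ⊤ := by
  let j : Spec (CommRingCat.of (Γ(X, U) ⧸ I)) ⟶ X :=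
    Spec.map (CommRingCat.ofHom (Ideal.Quotient.mk I)) ≫ hU.fromSpec
  have hN : IsNoetherianRing (Γ(X, U) ⧸ I) := inferInstance
  have hqc : QuasiCompact j := inferInstance
  refine ⟨Scheme.Hom.ker j, ?_, ?_⟩
  · rw [Scheme.Hom.ker_apply]
    exact ker_app_fromSpec hU I
  · intro W hW
    rw [Scheme.Hom.ker_apply]
    have h1 : j ⁻¹ᵁ W.1 = ⊥ := by
      ext z
      refine ⟨fun hz => ?_, fun hz => hz.elim⟩
      refine (hW (Spec.map (CommRingCat.ofHom (Ideal.Quotient.mk I)) z) ?_ hz).elim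
      intro a ha
      change Ideal.Quotient.mk I a ∈ (z : PrimeSpectrum (Γ(X, U) ⧸ I)).asIdeal
      rw [Ideal.Quotient.eq_zero_iff_mem.mpr ha]
      exact Ideal.zero_mem _
    have h2 : Subsingleton Γ(Spec (CommRingCat.of (Γ(X, U) ⧸ I)), j ⁻¹ᵁ W.1) := by
      rw [h1]
      infer_instance
    rw [eq_top_iff]
    intro s _
    rw [RingHom.mem_ker]
    exact Subsingleton.elim _ _

/-- G6d: one valuation. -/
theorem one_step (k K : Type) [Field k] [PerfectField k] (hreal : RealCaseR k)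
    [Field K] [Algebra k K] (X : Scheme.{0}) [IsIntegral X] (f : X ⟶ Spec (CommRingCat.of k))
    [LocallyOfFiniteType f] (η : Spec (CommRingCat.of K) ⟶ X) (hη : IsGen η)
    (hηf : η ≫ f = Spec.map (CommRingCat.ofHom (algebraMap k K)))
    (V V₁ : ValuationSubring K) (hcov : Covers V V₁) (hdef : CompLE k V V₁ 1)
    (c : Spec (CommRingCat.of V) ⟶ X) (hc : incV V ≫ c = η)
    (hsm : SmoothAt f ((coarse hcov.1.le ≫ c) (cpt V₁))) :
    ∃ (Y : Scheme.{0}) (π : Y ⟶ X), IsIntegral Y ∧ IsProper π ∧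
      (∀ W : X.Opens, c (cpt V) ∉ W → IsIso (π ∣_ W)) ∧
      ∃ c' : Spec (CommRingCat.of V) ⟶ Y, c' ≫ π = c ∧ SmoothAt (π ≫ f) (c' (cpt V)) := by
  have hLN : IsLocallyNoetherian X := LocallyOfFiniteType.isLocallyNoetherian f
  obtain ⟨U, hU, hcU, -⟩ := exists_isAffineOpen_mem_and_subset (U := ⊤) (x := c (cpt V)) trivial
  obtain ⟨I, hI0, hIV, hstep⟩ := open_step k K hreal X f η hη hηf V V₁ hcov hdef c
    hc hsm U hU hcU
  have hN : IsNoetherianRing Γ(X, U) := IsLocallyNoetherian.component_noetherian ⟨U, hU⟩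
  obtain ⟨𝓘, hIU, hIW⟩ := exists_idealSheaf hU I
  rw [← hIU] at hstep hI0
  obtain ⟨c', hc', hsm'⟩ := hstep
  let U₀ : X.AffineZariskiSite := ⟨U, hU⟩
  have hb : blowι 𝓘 U₀ ≫ blow 𝓘 = (powFam (𝓘.ideal ⟨U, hU⟩)).blMap ≫ hU.fromSpec :=
    blowι_blow 𝓘 U₀
  let c'' : Spec (CommRingCat.of V) ⟶ (fam 𝓘 U₀).Bl := c'
  refine ⟨Blow 𝓘, blow 𝓘, blow_isIntegral 𝓘 U₀ hI0, blow_isProper 𝓘, ?_,
    c'' ≫ blowι 𝓘 U₀, ?_, ?_⟩
  · intro W hW
    refine blow_isIso 𝓘 W fun x hx => ?_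
    obtain ⟨U', hU', hxU', hU'W⟩ := exists_isAffineOpen_mem_and_subset hx
    refine ⟨⟨U', hU'⟩, hxU', hIW ⟨U', hU'⟩ fun P hP hPU => ?_⟩
    exact hW ((hIV P hP).mem_open W.isOpen (hU'W hPU))
  · rw [Category.assoc, hb]
    exact hc'
  · rw [Scheme.Hom.comp_apply]
    refine smoothAt_of_open (blowι 𝓘 U₀) _ _ ?_
    have e2 : blowι 𝓘 U₀ ≫ blow 𝓘 ≫ f =
        (powFam (𝓘.ideal ⟨U, hU⟩)).blMap ≫ hU.fromSpec ≫ f :=
      (Category.assoc _ _ _).symm.trans ((congrArg (fun z => z ≫ f) hb).trans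
        (Category.assoc _ _ _))
    exact e2 ▸ hsm'

end Pool.Agent.LU2G
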