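import Pool.Agent.Lib.LU2G.Affine
import Pool.Agent.Lib.LU1G.Main

/-!
# LU2G, G6b: the blowing up of an affine open neighbourhood of the centre
-/

set_option autoImplicit false

open AlgebraicGeometry CategoryTheory

namespace Pool.Agent.LU2G

open Pool.Agent.LU2
open Pool.Agent.LU1G (IsGen cpt incV SmoothAt powFam factor_affine frac_affine)
open Pool.Agent.MP_b525bf_ag

/-- The morphism from the spectrum of a coarser valuation ring. -/
noncomputable abbrev coarse {K : Type} [Field K] {V V₁ : ValuationSubring K} (h : V ≤ V₁) :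
    Spec (CommRingCat.of V₁) ⟶ Spec (CommRingCat.of V) :=
  Spec.map (CommRingCat.ofHom (ValuationSubring.inclusion V V₁ h))

/-- A smooth point of an affine open set has a smooth basic open neighbourhood. -/
theorem exists_smooth_away {k : Type} [Field k] {X : Scheme.{0}}
    (f : X ⟶ Spec (CommRingCat.of k)) (A : Type) [CommRing A] [Algebra k A]
    (j : Spec (CommRingCat.of A) ⟶ X) [IsOpenImmersion j]
    (hj : j ≫ f = Spec.map (CommRingCat.ofHom (algebraMap k A)))
    (p : Spec (CommRingCat.of A)) (hs : SmoothAt f (j p)) :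
    ∃ b : A, b ∉ p.asIdeal ∧ Algebra.Smooth k (Localization.Away b) := by
  obtain ⟨W, hW, hsm⟩ := hs
  have hp : p ∈ ((j ⁻¹ᵁ W : (Spec (CommRingCat.of A)).Opens) :
      Set (Spec (CommRingCat.of A))) := hW
  obtain ⟨_, ⟨b, rfl⟩, hb, hbW⟩ :=
    PrimeSpectrum.isTopologicalBasis_basic_opens.exists_subset_of_mem_open hp (j ⁻¹ᵁ W).2
  refine ⟨b, hb, ?_⟩
  let i : Spec (CommRingCat.of (Localization.Away b)) ⟶ Spec (CommRingCat.of A) :=
    Spec.map (CommRingCat.ofHom (algebraMap A (Localization.Away b)))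
  have hi : IsOpenImmersion i :=
    IsOpenImmersion.of_isLocalization (R := A) (S := Localization.Away b) b
  have hr : Set.range (i ≫ j) ⊆ Set.range W.ι := by
    rintro _ ⟨x, rfl⟩
    rw [Scheme.Opens.range_ι]
    apply hbW
    change i x ∈ PrimeSpectrum.basicOpen b
    intro hx
    have h1 : algebraMap A (Localization.Away b) b ∈ x.asIdeal := hx
    exact x.2.ne_top (Ideal.eq_top_of_isUnit_mem _ h1
      (IsLocalization.Away.algebraMap_isUnit b))
  have hl := IsOpenImmersion.lift_fac W.ι (i ≫ j) hr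
  have ho : IsOpenImmersion (IsOpenImmersion.lift W.ι (i ≫ j) hr) := by
    have h2 : IsOpenImmersion (IsOpenImmersion.lift W.ι (i ≫ j) hr ≫ W.ι) := by
      rw [hl]
      infer_instance
    exact IsOpenImmersion.of_comp _ W.ι
  have h3 : Smooth ((i ≫ j) ≫ f) := by
    rw [← hl, Category.assoc]
    exact smooth_comp _ _
  have h4 : (i ≫ j) ≫ f = Spec.map (CommRingCat.ofHom (algebraMap k (Localization.Away b))) := by
    rw [Category.assoc, hj, ← Spec.map_comp]
    rfl
  rw [h4, HasRingHomProperty.Spec_iff (P := @AlgebraicGeometry.Smooth)] at h3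
  exact RingHom.smooth_algebraMap.mp h3

/-- The closed point of a coarser valuation ring specializes to the closed point. -/
theorem coarse_mem {K : Type} [Field K] {V V₁ : ValuationSubring K} (h : V ≤ V₁)
    {X : Scheme.{0}} (c : Spec (CommRingCat.of V) ⟶ X) (U : X.Opens) (hU : c (cpt V) ∈ U) :
    (coarse h ≫ c) (cpt V₁) ∈ U := by
  have h1 : coarse h (cpt V₁) ⤳ cpt V := IsLocalRing.specializes_closedPoint _
  exact (h1.map c.continuous).mem_open U.isOpen hU

/-- G6b: the blowing up of an affine open neighbourhood `U` of the centre. -/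
theorem open_step (k K : Type) [Field k] [PerfectField k] (hreal : RealCaseR k)
    [Field K] [Algebra k K] (X : Scheme.{0}) [IsIntegral X] (f : X ⟶ Spec (CommRingCat.of k))
    [LocallyOfFiniteType f] (η : Spec (CommRingCat.of K) ⟶ X) (hη : IsGen η)
    (hηf : η ≫ f = Spec.map (CommRingCat.ofHom (algebraMap k K)))
    (V V₁ : ValuationSubring K) (hcov : Covers V V₁) (hdef : CompLE k V V₁ 1)
    (c : Spec (CommRingCat.of V) ⟶ X) (hc : incV V ≫ c = η)
    (hsm : SmoothAt f ((coarse hcov.1.le ≫ c) (cpt V₁))) (U : X.Opens)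
    (hU : IsAffineOpen U) (hcU : c (cpt V) ∈ U) :
    ∃ I : Ideal Γ(X, U), I ≠ ⊥ ∧
      (∀ P : Spec Γ(X, U), I ≤ P.asIdeal → c (cpt V) ⤳ hU.fromSpec P) ∧
      ∃ c' : Spec (CommRingCat.of V) ⟶ (powFam I).Bl,
        c' ≫ (powFam I).blMap ≫ hU.fromSpec = c ∧
        SmoothAt ((powFam I).blMap ≫ hU.fromSpec ≫ f) (c' (cpt V)) := by
  obtain ⟨φ, hφ⟩ := factor_affine U hU c hcU
  have hne : Nonempty U := ⟨⟨_, hcU⟩⟩
  let A : Type := Γ(X, U)
  let _ : CommRing A := inferInstanceAs (CommRing Γ(X, U))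
  have : IsDomain A := inferInstanceAs (IsDomain Γ(X, U))
  let φK : A →+* K := (algebraMap V K).comp φ
  let φk : k →+* A := (Spec.preimage (hU.fromSpec ≫ f)).hom
  let _ : Algebra A K := φK.toAlgebra
  let _ : Algebra k A := φk.toAlgebra
  have hφK : Spec.map (CommRingCat.ofHom φK) ≫ hU.fromSpec = η := by
    rw [← hc, ← hφ, incV, ← Category.assoc, ← Spec.map_comp]
    rfl
  have hφk : Spec.map (CommRingCat.ofHom φk) = hU.fromSpec ≫ f := by
    rw [CommRingCat.ofHom_hom, Spec.map_preimage]
  have hft : Algebra.FiniteType k A := by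
    have h1 : LocallyOfFiniteType (Spec.map (CommRingCat.ofHom φk)) := by
      rw [hφk]
      infer_instance
    exact (HasRingHomProperty.Spec_iff (P := @LocallyOfFiniteType)).mp h1
  have : IsScalarTower k A K := by
    refine IsScalarTower.of_algebraMap_eq' ?_
    have h1 : Spec.map (CommRingCat.ofHom (algebraMap k K)) =
        Spec.map (CommRingCat.ofHom (φK.comp φk)) := by
      rw [← hηf, ← hφK, Category.assoc, ← hφk, ← Spec.map_comp]
      rfl
    exact congrArg CommRingCat.Hom.hom (Spec.map_injective h1)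
  have : IsFractionRing A K := frac_affine U hU ⟨_, hcU⟩ η hη φK hφK
  have hAV : ∀ a : A, algebraMap A K a ∈ V := fun a => (φ a).2
  -- a smooth basic open neighbourhood of the centre of `V₁`
  have hsm' : ∃ b : A, V₁.valuation (algebraMap A K b) = 1 ∧
      Algebra.Smooth k (Localization.Away b) := by
    let p : Spec (CommRingCat.of A) :=
      Spec.map (CommRingCat.ofHom φ) (coarse hcov.1.le (cpt V₁))
    have hp : hU.fromSpec p = (coarse hcov.1.le ≫ c) (cpt V₁) := by
      rw [← hφ]
      rfl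
    obtain ⟨b, hb, hbs⟩ := exists_smooth_away f A hU.fromSpec hφk.symm p (by rw [hp]; exact hsm)
    refine ⟨b, ?_, hbs⟩
    have h1 : ValuationSubring.inclusion V V₁ hcov.1.le (φ b) ∉
        IsLocalRing.maximalIdeal V₁ := hb
    have h2 : V₁.valuation (algebraMap A K b) ≤ 1 :=
      (V₁.valuation_le_one_iff _).2 (hcov.1.le (hAV b))
    refine le_antisymm h2 (not_lt.1 fun h3 => h1 ?_)
    exact (V₁.valuation_lt_one_iff _).2 h3
  obtain ⟨I, hI, hprime, c', hc', hsm⟩ := affine_step k A K hreal V V₁ hcov hAV hdef hsm'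
  have hcod : (algebraMap A K).codRestrict V hAV = φ := by
    ext a
    rfl
  rw [hcod] at hprime hc'
  refine ⟨I, hI, ?_, c', ?_, ?_⟩
  · intro P hP
    have h1 := (hprime P hP).map hU.fromSpec.continuous
    have h2 : hU.fromSpec (Spec.map (CommRingCat.ofHom φ) (cpt V)) = c (cpt V) := by
      rw [← hφ]
      rfl
    rw [← h2]
    exact h1
  · rw [← hφ, ← hc', Category.assoc]
  · have e2 : (powFam I).blMap ≫ hU.fromSpec ≫ f =
        (powFam I).blMap ≫ Spec.map (CommRingCat.ofHom (algebraMap k A)) :=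
      congrArg (fun g => (powFam I).blMap ≫ g) hφk.symm
    rw [e2]
    exact hsm

end Pool.Agent.LU2G
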