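import Pool.Agent.Lib.LU1_h15.Smooth

/-!
# LU2G, G3: algebraically independent elements from a chain of primes
-/

set_option autoImplicit false

namespace Pool.Agent.LU2G

open Polynomial

/-- A nonzero element of an ideal is transcendental over elements which are algebraically
independent modulo the ideal. -/
theorem algInd_option {k S : Type*} [Field k] [CommRing S] [IsDomain S] [Algebra k S] (Q : Ideal S)
    {ι : Type*} (x : ι → S) (hx : AlgebraicIndependent k fun i => Ideal.Quotient.mk Q (x i))
    {c : S} (hc : c ∈ Q) (hc0 : c ≠ 0) :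
    AlgebraicIndependent k fun o : Option ι => o.elim c x := by
  have hx' : AlgebraicIndependent k x :=
    AlgebraicIndependent.of_comp (Ideal.Quotient.mkₐ k Q) hx
  rw [hx'.option_iff_transcendental]
  intro halg
  obtain ⟨p, hp0, hp⟩ := halg.exists_nonzero_coeff_and_aeval_eq_zero
    (mem_nonZeroDivisors_of_ne_zero hc0)
  apply hp0
  have h1 : ((p.coeff 0 : Algebra.adjoin k (Set.range x)) : S) ∈ Q := by
    obtain ⟨r, hr⟩ := X_dvd_sub_C (p := p)
    have h2 := congrArg (aeval c) hr
    rw [map_sub, hp, zero_sub, map_mul, aeval_X, aeval_C] at h2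
    have h3 : (algebraMap (Algebra.adjoin k (Set.range x)) S) (p.coeff 0) ∈ Q := by
      rw [← neg_neg (algebraMap (Algebra.adjoin k (Set.range x)) S (p.coeff 0)), h2]
      exact Q.neg_mem (Q.mul_mem_right _ hc)
    exact h3
  obtain ⟨F, hF⟩ : ∃ F : MvPolynomial ι k, MvPolynomial.aeval x F =
      ((p.coeff 0 : Algebra.adjoin k (Set.range x)) : S) := by
    have h4 : ∀ b : S, b ∈ Algebra.adjoin k (Set.range x) →
        ∃ F : MvPolynomial ι k, MvPolynomial.aeval x F = b := by
      intro b hb
      rw [Algebra.adjoin_range_eq_range_aeval] at hb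
      exact hb
    exact h4 _ (p.coeff 0 : Algebra.adjoin k (Set.range x)).2
  have h5 : MvPolynomial.aeval (fun i => Ideal.Quotient.mk Q (x i)) F = 0 := by
    have h6 : (Ideal.Quotient.mkₐ k Q) (MvPolynomial.aeval x F) =
        MvPolynomial.aeval (fun i => Ideal.Quotient.mk Q (x i)) F := by
      rw [← AlgHom.comp_apply, MvPolynomial.comp_aeval]
      rfl
    rw [← h6, hF]
    exact Ideal.Quotient.eq_zero_iff_mem.2 h1
  have h7 : F = 0 := (injective_iff_map_eq_zero _).1 hx F h5
  rw [h7, map_zero] at hF
  exact Subtype.ext hF.symm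

/-- From a chain of primes of length `n`, and `m` elements algebraically independent modulo the
last one, we get `m + n` algebraically independent elements. -/
theorem exists_algInd_of_series {k S : Type*} [Field k] [CommRing S] [IsDomain S] [Algebra k S]
    (n : ℕ) : ∀ (p : LTSeries (PrimeSpectrum S)), p.length = n → ∀ (ι : Type) [Fintype ι]
    (x : ι → S), (AlgebraicIndependent k fun i => Ideal.Quotient.mk p.last.asIdeal (x i)) →
    ∃ (κ : Type) (_ : Fintype κ) (y : κ → S), Fintype.card κ = Fintype.card ι + n ∧
      AlgebraicIndependent k y := by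
  induction n with
  | zero =>
    intro p _ ι _ x hx
    exact ⟨ι, inferInstance, x, rfl,
      AlgebraicIndependent.of_comp (Ideal.Quotient.mkₐ k p.last.asIdeal) hx⟩
  | succ n ih =>
    intro p hp ι _ x hx
    have hlen : p.eraseLast.length = n := by
      rw [RelSeries.eraseLast_length, hp]
      rfl
    have hlt : p.eraseLast.last < p.last := p.eraseLast_last_rel_last (by omega)
    obtain ⟨c, hc, hc'⟩ := SetLike.exists_of_lt (show p.eraseLast.last.asIdeal < p.last.asIdeal from
      hlt)
    set P := p.eraseLast.last.asIdeal with hP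
    set Q := p.last.asIdeal with hQ
    have hPQ : P ≤ Q := le_of_lt hlt
    have hPp : P.IsPrime := p.eraseLast.last.isPrime
    have h1 : AlgebraicIndependent k fun o : Option ι =>
        o.elim (Ideal.Quotient.mk P c) (fun i => Ideal.Quotient.mk P (x i)) := by
      refine algInd_option (Q.map (Ideal.Quotient.mk P)) (fun i => Ideal.Quotient.mk P (x i)) ?_
        (Ideal.mem_map_of_mem _ hc) ?_
      · have h2 : Q.map (Ideal.Quotient.mk P) ≤ RingHom.ker (Ideal.Quotient.factor hPQ) := by
          rw [Ideal.map_le_iff_le_comap]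
          intro a ha
          change Ideal.Quotient.factor hPQ (Ideal.Quotient.mk P a) = 0
          rw [Ideal.Quotient.factor_mk]
          exact Ideal.Quotient.eq_zero_iff_mem.2 ha
        let φ : ((S ⧸ P) ⧸ (Q.map (Ideal.Quotient.mk P))) →ₐ[k] S ⧸ Q :=
          Ideal.Quotient.liftₐ _ (Ideal.Quotient.factorₐ k hPQ) fun a ha => h2 ha
        refine AlgebraicIndependent.of_comp φ ?_
        exact hx
      · intro h
        exact hc' (Ideal.Quotient.eq_zero_iff_mem.1 h)
    obtain ⟨κ, _, y, hcard, hy⟩ := ih p.eraseLast hlen (Option ι) (fun o => o.elim c x) (by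
      convert! h1 using 2 with o
      cases o <;> rfl)
    exact ⟨κ, inferInstance, y, by rw [hcard, Fintype.card_option]; ring, hy⟩

/-- The easy half of the dimension formula. -/
theorem le_trdeg {k S : Type*} [Field k] [CommRing S] [IsDomain S] [Algebra k S]
    (q : Ideal S) [q.IsPrime] {n : ℕ} (hn : (n : ℕ∞) ≤ q.height) {d : ℕ} (x : Fin d → S)
    (hx : AlgebraicIndependent k fun i => Ideal.Quotient.mk q (x i)) :
    ((n + d : ℕ) : Cardinal) ≤ Algebra.trdeg k S := by
  rw [PrimeSpectrum.height_eq_orderHeight ⟨q, inferInstance⟩] at hn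
  obtain ⟨p, hp, hpn⟩ := Order.exists_series_of_le_height _ hn
  have hx' : AlgebraicIndependent k fun i => Ideal.Quotient.mk p.last.asIdeal (x i) := by
    rw [hp]
    exact hx
  obtain ⟨κ, _, y, hcard, hy⟩ := exists_algInd_of_series n p hpn (Fin d) x hx'
  have h1 := hy.lift_cardinalMk_le_trdeg
  rw [Cardinal.mk_fintype, hcard, Fintype.card_fin] at h1
  rw [add_comm]
  simpa using h1

end Pool.Agent.LU2G
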