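import Pool.Agent.Lib.LU2G.SmoothA1

/-!
# LU2G, G3: regular points over a perfect field: the algebra
-/

set_option autoImplicit false

namespace Pool.Agent.LU2G

open Polynomial Pool.Agent.LU1

section
variable {k S : Type*} [Field k] [CommRing S] [IsDomain S] [Algebra k S]
  [Algebra.FiniteType k S] (q : Ideal S) [q.IsPrime] {n d : ℕ} (z : Fin n → S) (t : Fin d → S)
  (hzq : ∀ i, z i ∈ q)
  (hgen : ∀ s ∈ q, ∃ t, t ∉ q ∧ t * s ∈ Ideal.span (Set.range z))
  (hsep : ∀ s : S, ∃ F : Polynomial (MvPolynomial (Fin d) k),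
    F.eval₂ (MvPolynomial.aeval t : MvPolynomial (Fin d) k →ₐ[k] S).toRingHom s ∈ q ∧
    (derivative F).eval₂ (MvPolynomial.aeval t : MvPolynomial (Fin d) k →ₐ[k] S).toRingHom s ∉ q)
include hzq hgen hsep

omit [IsDomain S] in
/-- unramified over every ring containing the parameters -/
theorem unramifiedAt' (R₀ : Type*) [CommRing R₀] [Algebra k R₀] [Algebra R₀ S]
    [IsScalarTower k R₀ S] (hX : ∀ i, ∃ w, algebraMap R₀ S w = z i)
    (hT : ∀ j, ∃ w, algebraMap R₀ S w = t j) :
    Algebra.FormallyUnramified R₀ (Localization.AtPrime q) := by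
  have hft : Algebra.FiniteType R₀ S := .of_restrictScalars_finiteType k _ S
  have hess : Algebra.EssFiniteType R₀ (Localization.AtPrime q) := .comp _ S _
  have hzm : ∀ i, algebraMap S (Localization.AtPrime q) (z i) ∈
      IsLocalRing.maximalIdeal (Localization.AtPrime q) := fun i =>
    (IsLocalization.AtPrime.to_map_mem_maximal_iff (Localization.AtPrime q) q (z i)).mpr (hzq i)
  obtain ⟨N, hN⟩ : ∃ N : Submodule (Localization.AtPrime q) (Ω[Localization.AtPrime q⁄R₀]),
      N = IsLocalRing.maximalIdeal (Localization.AtPrime q) • ⊤ := ⟨_, rfl⟩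
  have hI : ∀ y ∈ Ideal.span (Set.range fun i => algebraMap S (Localization.AtPrime q) (z i)),
      KaehlerDifferential.D R₀ (Localization.AtPrime q) y ∈ N := by
    intro y hy
    induction hy using Submodule.span_induction with
    | mem y h =>
      obtain ⟨i, rfl⟩ := h
      obtain ⟨w, hw⟩ := hX i
      have : algebraMap S (Localization.AtPrime q) (z i) =
          algebraMap R₀ (Localization.AtPrime q) w := by
        rw [IsScalarTower.algebraMap_apply R₀ S, hw]
      simp only [this, Derivation.map_algebraMap]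
      exact N.zero_mem
    | zero => rw [map_zero]; exact N.zero_mem
    | add y y' _ _ h1 h2 => rw [map_add]; exact N.add_mem h1 h2
    | smul a y hy h1 =>
      rw [smul_eq_mul, Derivation.leibniz]
      refine N.add_mem (N.smul_mem a h1) ?_
      rw [hN]
      refine Submodule.smul_mem_smul ?_ Submodule.mem_top
      refine (Ideal.span_le.mpr ?_) hy
      rintro _ ⟨i, rfl⟩
      exact hzm i
  have hunit : ∀ (u : Localization.AtPrime q), IsUnit u → ∀ w, u • w ∈ N → w ∈ N := by
    rintro _ ⟨u, rfl⟩ w hw
    have := N.smul_mem ((u⁻¹ : (Localization.AtPrime q)ˣ) : Localization.AtPrime q) hw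
    rwa [smul_smul, Units.inv_mul, one_smul] at this
  choose T hT using hT
  -- elements of `S`
  have hDS : ∀ s : S, KaehlerDifferential.D R₀ (Localization.AtPrime q)
      (algebraMap S (Localization.AtPrime q) s) ∈ N := by
    intro s
    obtain ⟨F, hF1, hF2⟩ := hsep s
    obtain ⟨G, hG⟩ : ∃ G : Polynomial R₀, G = F.map
      (MvPolynomial.aeval T : MvPolynomial (Fin d) k →ₐ[k] R₀).toRingHom := ⟨_, rfl⟩
    have hcomp : (algebraMap R₀ S).comp
        (MvPolynomial.aeval T : MvPolynomial (Fin d) k →ₐ[k] R₀).toRingHom =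
        (MvPolynomial.aeval t : MvPolynomial (Fin d) k →ₐ[k] S).toRingHom := by
      apply MvPolynomial.ringHom_ext
      · intro c
        change algebraMap R₀ S (MvPolynomial.aeval T (MvPolynomial.C c)) =
          MvPolynomial.aeval t (MvPolynomial.C c)
        rw [MvPolynomial.aeval_C, MvPolynomial.aeval_C,
          ← IsScalarTower.algebraMap_apply k R₀ S]
      · intro j
        change algebraMap R₀ S (MvPolynomial.aeval T (MvPolynomial.X j)) =
          MvPolynomial.aeval t (MvPolynomial.X j)
        rw [MvPolynomial.aeval_X, MvPolynomial.aeval_X, hT]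
    have h1 : aeval s G = F.eval₂
        (MvPolynomial.aeval t : MvPolynomial (Fin d) k →ₐ[k] S).toRingHom s := by
      rw [hG, aeval_def, eval₂_map, hcomp]
    have h2 : aeval s (derivative G) = (derivative F).eval₂
        (MvPolynomial.aeval t : MvPolynomial (Fin d) k →ₐ[k] S).toRingHom s := by
      rw [hG, derivative_map, aeval_def, eval₂_map, hcomp]
    have h3 : aeval (algebraMap S (Localization.AtPrime q) s) G ∈
        IsLocalRing.maximalIdeal (Localization.AtPrime q) := by
      rw [aeval_algebraMap_apply, IsLocalization.AtPrime.to_map_mem_maximal_iff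
        (Localization.AtPrime q) q, h1]
      exact hF1
    have h4 : IsUnit (aeval (algebraMap S (Localization.AtPrime q) s) (derivative G)) := by
      rw [aeval_algebraMap_apply, h2]
      exact IsLocalization.map_units (Localization.AtPrime q)
        (⟨_, hF2⟩ : q.primeCompl)
    have h5 := hI _ (mem_span_of_mem_maximal q z hgen h3)
    rw [Derivation.map_aeval] at h5
    exact hunit _ h4 _ h5
  have hD : ∀ x : Localization.AtPrime q,
      KaehlerDifferential.D R₀ (Localization.AtPrime q) x ∈ N := by
    intro x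
    obtain ⟨s, u, rfl⟩ := IsLocalization.exists_mk'_eq q.primeCompl x
    have h1 : algebraMap S (Localization.AtPrime q) u *
        IsLocalization.mk' (Localization.AtPrime q) s u =
        algebraMap S (Localization.AtPrime q) s := IsLocalization.mk'_spec'_mk _ _ _ _
    have h2 := hDS s
    rw [← h1, Derivation.leibniz] at h2
    have h3 := N.sub_mem h2 (N.smul_mem (IsLocalization.mk' (Localization.AtPrime q) s u)
      (hDS (u : S)))
    rw [add_sub_cancel_right] at h3
    exact hunit _ (IsLocalization.map_units (Localization.AtPrime q) u) _ h3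
  have htop : (⊤ : Submodule (Localization.AtPrime q) (Ω[Localization.AtPrime q⁄R₀])) ≤ N := by
    rw [← KaehlerDifferential.span_range_derivation, Submodule.span_le]
    rintro _ ⟨x, rfl⟩
    exact hD x
  have hbot : (⊤ : Submodule (Localization.AtPrime q) (Ω[Localization.AtPrime q⁄R₀])) = ⊥ := by
    refine Submodule.eq_bot_of_le_smul_of_le_jacobson_bot
      (IsLocalRing.maximalIdeal (Localization.AtPrime q)) ⊤ Module.Finite.fg_top ?_ ?_
    · rw [← hN]
      exact htop
    · rw [IsLocalRing.jacobson_eq_maximalIdeal ⊥ bot_ne_top]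
  rw [Algebra.formallyUnramified_iff]
  refine ⟨fun a b => ?_⟩
  have ha : a ∈ (⊤ : Submodule (Localization.AtPrime q) (Ω[Localization.AtPrime q⁄R₀])) :=
    Submodule.mem_top
  have hb : b ∈ (⊤ : Submodule (Localization.AtPrime q) (Ω[Localization.AtPrime q⁄R₀])) :=
    Submodule.mem_top
  rw [hbot, Submodule.mem_bot] at ha hb
  rw [ha, hb]

theorem isAlgebraic_of_params' (R₀ : Type*) [CommRing R₀] [IsDomain R₀] [Algebra k R₀]
    [Algebra R₀ S] [IsScalarTower k R₀ S] (hinj : Function.Injective (algebraMap R₀ S))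
    (hX : ∀ i, ∃ w, algebraMap R₀ S w = z i) (hT : ∀ j, ∃ w, algebraMap R₀ S w = t j) :
    Algebra.IsAlgebraic R₀ S := by
  have hunr : Algebra.FormallyUnramified R₀ (Localization.AtPrime q) :=
    unramifiedAt' q z t hzq hgen hsep R₀ hX hT
  have hqd : IsDomain (Localization.AtPrime q) :=
    IsLocalization.isDomain_localization q.primeCompl_le_nonZeroDivisors
  have hft : Algebra.FiniteType R₀ S := .of_restrictScalars_finiteType k _ S
  have hess : Algebra.EssFiniteType R₀ (Localization.AtPrime q) := .comp _ S _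
  have hinjq : Function.Injective (algebraMap S (Localization.AtPrime q)) :=
    IsLocalization.injective (Localization.AtPrime q) q.primeCompl_le_nonZeroDivisors
  have hff : FaithfulSMul R₀ (Localization.AtPrime q) := by
    rw [faithfulSMul_iff_algebraMap_injective,
      IsScalarTower.algebraMap_eq R₀ S (Localization.AtPrime q), RingHom.coe_comp]
    exact hinjq.comp hinj
  have h1 := isAlgebraic_of_formallyUnramified R₀ (Localization.AtPrime q)
  exact Algebra.IsAlgebraic.tower_bot_of_injective hinjq

/-- Parameters, with lifts of a separating transcendence basis of the residue field, are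
algebraically independent. -/
theorem algebraicIndependent_of_trdeg' (htr : ((n + d : ℕ) : Cardinal) ≤ Algebra.trdeg k S) :
    AlgebraicIndependent k (Sum.elim z t) := by
  have halg : Algebra.IsAlgebraic (Algebra.adjoin k (Set.range (Sum.elim z t))) S :=
    isAlgebraic_of_params' q z t hzq hgen hsep (Algebra.adjoin k (Set.range (Sum.elim z t)))
      Subtype.val_injective (fun i => ⟨⟨z i, Algebra.subset_adjoin ⟨Sum.inl i, rfl⟩⟩, rfl⟩)
      (fun j => ⟨⟨t j, Algebra.subset_adjoin ⟨Sum.inr j, rfl⟩⟩, rfl⟩)
  refine (Algebra.IsAlgebraic.isTranscendenceBasis_of_lift_le_trdeg_of_finite k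
    (Sum.elim z t) ?_).1
  simpa using htr

/-- Regular parameters give a smooth neighbourhood. -/
theorem exists_smooth_away' (hz : AlgebraicIndependent k (Sum.elim z t)) :
    ∃ h, h ∉ q ∧ Algebra.Smooth k (Localization.Away (h : S)) := by
  let _ : Algebra (MvPolynomial (Fin n ⊕ Fin d) k) S := (MvPolynomial.aeval (Sum.elim z t)).toAlgebra
  have hsc : IsScalarTower k (MvPolynomial (Fin n ⊕ Fin d) k) S :=
    IsScalarTower.of_algebraMap_eq fun c => ((MvPolynomial.aeval (Sum.elim z t)).commutes c).symm
  have hX : ∀ i, algebraMap (MvPolynomial (Fin n ⊕ Fin d) k) S (MvPolynomial.X i) =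
      Sum.elim z t i := fun i => MvPolynomial.aeval_X _ i
  have hunr : Algebra.IsUnramifiedAt (MvPolynomial (Fin n ⊕ Fin d) k) q :=
    unramifiedAt' q z t hzq hgen hsep (MvPolynomial (Fin n ⊕ Fin d) k)
      (fun i => ⟨_, hX (Sum.inl i)⟩) (fun j => ⟨_, hX (Sum.inr j)⟩)
  have hft : Algebra.FiniteType (MvPolynomial (Fin n ⊕ Fin d) k) S :=
    .of_restrictScalars_finiteType k _ S
  obtain ⟨f, hfq, P, φ, hφ⟩ :=
    Algebra.IsUnramifiedAt.exists_hasStandardEtaleSurjectionOn
      (R := MvPolynomial (Fin n ⊕ Fin d) k) q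
  have hf0 : f ≠ 0 := by
    rintro rfl
    exact hfq q.zero_mem
  have hle : Submonoid.powers f ≤ nonZeroDivisors S :=
    powers_le_nonZeroDivisors_of_noZeroDivisors hf0
  have hdom : IsDomain (Localization.Away f) := IsLocalization.isDomain_localization hle
  have hinj : Function.Injective
      (algebraMap (MvPolynomial (Fin n ⊕ Fin d) k) (Localization.Away f)) := by
    rw [IsScalarTower.algebraMap_eq (MvPolynomial (Fin n ⊕ Fin d) k) S (Localization.Away f),
      RingHom.coe_comp]
    exact (IsLocalization.injective (Localization.Away f) hle).comp hz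
  have htf : Module.IsTorsionFree (MvPolynomial (Fin n ⊕ Fin d) k) (Localization.Away f) :=
    Module.isTorsionFree_iff_algebraMap_injective.mpr hinj
  have hse := isStandardEtale_of_domain P φ hφ
  have hsm : Algebra.Smooth (MvPolynomial (Fin n ⊕ Fin d) k) (Localization.Away f) := inferInstance
  have hsk : Algebra.Smooth k (MvPolynomial (Fin n ⊕ Fin d) k) := ⟨inferInstance, inferInstance⟩
  exact ⟨f, hfq, Algebra.Smooth.comp k (MvPolynomial (Fin n ⊕ Fin d) k) (Localization.Away f)⟩

end

open scoped IntermediateField.algebraAdjoinAdjoin in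
/-- Separating transcendence bases, elementwise. -/
theorem exists_sep {k κ : Type*} [Field k] [Field κ] [Algebra k κ] {d : ℕ} (t : Fin d → κ)
    (hs : Algebra.IsSeparable (IntermediateField.adjoin k (Set.range t)) κ) (x : κ) :
    ∃ F : Polynomial (MvPolynomial (Fin d) k),
    F.eval₂ (MvPolynomial.aeval t : MvPolynomial (Fin d) k →ₐ[k] κ).toRingHom x = 0 ∧
    (derivative F).eval₂ (MvPolynomial.aeval t : MvPolynomial (Fin d) k →ₐ[k] κ).toRingHom x ≠
      0 := by
  have hsep : IsSeparable (IntermediateField.adjoin k (Set.range t)) x :=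
    Algebra.IsSeparable.isSeparable _ x
  obtain ⟨μ, hμ⟩ : ∃ μ, μ = minpoly (IntermediateField.adjoin k (Set.range t)) x := ⟨_, rfl⟩
  have h1 : aeval x μ = 0 := hμ ▸ minpoly.aeval _ x
  have h2 : aeval x (derivative μ) ≠ 0 := by
    rw [hμ]
    exact hsep.aeval_derivative_ne_zero (minpoly.aeval _ x)
  obtain ⟨b, hb, hν⟩ := IsLocalization.integerNormalization_spec
    (nonZeroDivisors (Algebra.adjoin k (Set.range t))) μ
  obtain ⟨ν, hν'⟩ : ∃ ν, ν = IsLocalization.integerNormalization
    (nonZeroDivisors (Algebra.adjoin k (Set.range t))) μ := ⟨_, rfl⟩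
  rw [← hν'] at hν
  have hb0 : algebraMap (Algebra.adjoin k (Set.range t)) κ b ≠ 0 := by
    intro h
    exact nonZeroDivisors.ne_zero hb (Subtype.ext h)
  let φ : MvPolynomial (Fin d) k →ₐ[k] Algebra.adjoin k (Set.range t) :=
    MvPolynomial.aeval fun i => ⟨t i, Algebra.subset_adjoin ⟨i, rfl⟩⟩
  have hφ : (algebraMap (Algebra.adjoin k (Set.range t)) κ).comp φ.toRingHom =
      (MvPolynomial.aeval t : MvPolynomial (Fin d) k →ₐ[k] κ).toRingHom := by
    apply MvPolynomial.ringHom_ext
    · intro c
      change algebraMap (Algebra.adjoin k (Set.range t)) κ (φ (MvPolynomial.C c)) =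
        MvPolynomial.aeval t (MvPolynomial.C c)
      rw [MvPolynomial.aeval_C, MvPolynomial.aeval_C]
      rfl
    · intro j
      change algebraMap (Algebra.adjoin k (Set.range t)) κ (φ (MvPolynomial.X j)) =
        MvPolynomial.aeval t (MvPolynomial.X j)
      rw [MvPolynomial.aeval_X, MvPolynomial.aeval_X]
      rfl
  have hsurj : Function.Surjective φ.toRingHom := by
    rintro ⟨a, ha⟩
    have h4 : ∀ b : κ, b ∈ Algebra.adjoin k (Set.range t) →
        ∃ F : MvPolynomial (Fin d) k, MvPolynomial.aeval t F = b := by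
      intro b hb
      rw [Algebra.adjoin_range_eq_range_aeval] at hb
      exact hb
    obtain ⟨F, hF⟩ := h4 a ha
    refine ⟨F, Subtype.ext ?_⟩
    have := RingHom.congr_fun hφ F
    exact this.trans hF
  obtain ⟨F, hF⟩ := Polynomial.map_surjective _ hsurj ν
  have key : ∀ G : Polynomial (MvPolynomial (Fin d) k),
      G.eval₂ (MvPolynomial.aeval t : MvPolynomial (Fin d) k →ₐ[k] κ).toRingHom x =
      aeval x ((G.map φ.toRingHom).map (algebraMap (Algebra.adjoin k (Set.range t))
        (IntermediateField.adjoin k (Set.range t)))) := by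
    intro G
    rw [aeval_def, eval₂_map, eval₂_map, ← hφ]
    rfl
  have hsm : ∀ p : Polynomial (IntermediateField.adjoin k (Set.range t)), aeval x (b • p) =
      algebraMap (Algebra.adjoin k (Set.range t)) κ b * aeval x p := by
    intro p
    have : b • p = C (algebraMap (Algebra.adjoin k (Set.range t))
        (IntermediateField.adjoin k (Set.range t)) b) * p := by
      rw [← Polynomial.smul_eq_C_mul, algebraMap_smul]
    rw [this, map_mul, aeval_C]
    rfl
  refine ⟨F, ?_, ?_⟩
  · rw [key, hF, hν, hsm, h1, mul_zero]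
  · rw [key, ← derivative_map, hF, ← derivative_map, hν, derivative_smul, hsm]
    exact mul_ne_zero hb0 h2

end Pool.Agent.LU2G
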