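import Pool.Agent.Lib.LU2G.Local
import Pool.Agent.Lib.LU2_h15.AbhD

/-!
# LU2G, G2b, G2c, G2d, G2e
-/

set_option autoImplicit false

namespace Pool.Agent.LU2G

open Pool.Agent.LU2

universe u

variable {k K : Type u} [Field k] [Field K] [Algebra k K]

/-- `V₁` covers `V`. -/
def Covers (V V₁ : ValuationSubring K) : Prop :=
  V < V₁ ∧ ∀ W : ValuationSubring K, V ≤ W → W ≤ V₁ → W = V ∨ W = V₁

/-- G2b: the relative Abhyankar inequality: the defect does not grow when the valuation is
restricted to a subfield. -/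
theorem DefLE.comap' {V : ValuationSubring K} (hk : ∀ c : k, algebraMap k K c ∈ V)
    (hfin : Algebra.trdeg k K < Cardinal.aleph0) (L : IntermediateField k K) {δ : ℕ}
    (h : DefLE k V δ) : DefLE k (V.comap (algebraMap L K)) δ :=
  Pool.Agent.LU2.DefLE.comap_any hk hfin L h

/-- The preimage in `V₁` of a valuation ring of the residue field. -/
def pullV {V₁ : ValuationSubring K} {K₁ : Type u} [Field K₁] (φ : V₁ →+* K₁)
    (hφ : ∀ x : V₁, φ x = 0 ↔ V₁.valuation (x : K) < 1)
    (W₂ : ValuationSubring K₁) : ValuationSubring K where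
  carrier := {x | ∃ h : x ∈ V₁, φ ⟨x, h⟩ ∈ W₂}
  mul_mem' := by
    rintro a b ⟨ha, ha'⟩ ⟨hb, hb'⟩
    refine ⟨V₁.mul_mem _ _ ha hb, ?_⟩
    have : (⟨a * b, V₁.mul_mem _ _ ha hb⟩ : V₁) = ⟨a, ha⟩ * ⟨b, hb⟩ := rfl
    rw [this, map_mul]
    exact W₂.mul_mem _ _ ha' hb'
  one_mem' := ⟨V₁.one_mem, by
    have : (⟨1, V₁.one_mem⟩ : V₁) = 1 := rfl
    rw [this, map_one]
    exact W₂.one_mem⟩
  add_mem' := by
    rintro a b ⟨ha, ha'⟩ ⟨hb, hb'⟩
    refine ⟨V₁.add_mem _ _ ha hb, ?_⟩
    have : (⟨a + b, V₁.add_mem _ _ ha hb⟩ : V₁) = ⟨a, ha⟩ + ⟨b, hb⟩ := rfl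
    rw [this, map_add]
    exact W₂.add_mem _ _ ha' hb'
  zero_mem' := ⟨V₁.zero_mem, by
    have : (⟨0, V₁.zero_mem⟩ : V₁) = 0 := rfl
    rw [this, map_zero]
    exact W₂.zero_mem⟩
  neg_mem' := by
    rintro a ⟨ha, ha'⟩
    refine ⟨V₁.neg_mem _ ha, ?_⟩
    have : (⟨-a, V₁.neg_mem _ ha⟩ : V₁) = -⟨a, ha⟩ := rfl
    rw [this, map_neg]
    exact W₂.neg_mem _ ha'
  mem_or_inv_mem' := by
    intro x
    by_cases hx1 : x ∈ V₁
    · rcases lt_or_eq_of_le ((V₁.valuation_le_one_iff x).2 hx1) with h | h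
      · refine Or.inl ⟨hx1, ?_⟩
        rw [(hφ ⟨x, hx1⟩).2 h]
        exact W₂.zero_mem
      · have h0 : x ≠ 0 := by
          rintro rfl
          simp at h
        have hx4 : x⁻¹ ∈ V₁ := by
          rw [← V₁.valuation_le_one_iff, map_inv₀, h, inv_one]
        have hx5 : φ ⟨x⁻¹, hx4⟩ = (φ ⟨x, hx1⟩)⁻¹ := by
          refine eq_inv_of_mul_eq_one_right ?_
          rw [← map_mul]
          have : (⟨x, hx1⟩ : V₁) * ⟨x⁻¹, hx4⟩ = 1 := Subtype.ext (mul_inv_cancel₀ h0)
          rw [this, map_one]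
        rcases W₂.mem_or_inv_mem (φ ⟨x, hx1⟩) with h | h
        · exact Or.inl ⟨hx1, h⟩
        · exact Or.inr ⟨hx4, by rw [hx5]; exact h⟩
    · have hx4 : x⁻¹ ∈ V₁ := (V₁.mem_or_inv_mem x).resolve_left hx1
      refine Or.inr ⟨hx4, ?_⟩
      have h0 : 1 < V₁.valuation x := by
        rw [← not_le, V₁.valuation_le_one_iff]
        exact hx1
      have h1 : φ ⟨x⁻¹, hx4⟩ = 0 := by
        rw [hφ]
        change V₁.valuation x⁻¹ < 1
        rw [map_inv₀]
        exact inv_lt_one_of_one_lt₀ h0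
      rw [h1]
      exact W₂.zero_mem

/-- If `V₁` covers `V`, the image of `V` in the residue field of `V₁` has rank one. -/
theorem Covers.isR1 {V V₁ : ValuationSubring K} {K₁ : Type u} [Field K₁] [Algebra k K₁]
    {φ : V₁ →+* K₁} {V₂ : ValuationSubring K₁} (hres : IsRes (k := k) V V₁ φ V₂)
    (hcov : Covers V V₁) : IsR1 V₂ := by
  constructor
  · intro h
    apply hcov.1.not_ge
    intro x hx
    have h1 := hres.mem ⟨x, hx⟩
    rw [h] at h1
    exact h1.1 (ValuationSubring.mem_top _)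
  · intro W₂ hW
    have hmem : ∀ x : K, x ∈ pullV φ hres.eq_zero_iff W₂ ↔ ∃ h : x ∈ V₁, φ ⟨x, h⟩ ∈ W₂ :=
      fun x => Iff.rfl
    rcases hcov.2 (pullV φ hres.eq_zero_iff W₂) (fun x hx => ⟨hres.le hx, hW ((hres.mem _).2 hx)⟩)
      (fun x hx => hx.1) with h | h
    · left
      refine le_antisymm ?_ hW
      intro y hy
      obtain ⟨x, rfl⟩ := hres.surj y
      rw [hres.mem]
      have h1 := (hmem x).2 ⟨x.2, hy⟩
      rwa [h] at h1
    · right
      refine top_le_iff.1 ?_
      intro y _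
      obtain ⟨x, rfl⟩ := hres.surj y
      have h1 : (x : K) ∈ pullV φ hres.eq_zero_iff W₂ := by
        rw [h]
        exact x.2
      exact h1.2

/-- The restriction of a valuation ring of rank one to a subfield has rank one or is trivial. -/
theorem isR1_comap {K₁ : Type u} [Field K₁] [Algebra k K₁] {V₂ : ValuationSubring K₁}
    (h2 : IsR1 V₂) (L : IntermediateField k K₁) (hne : V₂.comap (algebraMap L K₁) ≠ ⊤) :
    IsR1 (V₂.comap (algebraMap L K₁)) := by
  refine ⟨hne, fun W hW => ?_⟩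
  by_cases hWV : W ≤ V₂.comap (algebraMap L K₁)
  · exact Or.inl (le_antisymm hWV hW)
  right
  obtain ⟨f₀, hf₀, hf₀'⟩ : ∃ f₀ ∈ W, f₀ ∉ V₂.comap (algebraMap L K₁) := by
    by_contra h
    push Not at h
    exact hWV h
  have h3 : 1 < V₂.valuation (algebraMap L K₁ f₀) := by
    rw [← not_le, V₂.valuation_le_one_iff]
    exact hf₀'
  have hf0 : f₀ ≠ 0 := by
    rintro rfl
    simp at h3
  refine top_le_iff.1 ?_
  intro f _
  obtain ⟨n, hn⟩ := h2.arch h3 (algebraMap L K₁ f)
  have h4 : f / f₀ ^ n ∈ V₂.comap (algebraMap L K₁) := by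
    rw [ValuationSubring.mem_comap, ← V₂.valuation_le_one_iff, map_div₀, map_div₀, map_pow,
      map_pow]
    exact div_le_one_of_le₀ hn zero_le
  have h5 : f = f / f₀ ^ n * f₀ ^ n := by
    rw [div_mul_cancel₀ _ (pow_ne_zero _ hf0)]
  rw [h5]
  exact W.mul_mem _ _ (hW h4) (pow_mem hf₀ n)

/-- G2c: if `V₁` covers `V`, the image of `V` in the residue field of `V₁` restricts to a real or
trivial valuation ring on each subfield. -/
theorem comap_isR1 {V V₁ : ValuationSubring K} {K₁ : Type u} [Field K₁] [Algebra k K₁]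
    {φ : V₁ →+* K₁} {V₂ : ValuationSubring K₁} (hres : IsRes (k := k) V V₁ φ V₂)
    (hcov : Covers V V₁) (L : IntermediateField k K₁) (hne : V₂.comap (algebraMap L K₁) ≠ ⊤) :
    IsR1 (V₂.comap (algebraMap L K₁)) :=
  isR1_comap (hcov.isR1 hres) L hne

/-- G2e: the defect of a coarsening. -/
theorem DefLE.of_le {V V₁ : ValuationSubring K} (hk : ∀ c : k, algebraMap k K c ∈ V)
    (hle : V ≤ V₁) {δ : ℕ} (h : DefLE k V δ) : DefLE k V₁ δ := by
  obtain ⟨K₁, _, _, φ, V₂, hres⟩ := exists_isRes hle hk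
  obtain ⟨δ₁, δ₂, hδ, hD₁, hD₂⟩ := Pool.Agent.LU2.DefLE.split hres h
  exact hD₁.mono (by omega)

/-- A finite strict chain of coarsenings gives elements with independent values. -/
theorem indVal_of_fin_chain {V : ValuationSubring K} {N : ℕ} (W : Fin (N + 1) → ValuationSubring K)
    (hV : ∀ n, V ≤ W n) (hmono : StrictMono W) : ∃ x : Fin N → K, IndVal V x := by
  classical
  have hex : ∀ i : Fin N, ∃ x : K, x ∈ W i.succ ∧ x ∉ W i.castSucc := by
    intro i
    have h1 : W i.castSucc < W i.succ := hmono (Fin.castSucc_lt_succ)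
    by_contra h2
    push Not at h2
    exact h1.not_ge h2
  choose x hx hx' using hex
  have hx0 : ∀ n, x n ≠ 0 := by
    intro n h
    apply hx' n
    rw [h]
    exact (W n.castSucc).zero_mem
  refine ⟨x, fun i => hx0 i, fun e he => ?_⟩
  by_contra hne
  have hsupp : e.support.Nonempty := Finsupp.support_nonempty_iff.2 hne
  obtain ⟨i, hi, hmax⟩ := e.support.exists_maximal hsupp
  have h1 := val_eq_one_of_le (hV i.castSucc) he
  rw [Finsupp.prod, map_prod, Finset.prod_eq_single i] at h1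
  · rw [map_zpow₀] at h1
    have h2 : 1 < (W i.castSucc).valuation (x i) := by
      rw [← not_le, (W i.castSucc).valuation_le_one_iff]
      exact hx' i
    have h3 : e i ≠ 0 := Finsupp.mem_support_iff.1 hi
    apply h3
    exact zpow_right_injective₀ (zero_lt_one.trans h2) h2.ne' (by
      simp only [h1, zpow_zero])
  · intro j hj hji
    have hlt : j < i := by
      rcases lt_or_ge j i with h | h
      · exact h
      · exact absurd (le_antisymm (hmax hj h) h) (fun h => hji h)
    have hle1 : W j.succ ≤ W i.castSucc := hmono.monotone (by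
      rw [Fin.le_def]
      simp only [Fin.val_succ, Fin.val_castSucc]
      exact hlt)
    have h2 : (W i.castSucc).valuation (x j) = 1 := by
      refine le_antisymm ?_ ?_
      · rw [(W i.castSucc).valuation_le_one_iff]
        exact hle1 (hx j)
      · have h3 : (x j)⁻¹ ∈ W i.castSucc := by
          rcases (W j.castSucc).mem_or_inv_mem (x j) with h | h
          · exact absurd h (hx' j)
          · exact hmono.monotone (by
              rw [Fin.le_def]
              simp only [Fin.val_castSucc]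
              exact hlt.le) h
        rw [← (W i.castSucc).valuation_le_one_iff, map_inv₀] at h3
        by_contra h4
        push Not at h4
        have h5 := mul_lt_of_lt_of_le_one h4 h3
        rw [mul_inv_cancel₀ ((Valuation.ne_zero_iff _).2 (hx0 j))] at h5
        exact lt_irrefl _ h5
    rw [map_zpow₀, h2, one_zpow]
  · intro h
    exact absurd hi h

/-- There are only finitely many coarsenings. -/
theorem finite_coarsening {V : ValuationSubring K} (hk : ∀ c : k, algebraMap k K c ∈ V)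
    (hfin : Algebra.trdeg k K < Cardinal.aleph0) : Finite {S : ValuationSubring K // V ≤ S} := by
  classical
  by_contra hinf
  rw [not_finite_iff_infinite] at hinf
  obtain ⟨n, hn⟩ := Cardinal.lt_aleph0.1 hfin
  obtain ⟨s, hs⟩ := Infinite.exists_subset_card_eq {S : ValuationSubring K // V ≤ S} (n + 2)
  obtain ⟨x, hx⟩ := indVal_of_fin_chain (N := n + 1) (V := V)
    (fun i => ((s.orderEmbOfFin hs i : {S : ValuationSubring K // V ≤ S}) : ValuationSubring K))
    (fun i => (s.orderEmbOfFin hs i).2)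
    (fun i j hij => (s.orderEmbOfFin hs).strictMono hij)
  have h2 := abhyankar hk hx (C7a.indRes_empty hk (fun i : Fin 0 => i.elim0))
  rw [hn] at h2
  have h3 : n + 1 + 0 ≤ n := by exact_mod_cast h2
  omega

/-- G2d: every valuation ring different from `K` is the end of a chain of coverings that starts at
`⊤`. -/
theorem exists_chain {V : ValuationSubring K} (hk : ∀ c : k, algebraMap k K c ∈ V)
    (hV : V ≠ ⊤) (hfin : Algebra.trdeg k K < Cardinal.aleph0) :
    ∃ (n : ℕ) (W : Fin (n + 1) → ValuationSubring K), W 0 = ⊤ ∧ W (Fin.last n) = V ∧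
      ∀ i : Fin n, Covers (W i.succ) (W i.castSucc) := by
  classical
  have := finite_coarsening hk hfin
  have := Fintype.ofFinite {S : ValuationSubring K // V ≤ S}
  obtain ⟨n, hn⟩ : ∃ n : ℕ, Fintype.card {S : ValuationSubring K // V ≤ S} = n + 1 :=
    Nat.exists_eq_succ_of_ne_zero (Fintype.card_ne_zero)
  let e : Fin (n + 1) ≃o {S : ValuationSubring K // V ≤ S} := Fintype.orderIsoFinOfCardEq _ hn
  have h0 : e 0 = ⟨V, le_rfl⟩ := by
    refine le_antisymm ?_ (e 0).2
    rw [← e.le_symm_apply]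
    exact Fin.zero_le _
  have h1 : e (Fin.last n) = ⟨⊤, le_top⟩ := by
    refine le_antisymm (show ((e (Fin.last n)).1 ≤ ⊤) from le_top) ?_
    rw [← e.symm_apply_le]
    exact Fin.le_last _
  refine ⟨n, fun i => (e i.rev).1, ?_, ?_, ?_⟩
  · simp only [Fin.rev_zero, h1]
  · simp only [Fin.rev_last, h0]
  · intro i
    simp only [Fin.rev_succ, Fin.rev_castSucc]
    refine ⟨e.strictMono Fin.castSucc_lt_succ, fun W hW1 hW2 => ?_⟩
    have hVW : V ≤ W := (e i.rev.castSucc).2.trans hW1
    obtain ⟨j, hj⟩ := e.surjective ⟨W, hVW⟩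
    have h3 : i.rev.castSucc ≤ j := by
      rw [← e.le_iff_le, hj]
      exact hW1
    have h4 : j ≤ i.rev.succ := by
      rw [← e.le_iff_le, hj]
      exact hW2
    rw [Fin.le_def] at h3 h4
    simp only [Fin.val_succ, Fin.val_castSucc] at h3 h4
    rcases (by omega : (j : ℕ) = i.rev ∨ (j : ℕ) = i.rev + 1) with h5 | h5
    · left
      have : j = i.rev.castSucc := Fin.ext h5
      rw [← this, hj]
    · right
      have : j = i.rev.succ := Fin.ext h5
      rw [← this, hj]

end Pool.Agent.LU2G
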